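import Pool.Agent.MP_5baa61_gt.JB.Pl
import Pool.Agent.MP_5baa61_gt.JK.Club
import Pool.Agent.MP_5baa61_gt.JK.Rf

/-! Part B, names: collapsing functions, promises, runs, the iterand. -/

namespace Pool.Agent.MP_5baa61_gt.JB

open Set Function Pool.Agent.MP_5baa61_gt.JK
open Pool.Agent.MP_b60a07_lc.H92 (Od U Rl t0 Good Ext sup)
open Pool.Agent.MP_5baa61_gt.JA (Cell Move Sk Pat TLp)
open scoped Classical

universe u

abbrev w0 : Od := Ordinal.omega0

/-- `e g` names a bijection from the naturals to the ordinals below `max g w0`. -/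
structure Lv (b : Rl) (e : Od → Set U → ℕ → Od) : Prop where
  lt : ∀ g G j, e g G j < max g w0
  no : ∀ g j, NO b fun G => e g G j
  inj : ∀ g, Fc b t0 fun G => Injective (e g G)
  sur : ∀ g x, x < max g w0 → Fc b t0 fun G => ∃ j, e g G j = x

/-- Families of names. -/
abbrev Fa : Type 1 := Od → Set U → Vf

/-- The promise. -/
def Keep (b : Rl) (V : Fa) : Prop := ∀ [PO b], (∀ g, NB b (V g)) ∧ (∀ g G, Fm (V g G)) ∧
  ∀ h : Set U → ℕ → ℕ, NB b h → Club fun g => Fc b t0 fun G => Lng (h G) (V g G)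

def S_keep : Prop :=
  (∀ b, Good b → Keep b fun _ _ _ _ => True) ∧
  (∀ (d : Od → Rl) (π : Fa) (ξ : Od), (∀ i, Good (d i)) → Good (sup d) →
    (∀ i, Ext (d i) (sup d)) → (∀ i j, ∃ k, Ext (d i) (d k) ∧ Ext (d j) (d k) ∧ Keep (d k) π) →
    (∀ i, ∃ j ≤ ξ, d i = d j) → (∃ i, Keep (d i) π) → Keep (sup d) π) ∧
  ∀ (d : Od → Rl) (π : Fa), (∀ i, Good (d i)) → Good (sup d) →
    (∀ i, Ext (d i) (sup d)) → (∀ i j, i ≤ j → Ext (d i) (d j)) →
    (∀ i, Keep (d i) π) → Keep (sup d) π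

/-- The kind of promise that is used. -/
def kindP (h : S_keep) (b0 : Rl) (g0 : Good b0) : Kind where
  b0 := b0
  g0 := g0
  Pr := Fa
  keep := Keep
  top := fun _ _ _ _ => True
  ktop := h.1 b0 g0
  le V V' := ∀ g G l c, V g G l c → V' g G l c
  lr _ _ _ _ _ := id
  small := h.2.1
  long := h.2.2

/-- The history at the step `g`. -/
def hs (e : Od → Set U → ℕ → Od) (T : Od → Set U → ℕ → ℕ) (Z : Od → Set U → Zt) (g : Od)
    (G : Set U) : Hs := fun j => (T (e g G j) G, Z (e g G j) G)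

/-- The diagonal intersection of the listed families. -/
def VV (e : Od → Set U → ℕ → Od) (f : Od → Fa) : Fa :=
  fun g G l c => ∀ j < l, f (e g G j) g G l c

/-- The tasks list all names. -/
structure Tasks (b : Rl) [PO b] (T : Od → Set U → ℕ → ℕ) (a : Od → ℕ)
    (X : Od → Set U → Move → Prop) : Prop where
  nT : ∀ z, NB b (T z)
  nX : ∀ z, NB b (X z)
  lT : ∀ f, NB b f → ∃ z, Fc b t0 fun G => T z G = f G
  lX : ∀ a0 f, NB b f → ∃ z, w0 ≤ z ∧ a z = a0 ∧ Fc b t0 fun G => X z G = f G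

structure Run (b : Rl) [PO b] (p : U) (e : Od → Set U → ℕ → Od) (Pi : Set U → Cell → Prop)
    (T : Od → Set U → ℕ → ℕ) (a : Od → ℕ) (X : Od → Set U → Move → Prop) (V : Fa)
    (Z : Od → Set U → Zt) : Prop where
  g : Good b
  m : b p p
  lv : Lv b e
  tk : Tasks b T a X
  nP : NB b Pi
  nV : ∀ g, NB b (V g)
  nZ : ∀ z, NB b (Z z)
  fm : ∀ g G, Fm (V g G)
  ps1 : ∀ g, w0 ≤ g → Fc b p fun G => Ps1 (Pi G) (hs e T Z g G)
  ps2 : ∀ g, w0 ≤ g → Fc b p fun G => Ps2 (Pi G) (a g) (X g G) (Z g G)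
  ps3 : Club fun g => Fc b p fun G => Ps3 (hs e T Z g G) (V g G) (Z g G)
  ps4 : ∀ g, w0 ≤ g → Fc b p fun G => Ps4 (Pi G) (hs e T Z g G) (Z g G)
  ps5 : ∀ g, w0 ≤ g → Fc b p fun G => Ps5 (hs e T Z g G) (Z g G)

/-- The order of the iterand; it is trivial when `p` is not in the filter. -/
def LQ (p : U) (Pi : Set U → Cell → Prop) (A : Od → Set U → ℕ → Prop) (w v : Cn Od) (G : Set U) :
    Prop := (p ∈ G ∧ leC (Pi G) (fun z => A z G) w v) ∨ (w = Cn.top ∧ v = Cn.top)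

/-- `c` is the two step iteration. -/
structure TS (b c : Rl) (p : U) (Pi : Set U → Cell → Prop) (A : Od → Set U → ℕ → Prop)
    (dec : U → U × Cn Od) : Prop where
  g : Good c
  ext : Ext b c
  le : ∀ u v, c u v ↔ b (dec u).1 (dec v).1 ∧ Fc b (dec u).1 (LQ p Pi A (dec u).2 (dec v).2) ∧
    Fc b (dec v).1 (LQ p Pi A (dec v).2 (dec v).2)
  d0 : ∀ q, b q q → dec q = (q, Cn.top)
  d1 : ∀ v : U × Cn Od, b v.1 v.1 → ∃ u, dec u = v

/-- The generic sets. -/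
def DD (c : Rl) (dec : U → U × Cn Od) (ξ : Od) (G : Set U) (k : ℕ) : Prop :=
  ∃ u ∈ G, c u u ∧ (ξ, k) ∈ (dec u).2.s

/-- The condition `w` of the iterand decides the value `v` of `h` at `a`. -/
def DC (b c : Rl) (dec : U → U × Cn Od) (h : Set U → ℕ → ℕ) (G : Set U) (w : Cn Od) (a v : ℕ) :
    Prop := ∃ s ∈ G, b s s ∧ ∃ u, dec u = (s, w) ∧ c u u ∧ Fc c u fun G => h G a = v

/-- The new family. -/
def Nw (p : U) (e : Od → Set U → ℕ → Od) (D : Od → Set U → ℕ → Prop) (Z : Od → Set U → Zt) : Fa :=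
  fun g G l c => p ∈ G → Vn (fun j => D (e g G j) G) (fun j i => D (e (e g G j) G i) G)
    (fun j i => D (e (e g G j) G i) G) (Z g G) l c

/-- A decided statement that holds is forced by a member of the filter. -/
theorem truth {α : Type u} {b : α → α → Prop} [PO b] {q : α} {S : Set α → Prop} (h : Dec b S) :
    Fc b q fun G => S G → ∃ s ∈ G, b s q ∧ Fc b s S :=
  .glue fun r hr => let ⟨s, h1, h2⟩ := h r (PO.l hr); ⟨s, h1, h2.elim
    (fun h2 => Fc.self.imp fun _ hs _ => ⟨s, hs, PO.tr h1 hr, h2⟩)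
    fun h2 => h2.imp fun _ h3 h4 => absurd h4 h3⟩

theorem nb_mem {b : Rl} [PO b] {p : U} (h : b p p) : NB b fun G => p ∈ G := by
  simpa using nb_meet (b := b) (D := fun s => s = p) fun _ e => e ▸ h

/-! Statements -/

def S_lv : Prop := ∃ b e, Good b ∧ Lv b e

def S_lvx : Prop := ∀ b c e, Good b → Good c → Ext b c → Lv b e → Lv c e

/-- Reading forced statements and names at finitely many names of ordinals. -/
def S_at : Prop := ∀ (b : Rl) [PO b] (ε : Set U → ℕ → Od), (∀ j, NO b fun G => ε G j) →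
  ∀ (α : Type 1) (φ : (ℕ → Od) → α) (l : ℕ), (∀ x y, (∀ j < l, x j = y j) → φ x = φ y) →
    (∀ q (S : α → Set U → Prop), (∀ w, Fc b q (S w)) → Fc b q fun G => S (φ (ε G)) G) ∧
      ∀ S : α → Set U → Prop, (∀ w, NB b (S w)) → NB b fun G => S (φ (ε G)) G

def S_tasks : Prop := ∀ (b : Rl) [PO b], Good b → ∃ T a X, Tasks b T a X

/-- A forced total relation has a name of a choice function. -/
def S_fun : Prop := ∀ (b : Rl) [PO b] (q : U) (R : ℕ → ℕ → Set U → Prop), (∀ n m, NB b (R n m)) →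
  (Fc b q fun G => ∀ n, ∃ m, R n m G) → ∃ f : Set U → ℕ → ℕ, NB b f ∧
    Fc b q fun G => ∀ n, R n (f G n) G

/-- Below the conditions of the small forcing every extension keeps the promise. -/
def S_loc : Prop := ∀ (a b : Rl) [PO a] [PO b] (V : Fa) (h : Set U → ℕ → ℕ), Good a → Good b →
  Ext a b → Keep a V → NB b h → Club fun g => ∀ l p, a p p → ∃ r s, b r p ∧
    Fc b r fun G => SkV (V g G) l s ∧ ∀ J ∈ s.1, h G J.1 < J.2

def S_r2 : Prop := ∀ (b : Rl) (e : Od → Set U → ℕ → Od) (f : Od → Fa), Good b → Lv b e →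
  (∀ z, Keep b (f z)) → (∀ z z', ∃ y, ∀ g G l c, f y g G l c → f z g G l c ∧ f z' g G l c) →
    Keep b (VV e f)

def S_nbl : Prop := ∀ (O : Type u) (b : Rl) [PO b] (Pi : Set U → Cell → Prop)
  (A : O → Set U → ℕ → Prop), NB b Pi → (∀ z, NB b (A z)) → ∀ w v, NB b fun G => leC (Pi G) (fun z => A z G) w v

def S_ts : Prop := ∀ (b : Rl) (p : U) (Pi : Set U → Cell → Prop) (A : Od → Set U → ℕ → Prop),
  Good b → ∃ c dec, TS b c p Pi A dec

def S_fit : Prop := ∀ (b c : Rl) [PO b] [PO c] p Pi A dec, TS b c p Pi A dec →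
  (∀ ξ, NB c (DD c dec ξ)) ∧ ∀ u, c u u → Fc c u fun G => ∀ ξ k,
    (DD c dec ξ G k → (dec u).2.N ξ k) ∧ ((dec u).2.P ξ k → DD c dec ξ G k)

def S_g01 : Prop := ∀ (b c : Rl) [PO b] [PO c] p e Pi T a X V Z dec, Run b p e Pi T a X V Z →
  TS b c p Pi (fun z G => (Z z G).A) dec →
    (∀ ξ, Fc c p fun G => ∀ m, ∃ k, m ≤ k ∧ DD c dec ξ G k) ∧
      ∀ ξ g, Fc c p fun G => ∃ m, ∀ k, m ≤ k → DD c dec ξ G k → (Z g G).A k

/-- A bound for the supports of conditions that decide `h`. -/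
def S_delta : Prop := ∀ (b c : Rl) [PO b] [PO c] p Pi A dec (h : Set U → ℕ → ℕ),
  TS b c p Pi A dec → NB c h → ∃ δ, w0 ≤ δ ∧ ∀ a u, c u u → ∃ u' m v, c u' u ∧ c u' m ∧
    (Fc c m fun G => h G a = v) ∧ (∀ ξ ∈ (dec m).2.E, ξ < δ) ∧ ∀ x ∈ (dec m).2.F, x.2 < δ

/-- The alternative of killing is impossible. -/
def S_nokill : Prop := ∀ (b c : Rl) [PO b] [PO c] p e Pi A dec (h : Set U → ℕ → ℕ) (δ : Od),
  Good b → b p p → Lv b e → NB b Pi → (∀ z, NB b (A z)) → TS b c p Pi A dec → w0 ≤ δ →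
  (∀ a u, c u u → ∃ u' m v, c u' u ∧ c u' m ∧ (Fc c m fun G => h G a = v) ∧
    (∀ ξ ∈ (dec m).2.E, ξ < δ) ∧ ∀ x ∈ (dec m).2.F, x.2 < δ) →
  ∀ a s z, Stm a s → Fc b p fun G => ∃ t,
    XS (Pi G) (fun w => DC b c dec h G (Cn.map (e δ G) w)) a s t ∧ JA.Legal (Pi G) a (A z G) t

def S_task : Prop := ∀ (b c : Rl) [PO b] [PO c] p e Pi T a X V Z dec (h : Set U → ℕ → ℕ),
  Run b p e Pi T a X V Z → TS b c p Pi (fun z G => (Z z G).A) dec → NB c h →
    ∃ δ z1 z2, w0 ≤ δ ∧ Fc b p fun G =>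
      Tk (Pi G) (fun w => DC b c dec h G (Cn.map (e δ G) w)) (T z2 G) ∧
        ∀ a s m p', Stm a s → T z2 G a < m → (Z z1 G).cum m p' →
          TLp a (XS (Pi G) (fun w => DC b c dec h G (Cn.map (e δ G) w)) a s) p'

/-- The data of the walk are forced. -/
def S_pre : Prop := ∀ (b c : Rl) [PO b] [PO c] p e Pi T a X V Z dec (h : Set U → ℕ → ℕ),
  Run b p e Pi T a X V Z → TS b c p Pi (fun z G => (Z z G).A) dec → NB c h →
    ∃ δ, Club fun g => ∀ q : Cn Od, q.Wf → ∃ γ, Fc b p fun G =>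
      Walk (Pi G) (fun z => (Z z G).A) (fun x => ∃ j, e γ G j = x) (e g G) (e δ G)
        (fun j => e (e g G j) G) (hs e T Z g G) (V g G) (Z g G)
        (fun w => DC b c dec h G (Cn.map (e δ G) w)) q

/-- The density argument. -/
def S_dens : Prop := ∀ (b c : Rl) [PO b] [PO c] p e Pi T a X V Z dec (h : Set U → ℕ → ℕ),
  Run b p e Pi T a X V Z → TS b c p Pi (fun z G => (Z z G).A) dec → NB c h →
    Club fun g => ∀ l u, c u p → ∃ r s, c r u ∧ Fc c r fun G =>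
      SkV (fun l x => V g G l x ∧ Nw p e (DD c dec) Z g G l x) l s ∧ ∀ J ∈ s.1, h G J.1 < J.2

/-- The theorem of part B. -/
def S_gen (hk : S_keep) : Prop := ∀ b0 g0 (s : St (kindP hk b0 g0)) p e Pi T a X (f : Od → Fa) Z,
  (∀ π ∈ s.pr, ∃ z, f z = π) → Run s.b p e Pi T a X (VV e f) Z →
    ∃ (s' : St (kindP hk b0 g0)) (D : Od → Set U → ℕ → Prop), s.le s' ∧ (∀ ξ, NB s'.b (D ξ)) ∧
      ∀ s'' : St (kindP hk b0 g0), s'.le s'' →
        (∀ ξ, Fc s''.b p fun G => ∀ m, ∃ k, m ≤ k ∧ D ξ G k) ∧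
        (∀ ξ g, Fc s''.b p fun G => ∃ m, ∀ k, m ≤ k → D ξ G k → (Z g G).A k) ∧
        ∀ h : Set U → ℕ → ℕ, NB s''.b h → Club fun g => Fc s''.b p fun G =>
          G2 (fun j => D (e g G j) G) (fun j i => D (e (e g G j) G i) G) (Z g G) (h G)

/-- What a stage offers before the run is built. -/
def S_pool (hk : S_keep) : Prop := ∀ b0 g0 e, Lv b0 e → ∀ s : St (kindP hk b0 g0),
  Lv s.b e ∧ (∃ T a X, Tasks s.b T a X) ∧
    ∃ f : Od → Fa, (∀ π ∈ s.pr, ∃ z, f z = π) ∧ Keep s.b (VV e f)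

end Pool.Agent.MP_5baa61_gt.JB
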