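import Mathlib.Data.Finsupp.Encodable
import Pool.Agent.MP_5baa61_gt.JB.Spec

/-! The density argument at the level of names. -/

namespace Pool.Agent.MP_5baa61_gt.JB

open Set Function Pool.Agent.MP_5baa61_gt.JK
open Pool.Agent.MP_b60a07_lc.H92 (Od U Rl t0 Good Ext sup)
open Pool.Agent.MP_5baa61_gt.JA (Cell Move Sk Pat TLp)
open scoped Classical

set_option linter.unusedSectionVars false

universe u

@[fun_prop] theorem dm_SkV {α : Type*} [MeasurableSpace α] {V : α → Vf} (h : Measurable V) (l : ℕ)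
    (s : Sk) : Measurable fun x => SkV (V x) l s := by
  unfold SkV; fun_prop

@[fun_prop] theorem dm_Lng {α : Type*} [MeasurableSpace α] {f : α → ℕ → ℕ} {V : α → Vf}
    (hf : Measurable f) (h : Measurable V) : Measurable fun x => Lng (f x) (V x) := by
  unfold Lng
  refine Measurable.forall fun l => Measurable.exists fun s => (dm_SkV h l s).and ?_
  refine Measurable.forall fun J => Measurable.forall fun _ => ?_
  exact (measurable_from_top (f := fun n : ℕ => n < J.2)).comp ((measurable_pi_apply _).comp hf)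

@[fun_prop] theorem dm_Vn {α : Type*} [MeasurableSpace α] {N1 : α → ℕ → ℕ → Prop}
    {N2 P2 : α → ℕ → ℕ → ℕ → Prop} {z : α → Zt} (h1 : Measurable N1) (h2 : Measurable N2)
    (h3 : Measurable P2) (h4 : Measurable z) :
    Measurable fun x => Vn (N1 x) (N2 x) (P2 x) (z x) := by
  unfold Vn G2w Zt.Y Zt.K Zt.Lu
  fun_prop

theorem dens_map {O : Type u} {ε : ℕ → O} {q : Cn O} (hq : q.Wf) (h1 : ∀ ξ ∈ q.E, ∃ j, ε j = ξ)
    (h2 : ∀ x ∈ q.F, ∃ j, ε j = x.2) : ∃ c, Cn.map ε c = q := by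
  refine ⟨(q.E.image (invFun ε), q.s.image fun x => (invFun ε x.1, x.2),
    q.F.image fun x => (invFun ε x.1, invFun ε x.2), q.n), ?_⟩
  refine Prod.ext ?_ (Prod.ext ?_ (Prod.ext ?_ rfl))
  · exact Finset.image_image.trans ((Finset.image_congr (g := id) fun x hx =>
      invFun_eq (f := ε) (h1 x hx)).trans Finset.image_id)
  · exact Finset.image_image.trans ((Finset.image_congr (g := id) fun x hx =>
      by exact Prod.ext (invFun_eq (f := ε) (h1 _ (hq.1 x hx).1)) rfl).trans Finset.image_id)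
  · exact Finset.image_image.trans ((Finset.image_congr (g := id) fun x hx =>
      Prod.ext (invFun_eq (f := ε) (h1 _ (hq.2 x hx))) (invFun_eq (f := ε) (h2 x hx))).trans
        Finset.image_id)

theorem dens_loc {O : Type u} (c : Cn ℕ) :
    ∃ l, ∀ x y : ℕ → O, (∀ j < l, x j = y j) → Cn.map x c = Cn.map y c := by
  obtain ⟨l, hl⟩ := (c.E ∪ c.s.image Prod.fst ∪ c.F.image Prod.fst ∪
    c.F.image Prod.snd).exists_nat_subset_range
  have h : ∀ j, (j ∈ c.E ∨ (∃ x ∈ c.s, x.1 = j) ∨ (∃ x ∈ c.F, x.1 = j) ∨ ∃ x ∈ c.F, x.2 = j) →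
      j < l := fun j hj => Finset.mem_range.1 (hl (by
    simpa only [Finset.mem_union, Finset.mem_image, or_assoc] using hj))
  refine ⟨l, fun x y e => Prod.ext ?_ (Prod.ext ?_ (Prod.ext ?_ rfl))⟩
  · exact Finset.image_congr fun j hj => e j (h j (.inl hj))
  · exact Finset.image_congr fun z hz => Prod.ext (e _ (h _ (.inr (.inl ⟨z, hz, rfl⟩)))) rfl
  · exact Finset.image_congr fun z hz => Prod.ext (e _ (h _ (.inr (.inr (.inl ⟨z, hz, rfl⟩)))))
      (e _ (h _ (.inr (.inr (.inr ⟨z, hz, rfl⟩)))))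

variable {b c : Rl} {p : U} {Pi : Set U → Cell → Prop} {A : Od → Set U → ℕ → Prop}
  {dec : U → U × Cn Od}

theorem LQ.dle (h : S_le.{1}) {w v : Cn Od} {G : Set U} (e : LQ p Pi A w v G) :
    leC (Pi G) (fun z => A z G) w v := e.elim And.right fun e => by
  rw [e.1, e.2]
  exact ((h _ _ _).1 _ ⟨fun _ h => absurd h (Finset.notMem_empty _),
    fun _ h => absurd h (Finset.notMem_empty _)⟩).1

variable [PO b] [PO c]

theorem TS.val (ts : TS b c p Pi A dec) {u : U} (h : c u u) :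
    b (dec u).1 (dec u).1 ∧ Fc b (dec u).1 (LQ p Pi A (dec u).2 (dec u).2) :=
  ⟨((ts.le u u).1 h).1, ((ts.le u u).1 h).2.1⟩

/-- What the first coordinate forces is forced by the pair. -/
theorem TS.up (ts : TS b c p Pi A dec) (hl : S_le.{1}) {u : U} (h : c u u) {S : Set U → Prop}
    (hS : NB b S) (e : Fc b (dec u).1 S) : Fc c u S := by
  have h1 := ts.val h
  refine (e.up hS ts.ext h1.1).mono ((ts.le _ _).2 ?_)
  rw [ts.d0 _ h1.1]
  exact ⟨h1.1, h1.2.imp fun G hG => hG.imp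
    (fun e => ⟨e.1, ((hl _ _ _).1 _ e.2.1).2⟩) fun e => ⟨e.1, rfl⟩, .of_all fun _ => .inr ⟨rfl, rfl⟩⟩

theorem dens_dc {h : Set U → ℕ → ℕ} (w : Cn Od) (a v : ℕ) : NB b fun G => DC b c dec h G w a v :=
  nb_meet fun _ h => h.1

/-- A value that is decided by a weaker condition of the iterand. -/
theorem TS.pull (ts : TS b c p Pi A dec) (hl : S_le.{1}) (ha : S_at) (hn : S_nbl.{1})
    (nP : NB b Pi) (nA : ∀ z, NB b (A z)) {ε : Set U → ℕ → Od} (hε : ∀ j, NO b fun G => ε G j)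
    {h : Set U → ℕ → ℕ} (hh : NB c h) {r : U} (hp : b (dec r).1 p) {a m : ℕ}
    (e : Fc b (dec r).1 fun G => ∃ x v, leC (Pi G) (fun z => A z G) (dec r).2 (Cn.map (ε G) x) ∧
      DC b c dec h G (Cn.map (ε G) x) a v ∧ v < m) : Fc c r fun G => h G a < m := by
  refine ((hh.ap a).comp (φ := fun n => n < m) measurable_from_top).dec.fc fun r' hr' hneg => ?_
  obtain ⟨a1, a2, -⟩ := (ts.le _ _).1 hr'
  have a3 := ts.val (ts.g.l hr')
  obtain ⟨G, hG, -, ⟨x, v, b1, ⟨s2, b2, -, u2, b3, b4, b5⟩, b6⟩, h2⟩ := ((e.mono a1).and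
    (Fc.all fun x : Cn ℕ => let ⟨l, hl⟩ := dens_loc (O := Od) x
      (ha b ε hε _ (fun y => Cn.map y x) l hl).1 _ _ fun w =>
        truth (q := (dec r').1) (hn _ b Pi A nP nA (dec r).2 w).dec)).exists a3.1
  obtain ⟨s, s1, s3, s4⟩ := h2 x b1
  obtain ⟨t, -, t1, t2⟩ := hG.dir _ s1 _ b2
  obtain ⟨u, hu⟩ := ts.d1 (t, (dec r').2) (PO.l t1)
  have c1 : c u r' := (ts.le _ _).2 (by
    rw [hu]; exact ⟨PO.tr t1 s3, a3.2.mono (PO.tr t1 s3), a3.2⟩)
  have c2 : c u u2 := (ts.le _ _).2 (by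
    have := (ts.val b4).2
    rw [b3] at this
    rw [hu, b3]
    exact ⟨t2, ((Fc.of_le (PO.tr (PO.tr t1 s3) (PO.tr a1 hp))).and ((a2.mono (PO.tr t1 s3)).and
      (s4.mono t1))).imp fun G h => .inl ⟨h.1, (hl _ _ _).2.1 _ _ _ (h.2.1.dle hl) h.2.2⟩, this⟩)
  exact Fc.absurd (PO.l c1) ((b5.mono c2).imp fun G h => h ▸ b6) (hneg.mono c1)

theorem dens (hl : S_le.{1}) (hw : S_walk.{1}) (hp : S_pre) (ha : S_at) (hn : S_nbl.{1})
    (hf : S_fit) (hv : S_vn) : S_dens := by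
  intro b c _ _ p e Pi T a X V Z dec h R ts hh
  obtain ⟨δ, hδ⟩ := hp b c p e Pi T a X V Z dec h R ts hh
  refine hδ.mono fun g hg l u hu => ?_
  have nA : ∀ z, NB b fun G => (Z z G).A := fun z => (R.nZ z).comp measurable_fst
  have u1 : b (dec u).1 p := by simpa only [ts.d0 p R.m] using ((ts.le _ _).1 hu).1
  have u2 := ts.val (ts.g.l hu)
  obtain ⟨γ, hγ⟩ := hg (dec u).2 ((u2.2.imp fun G h => (h.dle hl).1).const u2.1)
  have no2 : ∀ j i, NO b fun G => e (e g G j) G i := fun j i =>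
    (R.lv.no g j).comp (F := fun z G => e z G i) fun z => R.lv.no z i
  have sel : ∀ (d : Od) (x : Cn ℕ) (S : Cn Od → Set U → Prop), (∀ w, NB b (S w)) →
      NB b fun G => S (Cn.map (e d G) x) G := fun d x S hS => let ⟨l, hl⟩ := dens_loc (O := Od) x
    (ha b (e d) (R.lv.no d) _ (fun y => Cn.map y x) l hl).2 S hS
  let W : Cn Od → Set U → Vf := fun w G l x => V g G l x ∧ Vn (fun j => w.N (e g G j))
    (fun j i => w.N (e (e g G j) G i)) (fun j i => w.P (e (e g G j) G i)) (Z g G) l x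
  have nW : ∀ w, NB b (W w) := fun w => by
    have h1 : NB b fun G j k => w.N (e g G j) k :=
      nb_pi fun j => nb_pi fun k => (R.lv.no g j).rel fun z => w.N z k
    have h2 : NB b fun G j i k => w.N (e (e g G j) G i) k :=
      nb_pi fun j => nb_pi fun i => nb_pi fun k => (no2 j i).rel fun z => w.N z k
    have h3 : NB b fun G j i k => w.P (e (e g G j) G i) k :=
      nb_pi fun j => nb_pi fun i => nb_pi fun k => (no2 j i).rel fun z => w.P z k
    have h4 := dm_Vn (α := Lc b) h1 h2 h3 (R.nZ g)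
    exact nb_pi fun l => nb_pi fun x => (((R.nV g).ap l).ap x).and ((NB.ap h4 l).ap x)
  let O : Cn Od → Sk → Set U → Prop := fun w s G =>
    Out (Pi G) (fun z => (Z z G).A) (e g G) (e δ G) (fun j => e (e g G j) G) (V g G) (Z g G)
      (fun w => DC b c dec h G (Cn.map (e δ G) w)) (dec u).2 l w s
  have nO : ∀ w s, NB b (O w s) := fun w s => (hn _ b Pi _ R.nP nA w _).and
    (NB.and (dm_SkV (α := Lc b) (nW w) l s) (NB.all fun J => NB.all fun _ => NB.ex fun x =>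
      NB.ex fun v => (sel δ x _ fun w' => hn _ b Pi _ R.nP nA w w').and
        ((sel δ x _ fun w' => dens_dc w' J.1 v).and (nb_const _))))
  obtain ⟨r0, r1, ⟨x, s⟩, r2⟩ := ((hγ.mono u1).imp (T := fun G => ∃ x : Cn ℕ × Sk,
      O (Cn.map (e γ G) x.1) x.2 G) fun G hG => by
    obtain ⟨q', s, h1, h2, h3⟩ := hw _ _ _ _ _ _ _ _ _ _ _ _ hG l
    obtain ⟨x, rfl⟩ := dens_map h3.1.1 h1 h2
    exact ⟨(x, s), h3⟩).ex (fun x => (sel γ x.1 (fun w => O w x.2) fun w => nO w x.2).dec) _ u2.1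
  obtain ⟨k, hk⟩ := dens_loc (O := Od) x
  obtain ⟨r3, z, r4, r5⟩ := NO.vals (R.lv.no γ) k r0 (PO.l r1)
  have r6 : Fc b r3 (O (Cn.map z x) s) := ((r2.mono r4).and r5).imp fun G h => hk _ _ h.2 ▸ h.1
  have r7 := PO.tr (PO.tr r4 r1) u1
  obtain ⟨r, hr⟩ := ts.d1 (r3, Cn.map z x) (PO.l r4)
  have c1 : c r u := (ts.le _ _).2 (by
    rw [hr]
    exact ⟨PO.tr r4 r1, ((Fc.of_le r7).and r6).imp fun G h => .inl ⟨h.1, h.2.1⟩, u2.2⟩)
  obtain ⟨f1, f2⟩ := hf b c p Pi _ dec ts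
  have f3 := f2 r (PO.l c1)
  have c2 := ts.up hl (PO.l c1) (nO (Cn.map z x) s) (by rw [hr]; exact r6)
  rw [hr] at f3
  refine ⟨r, s, c1, ((c2.and f3).and (Fc.all fun J : s.1 => ts.pull hl ha hn R.nP nA (R.lv.no δ) hh
    (r := r) (a := J.1.1) (m := J.1.2) (by rw [hr]; exact r7)
    (by rw [hr]; exact r6.imp fun G h => h.2.2 J.1 J.2))).imp fun G ⟨⟨h1, h2⟩, h3⟩ => ?_⟩
  obtain ⟨a1, a2, a3, a4⟩ := h1.2.1
  exact ⟨⟨a1, a2, a3, fun y hy => ⟨(a4 y hy).1, (a4 y hy).2.1, fun _ => (hv _ _ _ _ _ _ _).2.1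
    (fun j k => (h2 _ k).1) (fun j i k => (h2 _ k).1) (fun j i k => (h2 _ k).2) _ _
    (a4 y hy).2.2⟩⟩, fun J hJ => h3 ⟨J, hJ⟩⟩

end Pool.Agent.MP_5baa61_gt.JB
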