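import Pool.Agent.MP_5baa61_gt.JB.Spec

/-! Part B: the generic sets fit the conditions, are infinite and almost contained in the sides. -/

namespace Pool.Agent.MP_5baa61_gt.JB

open Set Function Pool.Agent.MP_5baa61_gt.JK
open Pool.Agent.MP_b60a07_lc.H92 (Od U Rl t0 Good Ext sup exists_bd)
open Pool.Agent.MP_5baa61_gt.JA (Cell Move Sk Pat TLp)
open scoped Classical

/-- The part of the order that does not depend on the filter. -/
def FitSyn (w v : Cn Od) : Prop :=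
  w.Wf ∧ v.s ⊆ w.s ∧ ∀ x ∈ w.s, x.1 ∈ v.E → x ∉ v.s → v.n ≤ x.2

theorem fit_syn {p : U} {Pi : Set U → Cell → Prop} {A : Od → Set U → ℕ → Prop} {w v : Cn Od}
    {G : Set U} (h : LQ p Pi A w v G) : FitSyn w v := by
  rcases h with ⟨-, h1, -, -, h2, -, -, σ, h3, -⟩ | ⟨rfl, rfl⟩
  · exact ⟨h1, h2, fun x a b c => (h3 x a b c).2.2.1.trans (h3 x a b c).2.1.1⟩
  · exact ⟨⟨fun _ h => absurd h (Finset.notMem_empty _), fun _ h => absurd h (Finset.notMem_empty _)⟩,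
      Finset.Subset.refl _, fun _ h => absurd h (Finset.notMem_empty _)⟩

variable {b c : Rl} [PO b] [PO c] {p : U} {Pi : Set U → Cell → Prop}
  {A : Od → Set U → ℕ → Prop} {dec : U → U × Cn Od}

omit [PO c] in
theorem TS.fit_syn (t : TS b c p Pi A dec) {u v : U} (h : c u v) : FitSyn (dec u).2 (dec v).2 :=
  (((t.le u v).1 h).2.1.imp fun _ => JB.fit_syn).const (PO.l ((t.le u v).1 h).1)

omit [PO c] in
/-- A forced extension in the iterand gives an extension. -/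
theorem TS.fit_mk (t : TS b c p Pi A dec) {u r : U} {w : Cn Od} (h : c u u) (h1 : b r (dec u).1)
    (h2 : b r p) (h3 : Fc b r fun G => leC (Pi G) (fun z => A z G) w (dec u).2) :
    ∃ u', dec u' = (r, w) ∧ c u' u := by
  obtain ⟨u', e⟩ := t.d1 (r, w) (PO.l h1)
  refine ⟨u', e, (t.le u' u).2 ?_⟩
  rw [e]
  exact ⟨h1, ((Fc.of_le h2).and h3).imp fun _ => .inl, ((t.le u u).1 h).2.1⟩

omit [PO c] in
theorem TS.fit_fst (hl : S_le.{1}) (t : TS b c p Pi A dec) {u : U} (h : c u u) :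
    c u (dec u).1 := by
  obtain ⟨h1, h2, -⟩ := (t.le u u).1 h
  refine (t.le _ _).2 ?_
  rw [t.d0 _ h1]
  refine ⟨h1, h2.imp fun G hG => ?_, .of_all fun _ => .inr ⟨rfl, rfl⟩⟩
  exact hG.imp (fun e => ⟨e.1, ((hl _ _ _).1 _ e.2.1).2⟩) fun e => ⟨e.1, rfl⟩

omit [PO b] [PO c] in
theorem TS.fit_p (t : TS b c p Pi A dec) (hp : b p p) {u : U} (h : c u p) : b (dec u).1 p := by
  have := ((t.le u p).1 h).1
  rwa [t.d0 p hp] at this

theorem fit_nb (ξ : Od) : NB c (DD c dec ξ) :=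
  nb_pi fun k => nb_meet (D := fun u => c u u ∧ (ξ, k) ∈ (dec u).2.s) fun _ h => h.1

theorem fit (_h : S_le.{1}) : S_fit := by
  intro b c _ _ p Pi A dec t
  refine ⟨fit_nb, fun u hu => .of_flt fun G hG h1 ξ k => ⟨?_, fun h => ⟨u, h1, hu, h⟩⟩⟩
  rintro ⟨v, v1, -, v2⟩ h2 h3
  obtain ⟨r, -, r1, r2⟩ := hG.dir u h1 v v1
  by_contra hn
  exact absurd ((t.fit_syn r1).2.2 _ ((t.fit_syn r2).2.1 v2) h2 hn) (not_le.2 h3)

theorem delta : S_delta := by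
  intro b c _ _ p Pi A dec h t hh
  obtain ⟨s, hs⟩ := t.g.sz
  choose β hβ using fun a : ℕ => t.g.nice hs fun u => ∃ v, Fc c u fun G => h G a = v
  obtain ⟨γ, hγ⟩ := exists_bd β
  obtain ⟨δ, hδ⟩ := exists_bd fun i : Iic γ =>
    max w0 (max ((dec (s i)).2.E.sup id) ((dec (s i)).2.F.sup Prod.snd))
  refine ⟨δ, (max_lt_iff.1 (hδ ⟨γ, self_mem_Iic⟩)).1.le, fun a u hu => ?_⟩
  obtain ⟨q, q1, q2⟩ := (hh.ap a).nm.val u u hu
  obtain ⟨i, i1, ⟨v, i2⟩, r, r1, r2⟩ := hβ a q (PO.l q1) q2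
  obtain ⟨e1, e2⟩ := max_lt_iff.1 (max_lt_iff.1 (hδ ⟨i, i1.trans (hγ a).le⟩)).2
  exact ⟨r, s i, v, PO.tr r1 q1, r2, i2, fun ξ h => (Finset.le_sup (f := id) h).trans_lt e1,
    fun x h => (Finset.le_sup (f := Prod.snd) h).trans_lt e2⟩

/-- One new element from the first sequent. -/
theorem fit_add {P : Cell → Prop} {B : Od → ℕ → Prop} {H : Hs} {w : Cn Od} (hw : w.Wf)
    (h1 : Ps1 P H) (h2 : ∀ x : w.F, ∃ j, (H j).2.A = B x.1.2) (ξ : Od) (m : ℕ) :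
    ∃ k, m ≤ k ∧ leC P B (insert ξ w.E, insert (ξ, k) w.s, w.F, k + 1) w := by
  choose j hj using h2
  obtain ⟨q, ⟨C, hC⟩, q1, -⟩ := h1 (max (max m w.n) (Finset.univ.sup j + 1))
  obtain ⟨c1, c2, ⟨k, k1, k2⟩, c3⟩ := q1 C hC
  obtain ⟨⟨c4, c5⟩, -⟩ : (m ≤ C.1 ∧ w.n ≤ C.1) ∧ _ := by simpa only [max_le_iff] using c2
  have k3 : w.n ≤ k := c5.trans k2.1
  have e : ∀ x ∈ insert (ξ, k) w.s, x ∉ w.s → x = (ξ, k) := fun x a b =>
    (Finset.mem_insert.1 a).resolve_right b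
  refine ⟨k, c4.trans k2.1, ⟨fun x hx => ?_, fun x hx => Finset.mem_insert_of_mem (hw.2 x hx)⟩, hw,
    Finset.subset_insert _ _, Finset.subset_insert _ _, Finset.Subset.refl _,
    k3.trans (Nat.le_succ k), fun _ => C, fun x a _ d => ?_,
    fun x a x' a' _ d _ d' _ => (e x a d).trans (e x' a' d').symm⟩
  · rcases Finset.mem_insert.1 hx with rfl | hx
    · exact ⟨Finset.mem_insert_self _ _, Nat.lt_succ_self k⟩
    · exact ⟨Finset.mem_insert_of_mem (hw.1 x hx).1, (hw.1 x hx).2.trans_le (k3.trans k.le_succ)⟩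
  · obtain rfl := e x a d
    refine ⟨c1, k2, c5, fun z hz => ?_⟩
    have := c3 k k1 k2 (j ⟨_, hz⟩) (lt_max_of_lt_right
      (Nat.lt_succ_of_le (Finset.le_sup (Finset.mem_univ _))))
    rwa [hj] at this

theorem g01 (h : S_le.{1}) (hn : S_nbl.{1}) : S_g01 := by
  intro b c _ _ p e Pi T a X V Z dec R t
  have nA : ∀ z, NB b fun G => (Z z G).A := fun z => (R.nZ z).comp measurable_fst
  refine ⟨fun ξ => .all fun m => (Fc.meet (D := fun r => ∃ k, m ≤ k ∧ c r r ∧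
    (ξ, k) ∈ (dec r).2.s) fun u hu => ?_).imp fun G ⟨r, r1, k, k1, k2⟩ => ⟨k, k1, r, r1, k2⟩,
    fun ξ g => .glue fun u hu => ?_⟩
  · have u1 := t.fit_p R.m hu
    obtain ⟨g, hg⟩ := exists_bd fun _ : Unit => max w0 ((dec u).2.F.sup Prod.snd)
    obtain ⟨g1, g2⟩ := max_lt_iff.1 (hg ())
    have f1 : Fc b (dec u).1 fun G => ∀ x : (dec u).2.F, ∃ j, e g G j = x.1.2 :=
      .all fun x => (R.lv.sur g _ (lt_max_of_lt_left
        ((Finset.le_sup (f := Prod.snd) x.2).trans_lt g2))).mono (R.g.top (PO.l u1))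
    have f2 := (((R.ps1 g g1.le).mono u1).and f1).imp fun G hG =>
      fit_add (B := fun z => (Z z G).A) (t.fit_syn hu).1 hG.1
        (fun x => (hG.2 x).imp fun j hj => by rw [← hj]; rfl) ξ m
    obtain ⟨r, r1, k, r2⟩ := f2.ex (fun k => (dec_const _).and (hn _ b Pi _ R.nP nA _ _).dec)
      _ (PO.l u1)
    obtain ⟨u', e1, e2⟩ := t.fit_mk (PO.l hu) r1 (PO.tr r1 u1) (r2.imp fun _ h => h.2)
    exact ⟨u', e2, k, (r2.imp fun _ h => h.1).const (PO.l r1), PO.l e2, by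
      rw [e1]; exact Finset.mem_insert_self _ _⟩
  · have u1 := t.fit_p R.m hu
    have hw := (t.fit_syn hu).1
    obtain ⟨u', e1, e2⟩ := t.fit_mk (PO.l hu) (PO.l u1) u1 (.of_all fun G =>
      (h _ _ _).2.2.2 (dec u).2 {ξ} {(ξ, g)} _ hw (by simp) le_rfl)
    refine ⟨u', e2, Fc.imp (S := fun G => ∀ k, (dec u).2.n ≤ k → DD c dec ξ G k → (Z g G).A k)
      (.all fun k => .all fun hk => .glue fun r hr => ?_) fun _ h => ⟨_, h⟩⟩
    by_cases hc : ∃ s v, c s r ∧ c s v ∧ (ξ, k) ∈ (dec v).2.s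
    · obtain ⟨s, v, s1, s2, s3⟩ := hc
      have s4 := (t.le _ _).1 (PO.tr s1 hr)
      rw [e1] at s4
      have s5 : Fc b (dec s).1 fun G => (Z g G).A k := s4.2.1.imp fun G hG => by
        rcases hG with ⟨-, -, -, -, -, -, -, σ, h3, -⟩ | ⟨-, h3⟩
        · exact (h3 _ ((t.fit_syn s2).2.1 s3) (by simp [Cn.E])
            fun a => absurd (hw.1 _ a).2 (not_lt.2 hk)).2.2.2 g (by simp [Cn.F])
        · have := congrArg (fun w : Cn Od => ξ ∈ w.E) h3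
          simp [Cn.top, Cn.E] at this
      exact ⟨s, s1, ((s5.up ((nA g).ap k) t.ext (PO.l s4.1)).mono
        (t.fit_fst h (PO.l s1))).imp fun _ h _ => h⟩
    · exact ⟨r, PO.l hr, .of_flt fun G hG r1 ⟨v, v1, _, v2⟩ =>
        let ⟨s, _, s1, s2⟩ := hG.dir r r1 v v1; (hc ⟨s, v, s1, s2, v2⟩).elim⟩

end Pool.Agent.MP_5baa61_gt.JB
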