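import Mathlib.Data.Finsupp.Encodable
import Pool.Agent.MP_5baa61_gt.JB.Spec

/-! Part B: the next stage and what it forces at all later stages. -/

namespace Pool.Agent.MP_5baa61_gt.JB

open Set Function Pool.Agent.MP_5baa61_gt.JK
open Pool.Agent.MP_b60a07_lc.H92 (Od U Rl t0 Good Ext sup surj_prod)
open Pool.Agent.MP_5baa61_gt.JA (Cell Move Sk Pat TLp)
open scoped Classical

theorem m_Vn {Y : Type*} [MeasurableSpace Y] {N1 : Y → ℕ → ℕ → Prop} {N2 P2 : Y → ℕ → ℕ → ℕ → Prop}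
    {z : Y → Zt} (h1 : Measurable N1) (h2 : Measurable N2) (h3 : Measurable P2)
    (h4 : Measurable z) (l : ℕ) (c : Finset Cell) :
    Measurable fun y => Vn (N1 y) (N2 y) (P2 y) (z y) l c := by
  unfold Vn G2w Zt.Y Zt.K Zt.Lu
  fun_prop

theorem SkV.mono {V V' : Vf} {l l' : ℕ} {s : Sk} (h : SkV V l s) (e : l' ≤ l)
    (hV : ∀ c, V l c → V' l' c) : SkV V' l' s :=
  ⟨h.1, h.2.1.both e e, fun J hJ => e.trans (h.2.2.1 J hJ),
    fun c hc => ⟨(h.2.2.2 c hc).1, hV c (h.2.2.2 c hc).2⟩⟩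

theorem nb_Nw {c : Rl} [PO c] {p : U} {e : Od → Set U → ℕ → Od} {D : Od → Set U → ℕ → Prop}
    {Z : Od → Set U → Zt} (hp : c p p) (he : ∀ g j, NO c fun G => e g G j) (hD : ∀ ξ, NB c (D ξ))
    (hZ : ∀ z, NB c (Z z)) (g : Od) : NB c (Nw p e D Z g) := by
  have h2 : NB c fun G j i => D (e (e g G j) G i) G := nb_pi fun j => nb_pi fun i =>
    ((he g j).comp fun z => he z i).sel hD
  exact nb_pi fun l => nb_pi fun x => (nb_mem hp).imp
    (m_Vn (Y := Lc c) (nb_pi fun j => (he g j).sel hD) h2 h2 (hZ g) l x)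

theorem gen (hk : S_keep) (hle : S_le.{1}) (hvn : S_vn) (hloc : S_loc) (hts : S_ts) (hfit : S_fit)
    (h01 : S_g01) (hd : S_dens) : S_gen hk := by
  intro b0 g0 s p e Pi T a X f Z hf R
  obtain ⟨c, dec, ts⟩ := hts s.b p Pi (fun z G => (Z z G).A) s.g
  have := po ts.g
  have hp := ts.ext.le R.m
  have he : ∀ g j, NO c fun G => e g G j := fun g j => (R.lv.no g j).ext ts.ext
  have nD := (hfit _ _ _ _ _ _ ts).1
  let W := Nw p e (DD c dec) Z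
  let cap : Fa → Fa := fun π g G l x => π g G l x ∧ W g G l x
  have nW : ∀ g, NB c (W g) := nb_Nw hp he nD fun z => (R.nZ z).ext ts.ext
  have fW : ∀ g G, Fm (W g G) := fun g G =>
    ⟨fun l l' x h1 h2 h3 => (hvn _ (fun _ _ => True) _ _ (fun _ _ _ => True) (fun _ _ _ => True)
      _).1.1 l l' x h1 (h2 h3), fun l x x' h1 h2 h3 => (hvn _ (fun _ _ => True) _ _
        (fun _ _ _ => True) (fun _ _ _ => True) _).1.2 l x x' h1 (h2 h3)⟩
  have kc : ∀ π ∈ s.pr, Keep c (cap π) := fun π hπ _ => by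
    have k0 : Keep s.b π := s.k π hπ
    obtain ⟨k1, k2, -⟩ := @k0 _
    refine ⟨fun g => nb_pi fun l => nb_pi fun x =>
        ((((k1 g).ext ts.ext).ap l).ap x).and (((nW g).ap l).ap x),
      fun g G => ⟨fun l l' x h1 h2 => ⟨(k2 g G).1 l l' x h1 h2.1, (fW g G).1 l l' x h1 h2.2⟩,
        fun l x x' h1 h2 => ⟨(k2 g G).2 l x x' h1 h2.1, (fW g G).2 l x x' h1 h2.2⟩⟩,
      fun h hh => ?_⟩
    obtain ⟨z, rfl⟩ := hf π hπ
    refine ((hd _ _ _ _ _ _ _ _ _ _ _ h R ts hh).and ((hloc _ _ _ h s.g ts.g ts.ext k0 hh).and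
      (club_gt z))).mono fun g ⟨g1, g2, g3⟩ => Fc.all fun l => .glue fun u hu => ?_
    by_cases hc : ∃ v, c v u ∧ c v p
    · obtain ⟨v, v1, v2⟩ := hc
      have d : ∀ j, NB s.b fun G => e g G j = z := fun j => (R.lv.no g j).rel (· = z)
      obtain ⟨w, w1, j, w2⟩ := Fc.ex (((R.lv.sur g z (lt_max_of_lt_left g3)).up (.ex d) ts.ext
        s.g.top0).mono (PO.tr v1 hu)) (fun j => ((d j).ext ts.ext).dec) v (PO.l v1)
      obtain ⟨r, σ, r1, r2⟩ := g1 (max l (j + 1)) w (PO.tr w1 v2)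
      exact ⟨r, PO.tr r1 (PO.tr w1 v1), (r2.and (w2.mono r1)).imp fun G h =>
        ⟨σ, h.1.1.mono (le_max_left _ _) fun x hx =>
          ⟨(k2 g G).1 _ _ x (le_max_left _ _) (h.2 ▸ hx.1 j (lt_max_of_lt_right j.lt_succ_self)),
            (fW g G).1 _ _ x (le_max_left _ _) hx.2⟩, h.1.2⟩⟩
    · obtain ⟨u1, u2, -⟩ := (ts.le u u).1 (PO.l hu)
      have h1 : Fc s.b (dec u).1 fun G => p ∉ G := .of_flt fun G hG h1 h2 => by
        obtain ⟨r, -, r1, r2⟩ := hG.dir _ h1 _ h2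
        obtain ⟨v, hv⟩ := ts.d1 (r, (dec u).2) (PO.l r1)
        refine hc ⟨v, (ts.le _ _).2 ?_, (ts.le _ _).2 ?_⟩
        · rw [hv]; exact ⟨r1, u2.mono r1, u2⟩
        · rw [hv, ts.d0 p R.m]
          exact ⟨r2, (u2.mono r1).imp fun G h => h.imp (fun h => ⟨h.1, ((hle _ _ _).1 _ h.2.1).2⟩)
            fun h => ⟨h.1, rfl⟩, .of_all fun _ => .inr ⟨rfl, rfl⟩⟩
      have h2 : dec (dec u).1 = dec u := (ts.d0 _ u1).trans (Prod.ext rfl
        (Fc.const u1 ((h1.and u2).imp fun G h => (h.2.resolve_left fun e => h.1 e.1).1.symm)))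
      obtain ⟨r, σ, r1, r2⟩ := g2 l _ u1
      have r3 : c r u := (ts.le _ _).2 (h2 ▸ (ts.le _ _).1 r1)
      exact ⟨r, r3, r2.imp' fun G hG h3 h => ⟨σ, h.1.mono le_rfl fun x hx => ⟨hx, fun h4 =>
        let ⟨v, _, v1, v2⟩ := hG.dir _ h3 _ h4; (hc ⟨v, PO.tr v1 r3, v2⟩).elim⟩, h.2⟩⟩
  have k0 : ∀ π ∈ s.pr, Keep c π := fun π hπ _ => by
    have k0 : Keep s.b π := s.k π hπ
    obtain ⟨k1, k2, -⟩ := @k0 _
    exact ⟨fun g => (k1 g).ext ts.ext, k2, fun h hh => ((@kc π hπ _).2.2 h hh).mono fun g hg =>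
      hg.imp fun G h l => let ⟨σ, h1, h2⟩ := h l; ⟨σ, h1.mono le_rfl fun _ h => h.1, h2⟩⟩
  have below : ∀ π ∈ s.pr ∪ cap '' s.pr, ∃ ρ ∈ s.pr, ∀ g G l x, cap ρ g G l x → π g G l x := by
    rintro π (h | ⟨ρ, h, rfl⟩)
    exacts [⟨π, h, fun _ _ _ _ h => h.1⟩, ⟨ρ, h, fun _ _ _ _ h => h⟩]
  let s' : St (kindP hk b0 g0) := ⟨c, s.pr ∪ cap '' s.pr, ts.g, by
      obtain ⟨k, hk⟩ := surj_prod
      obtain ⟨u, hu⟩ := s.sz
      refine ⟨fun i => if (k i).1 = 0 then u (k i).2 else (u (k i).2).map cap, ?_⟩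
      rintro π (h | ⟨ρ, h, rfl⟩)
      · obtain ⟨i, hi⟩ := hu π h
        obtain ⟨j, hj⟩ := hk (0, i)
        exact ⟨j, by simp only [hj, hi, if_true]⟩
      · obtain ⟨i, hi⟩ := hu ρ h
        obtain ⟨j, hj⟩ := hk (1, i)
        exact ⟨j, by simp only [hj, hi, one_ne_zero, if_false]; rfl⟩, by
      rintro π (h | ⟨ρ, h, rfl⟩)
      exacts [k0 π h, kc ρ h], s.e0.trans ts.ext ts.g.tr, .inl s.tp, fun π h π' h' => by
      obtain ⟨ρ, h1, h2⟩ := below π h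
      obtain ⟨ρ', h3, h4⟩ := below π' h'
      obtain ⟨τ, h5, h6, h7⟩ := s.dir ρ h1 ρ' h3
      exact ⟨cap τ, .inr ⟨τ, h5, rfl⟩, fun g G l x h => h2 g G l x ⟨h6 g G l x h.1, h.2⟩,
        fun g G l x h => h4 g G l x ⟨h7 g G l x h.1, h.2⟩⟩⟩
  obtain ⟨a1, a2⟩ := h01 _ _ _ _ _ _ _ _ _ _ _ R ts
  refine ⟨s', DD c dec, ⟨ts.ext, subset_union_left⟩, nD, fun s'' h'' => ⟨fun ξ => (a1 ξ).up
    (.all fun m => .ex fun k => (nb_const _).and ((nD ξ).ap k)) h''.1 hp, fun ξ g => (a2 ξ g).up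
      (.ex fun m => .all fun k => (nb_const _).imp (((nD ξ).ap k).imp
        ((((R.nZ g).ext ts.ext).comp measurable_fst).ap k))) h''.1 hp, fun h hh => ?_⟩⟩
  have k1 : Keep s''.b (cap fun _ _ _ _ => True) := s''.k _ (h''.2 (.inr ⟨_, s.tp, rfl⟩))
  refine ((@k1 _).2.2 (fun G n => ∑ i ∈ Finset.range (n + 1), h G i) (nb_pi fun n =>
    Finset.measurable_sum (α := Lc s''.b) _ fun i _ => hh.ap i)).mono fun g hg =>
      ((hg.mono (s''.g.top (h''.1.le hp))).and Fc.self).imp fun G h1 =>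
        (hvn _ (fun _ _ => True) _ (fun _ _ _ => True) (fun _ _ _ => True) (fun _ _ _ => True)
          _).2.2 _ _ (fun i n hi => Finset.single_le_sum (f := h G) (fun _ _ => Nat.zero_le _)
            (Finset.mem_range.2 (Nat.lt_succ_of_le hi))) fun l => ?_
  obtain ⟨σ, h2, h3⟩ := h1.1 l
  exact ⟨σ, h2.mono le_rfl fun x hx => hx.2 h1.2, h3⟩

end Pool.Agent.MP_5baa61_gt.JB
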