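import Mathlib.Data.Finsupp.Encodable
import Pool.Agent.MP_5baa61_gt.JB.Spec
import Pool.Agent.MP_5baa61_gt.JF.All

/-! The promise holds at the start and passes to limits. -/

namespace Pool.Agent.MP_5baa61_gt.JB

open Set Function Pool.Agent.MP_5baa61_gt.JK
open Pool.Agent.MP_b60a07_lc.H92 (Od U Rl t0 Good Ext sup)
open Pool.Agent.MP_5baa61_gt.JA (Cell Move Sk Pat TLp)
open scoped Classical

namespace KeepL

theorem nb_sk {b : Rl} [PO b] {V : Set U → Vf} {h : Set U → ℕ → ℕ} (hV : NB b V) (hh : NB b h)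
    (l : ℕ) (s : Sk) : NB b fun G => SkV (V G) l s ∧ ∀ J ∈ s.1, h G J.1 < J.2 :=
  ((nb_const _).and ((nb_const _).and ((nb_const _).and (NB.all fun c => (nb_const _).imp
    ((nb_const _).and ((hV.ap l).ap c)))))).and (NB.all fun J => (nb_const _).imp
      ((hh.ap J.1).comp (φ := fun x => x < J.2) (measurable_of_countable _)))

theorem nb_lng {b : Rl} [PO b] {V : Set U → Vf} {h : Set U → ℕ → ℕ} (hV : NB b V) (hh : NB b h) :
    NB b fun G => Lng (h G) (V G) := NB.all fun l => NB.ex fun s => nb_sk hV hh l s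

/-- A tree without terminal nodes has a branch. -/
theorem branch {x : ℕ × (ℕ →₀ ℕ) → Prop} (h0 : x (0, 0))
    (h1 : ∀ z, x z → ∃ m, x (z.1 + 1, z.2.update z.1 m)) :
    ∃ y : ℕ → ℕ, ∀ n, ∃ u, x (n, u) ∧ ∀ i, i < n → y i = u i := by
  choose! M hM using h1
  let w : ℕ → (ℕ →₀ ℕ) := fun n => Nat.rec 0 (fun n u => u.update n (M (n, u))) n
  have hw : ∀ n, w (n + 1) = (w n).update n (M (n, w n)) := fun _ => rfl
  have h2 : ∀ n, x (n, w n) := fun n => by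
    induction n with
    | zero => exact h0
    | succ n ih => exact hM _ ih
  refine ⟨fun i => w (i + 1) i, fun n => ⟨w n, h2 n, ?_⟩⟩
  induction n with
  | zero => exact fun _ h => absurd h (Nat.not_lt_zero _)
  | succ n ih =>
    intro i hi
    rcases (Nat.lt_succ_iff.1 hi).eq_or_lt with rfl | hi
    · rfl
    · rw [hw n, Finsupp.coe_update, update_of_ne hi.ne]
      exact ih i hi

/-- `π` is a reduction of a condition that decides an initial part of `h`. -/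
def Rd (a b : Rl) (h : Set U → ℕ → ℕ) (z : ℕ × (ℕ →₀ ℕ)) (π : U) : Prop :=
  a π π ∧ ∃ r, (∀ q, a q π → ∃ s, b s q ∧ b s r) ∧ Fc b r fun G => ∀ i, i < z.1 → h G i = z.2 i

theorem name {a b : Rl} [PO a] [PO b] {h : Set U → ℕ → ℕ} (ga : Good a) (gb : Good b)
    (e : Ext a b) (hh : NB b h) : ∃ h' : Set U → ℕ → ℕ, NB a h' ∧ Fc a t0 fun G =>
      ∀ n, ∃ u, (∃ π ∈ G, Rd a b h (n, u) π) ∧ ∀ i, i < n → h' G i = u i := by
  refine nb_unif (X := ℕ × (ℕ →₀ ℕ) → Prop) (Y := ℕ → ℕ)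
    (C := fun x y => ∀ n, ∃ u, x (n, u) ∧ ∀ i, i < n → y i = u i)
    (f := fun G z => ∃ π ∈ G, Rd a b h z π)
    (Measurable.forall fun n => Measurable.exists fun u =>
      ((measurable_pi_apply (n, u)).comp measurable_fst).and (Measurable.forall fun i =>
        measurable_const.imp (((measurable_pi_apply i).comp measurable_snd).eq_const _)))
    (nb_pi fun z => nb_meet fun _ h => h.1) ?_
  refine ((Fc.self (b := a) (q := t0)).and (Fc.all (S := fun z G => (∃ π ∈ G, Rd a b h z π) →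
    ∃ m, ∃ π ∈ G, Rd a b h (z.1 + 1, z.2.update z.1 m) π) fun z => .glue fun q hq => ?_)).imp
    fun G hG => branch ⟨t0, hG.1, ga.top0, t0, fun q hq => ⟨q, e.le (PO.l hq), e.le hq⟩,
      .of_all fun _ _ h => absurd h (Nat.not_lt_zero _)⟩ hG.2
  by_cases hc : ∃ t π, a t q ∧ a t π ∧ Rd a b h z π
  · obtain ⟨t, π, h1, h2, -, r, h3, h4⟩ := hc
    obtain ⟨s, s1, s2⟩ := h3 t h2
    obtain ⟨s', s3, m, s4⟩ := (hh.ap z.1).nm.val t0 s (gb.top (PO.l s1))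
    obtain ⟨π', p1, -, p3, p4⟩ := e.red s' (PO.l s3)
    refine ⟨π', PO.tr (p3 t (PO.l h1) (PO.tr s3 s1)) h1, Fc.self.imp fun G hG _ =>
      ⟨m, π', hG, p1, s', p4, ((h4.mono (PO.tr s3 s2)).and s4).imp fun G h i hi => ?_⟩⟩
    rw [Finsupp.coe_update]
    rcases (Nat.lt_succ_iff.1 hi).eq_or_lt with rfl | hi
    · rw [update_self, h.2]
    · rw [update_of_ne hi.ne, h.1 i hi]
  · exact ⟨q, PO.l hq, .of_flt fun G hG h1 ⟨π, h2, h3⟩ =>
      let ⟨t, _, h4, h5⟩ := hG.dir _ h1 _ h2; (hc ⟨t, π, h4, h5, h3⟩).elim⟩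

end KeepL

open KeepL in
theorem loc : S_loc := by
  intro a b _ _ V h ga gb e hk hh
  obtain ⟨h', n1, n2⟩ := name ga gb e hh
  refine (hk.2.2 h' n1).mono fun g hg l p hp => ?_
  obtain ⟨p1, a1, s, a2⟩ := (hg.imp fun G hG => hG l).ex
    (fun s => (nb_sk (hk.1 g) n1 l s).dec) p (ga.top hp)
  obtain ⟨G, g1, g2, ⟨g3, g4⟩, u, ⟨π, g5, -, r, g6, g7⟩, g8⟩ :=
    (((truth (q := p1) (nb_sk (hk.1 g) (nb_const fun _ => 0) l s).dec).and a2).and
      ((n2.mono (ga.top (PO.l a1))).imp fun G hG => hG (s.1.sup Prod.fst + 1))).exists (PO.l a1)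
  obtain ⟨p2, b1, b2, b3⟩ := g3 ⟨g4.1, fun J hJ => (Nat.zero_le _).trans_lt (g4.2 J hJ)⟩
  obtain ⟨q, -, q1, q2⟩ := g1.dir _ b1 _ g5
  obtain ⟨s', s1, s2⟩ := g6 q q2
  refine ⟨s', s, PO.tr s1 (e.le (PO.tr q1 (PO.tr b2 a1))),
    (((b3.up (nb_sk (hk.1 g) (nb_const fun _ => 0) l s) e (PO.l b2)).mono
      (PO.tr s1 (e.le q1))).and (g7.mono s2)).imp fun G' hG => ⟨hG.1.1, fun J hJ => ?_⟩⟩
  have h1 : J.1 < s.1.sup Prod.fst + 1 := Nat.lt_succ_of_le (Finset.le_sup (f := Prod.fst) hJ)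
  rw [hG.2 _ h1, ← g8 _ h1]
  exact g4.2 J hJ

open KeepL in
theorem keep (hl : S_loc) : S_keep := by
  refine ⟨fun b _ _ => ⟨fun _ => nb_const _, fun _ _ => ⟨fun _ _ _ _ _ => trivial,
    fun _ _ _ _ _ => trivial⟩, fun h _ => club_of_all fun g => .of_all fun G l => ?_⟩,
    fun d π ξ hg gs he hd hξ ⟨i, hi⟩ _ => ?_, fun d π hg gs he hm hk _ => ?_⟩
  · obtain ⟨s, h1, h2, h3, h4⟩ := JF.all_t1 (h G) l
    exact ⟨s, ⟨h1, h2, fun J hJ => (h3 J hJ).1, fun c hc => ⟨h4 c hc, trivial⟩⟩,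
      fun J hJ => (h3 J hJ).2⟩
  · have := po (hg i)
    refine ⟨fun g => (hi.1 g).ext (he i), hi.2.1, fun h hh => ?_⟩
    choose k h1 _ h2 using fun j => hd j j
    refine (Club.all fun j : Iic ξ => @hl _ _ (po (hg (k j))) _ π h (hg _) gs (he _) (h2 j) hh).mono
      fun g hg' => .all fun l => .glue fun r hr => ?_
    obtain ⟨i', h3⟩ := PO.l hr
    obtain ⟨j, h4, h5⟩ := hξ i'
    obtain ⟨r', s, h6, h7⟩ := hg' ⟨j, h4⟩ l r ((h1 j).le (h5 ▸ h3))
    exact ⟨r', h6, h7.imp fun _ h => ⟨s, h⟩⟩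
  · have := po (hg 0)
    refine ⟨fun g => ((hk 0).1 g).ext (he 0), (hk 0).2.1, fun h hh => ?_⟩
    obtain ⟨k, h', h1, h2⟩ := long_stage gs hm hh
    have := po (hg k)
    have h3 := h1 k le_rfl
    exact ((hk k).2.2 h' h3).mono fun g hg' =>
      ((hg'.up (nb_lng ((hk k).1 g) h3) (he k) (hg k).top0).and h2).imp fun G h => h.2 ▸ h.1

end Pool.Agent.MP_5baa61_gt.JB
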