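import Pool.Agent.MP_5baa61_gt.JB.Pl
import Mathlib.Data.Finset.Preimage
import Mathlib.Data.Finset.Lattice.Fold

/-! Part B, plain layer: legal moves and bounds for witnesses. -/

namespace Pool.Agent.MP_5baa61_gt.JB

open Set Function
open Pool.Agent.MP_5baa61_gt.JA (Cell Move Legal inC)
open scoped Classical

universe u

namespace Kill

variable {O : Type u} {ed : ℕ → O}

/-- A condition read through an injection. -/
theorem pull (h : Injective ed) (q : Cn O) : ∃ c : Cn ℕ, (∀ i, i ∈ c.E ↔ ed i ∈ q.E) ∧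
    (∀ x, x ∈ c.s ↔ (ed x.1, x.2) ∈ q.s) ∧ (∀ x, x ∈ c.F ↔ (ed x.1, ed x.2) ∈ q.F) ∧ c.n = q.n :=
  ⟨(q.E.preimage ed h.injOn, q.s.preimage (Prod.map ed id) (h.prodMap injective_id).injOn,
    q.F.preimage (Prod.map ed ed) (h.prodMap h).injOn, q.n),
    fun _ => Finset.mem_preimage (hf := h.injOn),
    fun _ => Finset.mem_preimage (hf := (h.prodMap injective_id).injOn),
    fun _ => Finset.mem_preimage (hf := (h.prodMap h).injOn), rfl⟩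

theorem mE (h : Injective ed) {c : Cn ℕ} {i : ℕ} : ed i ∈ (Cn.map ed c).E ↔ i ∈ c.E :=
  h.mem_finset_image

theorem ms (h : Injective ed) {c : Cn ℕ} {x : ℕ × ℕ} : (ed x.1, x.2) ∈ (Cn.map ed c).s ↔ x ∈ c.s :=
  (h.prodMap injective_id).mem_finset_image (a := x)

end Kill

open Kill in
theorem kill_ok : S_kill.{u} := by
  intro O Pi A ed d dc a v s z q m hi _ hE hF h1 h2 mE' mF hc
  obtain ⟨c, c1, c2, c3, c4⟩ := pull hi q
  obtain ⟨qw, bw, b1, b2, b3, b4, σ, s1, s2⟩ := h1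
  obtain ⟨-, mw, m1, m2, m3, m4, τ, t1, t2⟩ := h2
  have cw : c.Wf := ⟨fun x hx => ⟨(c1 _).2 (qw.1 _ ((c2 x).1 hx)).1,
    c4 ▸ (qw.1 _ ((c2 x).1 hx)).2⟩, fun x hx => (c1 _).2 (qw.2 _ ((c3 x).1 hx))⟩
  have k1 : (Cn.map ed c).s ⊆ q.s := fun x hx => by
    obtain ⟨y, y1, rfl⟩ := Finset.mem_image.1 hx
    exact (c2 y).1 y1
  have k2 : ∀ ξ ∈ m.E, ∃ i, ed i = ξ := fun ξ h => hE ξ (m1 h) (mE' ξ h)
  have hd : dc c a v := hc c ⟨⟨fun x hx => by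
      obtain ⟨y, y1, rfl⟩ := Finset.mem_image.1 hx
      exact ⟨Finset.mem_image_of_mem _ (cw.1 y y1).1, (cw.1 y y1).2⟩, fun x hx => by
      obtain ⟨y, y1, rfl⟩ := Finset.mem_image.1 hx
      exact Finset.mem_image_of_mem _ (cw.2 y y1)⟩, mw, fun ξ h => by
      obtain ⟨i, rfl⟩ := k2 ξ h
      exact (mE hi).2 ((c1 i).2 (m1 h)), fun ⟨ξ, k⟩ h => by
      obtain ⟨i, rfl⟩ : ∃ i, ed i = ξ := k2 ξ (mw.1 _ h).1
      exact (ms hi (x := (i, k))).2 ((c2 _).2 (m2 h)), fun ⟨ξ, η⟩ h => by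
      obtain ⟨i, rfl⟩ : ∃ i, ed i = ξ := k2 ξ (mw.2 _ h)
      obtain ⟨j, rfl⟩ : ∃ j, ed j = η := hF _ (m3 h) (mF _ h)
      exact Finset.mem_image.2 ⟨(i, j), (c3 _).2 (m3 h), rfl⟩, m4.trans c4.ge, τ,
    fun x hx => t1 x (k1 hx), fun x hx x' hx' => t2 x (k1 hx) x' (k1 hx')⟩
  have n1 : ∀ x ∈ c.s, x.1 ∈ (base a s).E → x ∉ (base a s).s →
      Pi (σ (ed x.1, x.2)) ∧ inC (σ (ed x.1, x.2)) x.2 ∧ a ≤ (σ (ed x.1, x.2)).1 ∧ A z x.2 :=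
    fun x hx e1 e2 =>
      let ⟨p1, p2, p3, p4⟩ := s1 _ ((c2 x).1 hx) ((mE hi).2 e1) fun e => e2 ((ms hi).1 e)
      ⟨p1, p2, p3, p4 z (Finset.mem_image.2 ⟨x.1, e1, rfl⟩)⟩
  have n2 : ∀ x ∈ c.s, ∀ x' ∈ c.s, x.1 ∈ (base a s).E → x ∉ (base a s).s → x'.1 ∈ (base a s).E →
      x' ∉ (base a s).s → σ (ed x.1, x.2) = σ (ed x'.1, x'.2) → x = x' :=
    fun x hx x' hx' e1 e2 e3 e4 e => (hi.prodMap injective_id) (s2 _ ((c2 x).1 hx) _ ((c2 x').1 hx')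
      ((mE hi).2 e1) (fun e => e2 ((ms hi).1 e)) ((mE hi).2 e3) (fun e => e4 ((ms hi).1 e)) e)
  obtain ⟨t, ht⟩ : ∃ t : Move, ∀ x : ℕ × ℕ, x ∈ t ↔ x.swap ∈ c.s ∧ x.2 < a ∧ x ∉ s :=
    ⟨(c.s.image Prod.swap).filter fun x => x.2 < a ∧ x ∉ s, fun x => by
      rw [Finset.mem_filter, ← Prod.swap_injective.mem_finset_image (a := x.swap) (s := c.s)]
      rfl⟩
  have n3 : ∀ x ∈ t, x.swap ∈ c.s ∧ x.swap.1 ∈ (base a s).E ∧ x.swap ∉ (base a s).s := fun x hx =>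
    let ⟨e1, e2, e3⟩ := (ht x).1 hx
    ⟨e1, Finset.mem_range.2 e2, fun e => e3 (Prod.swap_injective.mem_finset_image.1 e)⟩
  refine ⟨t, ⟨c, v, ⟨cw, ⟨fun x hx => ?_, fun x hx => absurd hx (Finset.notMem_empty _)⟩,
    fun i h => (c1 i).2 (b1 ((mE hi).2 h)), fun x h => (c2 x).2 (b2 ((ms hi).2 h)),
    Finset.empty_subset _, b4.trans c4.ge, fun x => σ (ed x.1, x.2), fun x hx e1 e2 =>
      let ⟨p1, p2, p3, _⟩ := n1 x hx e1 e2; ⟨p1, p2, p3, fun _ _ => trivial⟩, n2⟩, hd, ht⟩,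
    Finsupp.onFinset t (fun x => if x ∈ t then σ (ed x.2, x.1) else 0)
      fun x hx => by_contra fun e => hx (if_neg e), fun x hx => ?_, fun x hx x' hx' e => ?_⟩
  · have := bw.1 _ ((ms hi).2 hx)
    exact ⟨(mE hi).1 this.1, this.2⟩
  · obtain ⟨e1, e2, e3⟩ := n3 x hx
    obtain ⟨p1, p2, -, p4⟩ := n1 _ e1 e2 e3
    rw [Finsupp.onFinset_apply, if_pos hx]
    exact ⟨p1, p2, ((ht x).1 hx).2.1, p4⟩
  · obtain ⟨e1, e2, e3⟩ := n3 x hx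
    obtain ⟨e4, e5, e6⟩ := n3 x' hx'
    rw [Finsupp.onFinset_apply, Finsupp.onFinset_apply, if_pos hx, if_pos hx'] at e
    exact Prod.swap_injective (n2 _ e1 _ e4 e2 e3 e5 e6 e)

theorem tk_ok : S_tk := by
  intro Pi dc b
  have key : ∀ y : ℕ × Move × Move, ∃ m0, ∀ m, m0 ≤ m → XS Pi dc y.1 y.2.1 y.2.2 →
      ∃ c v, Wit Pi dc y.1 y.2.1 y.2.2 c v ∧ Sz c m ∧ v ≤ m := fun y => by
    by_cases h : XS Pi dc y.1 y.2.1 y.2.2
    · obtain ⟨c, v, hw⟩ := h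
      refine ⟨c.E.sup id + c.F.sup Prod.snd + c.n + v, fun m hm _ => ⟨c, v, hw, ⟨fun i hi => ?_,
        fun x hx => ?_, by omega⟩, by omega⟩⟩
      · have : i ≤ c.E.sup id := Finset.le_sup (f := id) hi
        omega
      · have : x.2 ≤ c.F.sup Prod.snd := Finset.le_sup (f := Prod.snd) hx
        omega
    · exact ⟨0, fun _ _ h' => absurd h' h⟩
  choose f hf using key
  let R := (Finset.range b ×ˢ Finset.range b).powerset
  refine ⟨(Finset.range (b + 1) ×ˢ R ×ˢ R).sup f, fun m hm a s t h1 h2 h3 h4 =>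
    hf (a, s, t) m (le_trans (Finset.le_sup ?_) hm) h3⟩
  obtain ⟨c, v, -, -, h5⟩ := h3
  refine Finset.mem_product.2 ⟨Finset.mem_range.2 (Nat.lt_succ_of_le h1), Finset.mem_product.2
    ⟨Finset.mem_powerset.2 fun x hx => ?_, Finset.mem_powerset.2 fun x hx => ?_⟩⟩
  · exact Finset.mem_product.2 ⟨Finset.mem_range.2 ((h2 x hx).1.trans_le h1),
      Finset.mem_range.2 ((h2 x hx).2.trans_le h1)⟩
  · exact Finset.mem_product.2 ⟨Finset.mem_range.2 (h4 x hx),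
      Finset.mem_range.2 (((h5 x).1 hx).2.1.trans_le h1)⟩

end Pool.Agent.MP_5baa61_gt.JB
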