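import Pool.Agent.MP_5baa61_gt.JB.Pl

/-! The order of finite conditions and the new family. -/

namespace Pool.Agent.MP_5baa61_gt.JB

open Set Function
open Pool.Agent.MP_5baa61_gt.JA (Cell Move Sk Pat inC Disj SkWf Un TLp Legal)
open scoped Classical

universe u

namespace Le

variable {O : Type u} {Pi : Cell → Prop} {A : O → ℕ → Prop}

/-- An extension without new pairs on the old support. -/
theorem triv {q' q : Cn O} (h1 : q'.Wf) (h2 : q.Wf) (h3 : q.E ⊆ q'.E) (h4 : q.s ⊆ q'.s)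
    (h5 : q.F ⊆ q'.F) (h6 : q.n ≤ q'.n) (h : ∀ x ∈ q'.s, x.1 ∈ q.E → x ∈ q.s) : leC Pi A q' q :=
  ⟨h1, h2, h3, h4, h5, h6, fun _ => (0, 0), fun x hx e n => (n (h x hx e)).elim,
    fun x hx _ _ e n => (n (h x hx e)).elim⟩

theorem trans {q r s : Cn O} (h : leC Pi A q r) (h' : leC Pi A r s) : leC Pi A q s := by
  obtain ⟨a1, a2, a3, a4, a5, a6, σ, a7, a8⟩ := h
  obtain ⟨-, b2, b3, b4, b5, b6, τ, b7, b8⟩ := h'
  have key : ∀ x ∈ r.s, ∀ x' ∈ q.s, x.1 ∈ s.E → x ∉ s.s → x'.1 ∈ s.E → x' ∉ r.s → τ x ≠ σ x' :=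
    fun x hx x' hx' e n e' n' h => by
      have c1 := (b7 x hx e n).2.1.1
      have c2 := (a2.1 x hx).2
      have c3 := (a7 x' hx' (b3 e') n').2.2.1
      rw [h] at c1
      omega
  refine ⟨a1, b2, b3.trans a3, b4.trans a4, b5.trans a5, b6.trans a6,
    fun x => if x ∈ r.s then τ x else σ x, fun x hx e n => ?_, fun x hx x' hx' e n e' n' h => ?_⟩
  · dsimp only
    split_ifs with hr
    · exact b7 x hr e n
    · obtain ⟨c1, c2, c3, c4⟩ := a7 x hx (b3 e) hr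
      exact ⟨c1, c2, b6.trans c3, fun z hz => c4 z (b5 hz)⟩
  · dsimp only at h
    split_ifs at h with hr hr' hr'
    · exact b8 x hr x' hr' e n e' n' h
    · exact (key x hr x' hx' e n e' hr' h).elim
    · exact (key x' hr' x hx e' n' e hr h.symm).elim
    · exact a8 x hx x' hx' (b3 e) hr (b3 e') hr' h

theorem g2w_anti {N1 : ℕ → ℕ → Prop} {N2 P2 : ℕ → ℕ → ℕ → Prop} {z : Zt} {l l' : ℕ}
    {L0 : Finset Cell} {y : Finset ℕ} {φ : Cell → ℕ} (e : l' ≤ l) (h : G2w N1 N2 P2 z l L0 y φ) :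
    G2w N1 N2 P2 z l' L0 y φ :=
  ⟨h.1, h.2.1, fun m hm => h.2.2.1 m (hm.trans e), fun J hJ =>
    let ⟨a1, a2, a3, a4, a5⟩ := h.2.2.2 J hJ
    ⟨e.trans a1, a2, a3, fun j hj => a4 j (hj.trans_le e), fun j hj i hi =>
      ⟨(a5 j (hj.trans_le e) i hi).1, fun m hm => (a5 j (hj.trans_le e) i hi).2 m (hm.trans_le e)⟩⟩⟩

end Le

theorem le_ok : S_le.{u} := by
  intro O Pi A
  refine ⟨fun q h => ⟨Le.triv h h subset_rfl subset_rfl subset_rfl le_rfl fun _ hx _ => hx,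
    Le.triv h ⟨fun _ hx => absurd hx (Finset.notMem_empty _),
      fun _ hx => absurd hx (Finset.notMem_empty _)⟩ (Finset.empty_subset _)
      (Finset.empty_subset _) (Finset.empty_subset _) (Nat.zero_le _)
      fun _ _ e => absurd e (Finset.notMem_empty _)⟩, fun _ _ _ => Le.trans,
    fun q r hq hr hn hs => ?_, fun q E F n hq hF hn => ?_⟩
  · have hw : Cn.Wf ((q.E ∪ r.E, q.s ∪ r.s, q.F ∪ r.F, q.n) : Cn O) :=
      ⟨fun x hx => (Finset.mem_union.1 hx).elim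
        (fun h => ⟨Finset.mem_union_left _ (hq.1 x h).1, (hq.1 x h).2⟩)
        fun h => ⟨Finset.mem_union_right _ (hr.1 x h).1, (hr.1 x h).2.trans_eq hn.symm⟩,
      fun x hx => (Finset.mem_union.1 hx).elim (fun h => Finset.mem_union_left _ (hq.2 x h))
        fun h => Finset.mem_union_right _ (hr.2 x h)⟩
    exact ⟨_, Le.triv hw hq Finset.subset_union_left Finset.subset_union_left
      Finset.subset_union_left le_rfl fun x hx e => (Finset.mem_union.1 hx).elim id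
        fun h => (hs x.1 e (hr.1 x h).1 x.2).2 h,
      Le.triv hw hr Finset.subset_union_right Finset.subset_union_right
      Finset.subset_union_right hn.ge fun x hx e => (Finset.mem_union.1 hx).elim
        (fun h => (hs x.1 (hq.1 x h).1 e x.2).1 h) id⟩
  · exact Le.triv ⟨fun x hx => ⟨Finset.mem_union_left _ (hq.1 x hx).1, (hq.1 x hx).2.trans_le hn⟩,
      fun x hx => (Finset.mem_union.1 hx).elim (fun h => Finset.mem_union_left _ (hq.2 x h))
        fun h => Finset.mem_union_right _ (hF x h)⟩ hq Finset.subset_union_left subset_rfl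
      Finset.subset_union_left hn fun _ hx _ => hx

theorem vn_ok : S_vn := by
  intro N1 N1' N2 P2 N2' P2' z
  refine ⟨⟨fun l l' c e ⟨L0, y, φ, h1, h2⟩ => ⟨L0, y, φ, Le.g2w_anti e h1, h2⟩,
    fun l c c' hc ⟨L0, y, φ, h1, h2⟩ => ⟨L0, y, φ, h1, fun J hJ => ?_⟩⟩,
    fun e1 e2 e3 l c ⟨L0, y, φ, h1, h2⟩ => ⟨L0, y, φ, ⟨h1.1, h1.2.1, h1.2.2.1, fun J hJ => ?_⟩, h2⟩,
    fun h h' e hl l => ?_⟩
  · obtain ⟨C', a1, a2, a3⟩ := h2 J hJ
    obtain ⟨C, b1, b2, b3⟩ := hc C' a1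
    exact ⟨C, b1, a2.trans b2, b3.trans a3⟩
  · obtain ⟨a1, a2, a3, a4, a5⟩ := h1.2.2.2 J hJ
    refine ⟨a1, a2, a3, fun j hj k hk n => a4 j hj k hk (e1 j k n), fun j hj i hi =>
      ⟨fun J' hJ' b k hk n => (a5 j hj i hi).1 J' hJ' b k hk (e2 j i k n), fun m hm => ?_⟩⟩
    obtain ⟨c, b1, b2⟩ := (a5 j hj i hi).2 m hm
    exact ⟨c, b1, fun k hk => e3 j i k (b2 k hk)⟩
  · obtain ⟨s, ⟨a1, a2, -, a4⟩, a5⟩ := hl l
    obtain ⟨c, hc⟩ := a2.nonempty
    obtain ⟨L0, y, φ, b1, b2⟩ := (a4 c hc).2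
    refine ⟨L0, y, φ, b1, fun J hJ => ?_⟩
    obtain ⟨C, c1, c2, c3⟩ := b2 J hJ
    exact ((e _ _ c2).trans_lt (a5 C ((a1.2 c hc).1 c1))).trans_le c3

end Pool.Agent.MP_5baa61_gt.JB
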