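import Pool.Agent.MP_5baa61_gt.JB.Spec

/-! The collapsing forcing. -/

namespace Pool.Agent.MP_5baa61_gt.JB

open Set Function Pool.Agent.MP_5baa61_gt.JK
open Pool.Agent.MP_b60a07_lc.H92 (Od U Rl t0 Good Ext CC Ub fodor exists_surj)
open scoped Classical

namespace LvA

abbrev Wd : Type 1 := Finset (Od × ℕ × Od)

/-- Finite families of finite injections. -/
def Gd (w : Wd) : Prop := (∀ t ∈ w, t.2.2 < max t.1 w0) ∧
  ∀ t ∈ w, ∀ t' ∈ w, t.1 = t'.1 → (t.2.1 = t'.2.1 ↔ t.2.2 = t'.2.2)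

theorem Gd.ins {w : Wd} (h : Gd w) {g x : Od} {j : ℕ} (hx : x < max g w0)
    (h1 : ∀ y, (g, j, y) ∉ w) (h2 : ∀ i, (g, i, x) ∉ w) : Gd (insert (g, j, x) w) := by
  have key : ∀ t ∈ w, g = t.1 → (j = t.2.1 ↔ x = t.2.2) := fun t ht e =>
    iff_of_false (fun e' => h1 t.2.2 (by rw [e, e']; exact ht))
      fun e' => h2 t.2.1 (by rw [e, e']; exact ht)
  refine ⟨Finset.forall_mem_insert _ _ _ |>.2 ⟨hx, h.1⟩, fun t ht t' ht' e => ?_⟩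
  rcases Finset.mem_insert.1 ht with rfl | h3 <;> rcases Finset.mem_insert.1 ht' with rfl | h4
  · exact iff_of_true rfl rfl
  · exact key t' h4 e
  · exact eq_comm.trans ((key t h3 e.symm).trans eq_comm)
  · exact h.2 t h3 t' h4 e

theorem ext_val {w : Wd} (h : Gd w) (g : Od) (j : ℕ) : ∃ v x, Gd v ∧ w ⊆ v ∧ (g, j, x) ∈ v := by
  by_cases hc : ∃ x, (g, j, x) ∈ w
  · exact hc.elim fun x hx => ⟨w, x, h, subset_rfl, hx⟩
  · obtain ⟨_, ⟨n, rfl⟩, hn⟩ := (infinite_range_of_injective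
      (Nat.cast_injective (R := Od))).exists_notMem_finset (w.image fun t => t.2.2)
    exact ⟨_, n, h.ins (lt_max_of_lt_right (Ordinal.natCast_lt_omega0 n)) (not_exists.1 hc)
      fun i hi => hn (Finset.mem_image_of_mem _ hi), Finset.subset_insert _ _,
      Finset.mem_insert_self _ _⟩

theorem ext_arg {w : Wd} (h : Gd w) {g x : Od} (hx : x < max g w0) :
    ∃ v j, Gd v ∧ w ⊆ v ∧ (g, j, x) ∈ v := by
  by_cases hc : ∃ j, (g, j, x) ∈ w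
  · exact hc.elim fun j hj => ⟨w, j, h, subset_rfl, hj⟩
  · obtain ⟨n, hn⟩ := Infinite.exists_notMem_finset (w.image fun t => t.2.1)
    exact ⟨_, n, h.ins hx (fun y hy => hn (Finset.mem_image_of_mem _ hy)) (not_exists.1 hc),
      Finset.subset_insert _ _, Finset.mem_insert_self _ _⟩

theorem cc (f : Od → Wd) (hf : ∀ i, Gd (f i)) : ∃ i j, i < j ∧ Gd (f i ∪ f j) := by
  obtain ⟨η, hη⟩ := fodor (fun ξ => ((f ξ).filter fun t : Od × ℕ × Od => t.1 < ξ).sup Prod.fst) fun ξ hξ =>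
    (Finset.sup_lt_iff hξ).2 fun i hi => (Finset.mem_filter.1 hi).2
  obtain ⟨k, hk⟩ := hη.fiber (K := Set (Iic η × ℕ × Iio (max η w0))) (fun ξ k =>
    ∀ z, z ∈ k ↔ (z.1.1, z.2.1, z.2.2.1) ∈ f ξ ∧ z.1.1 < ξ) fun ξ _ => ⟨_, fun _ => Iff.rfl⟩
  obtain ⟨s, h1, h2⟩ := hk.seq fun i => (f i).sup Prod.fst
  obtain ⟨h3, h4⟩ := h2 0 1 zero_lt_one
  have key : ∀ t ∈ f (s 0), ∀ t' ∈ f (s 1), t.1 = t'.1 → t' ∈ f (s 0) := fun t ht t' ht' e => by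
    have a1 : t'.1 < s 1 := e ▸ (Finset.le_sup (f := Prod.fst) ht).trans_lt h4
    have a2 : t'.1 ≤ η :=
      (Finset.le_sup (f := Prod.fst) (Finset.mem_filter.2 ⟨ht', a1⟩)).trans (h1 1).1
    exact (((h1 0).2 (⟨t'.1, a2⟩, t'.2.1, ⟨t'.2.2,
      ((hf _).1 t' ht').trans_le (max_le_max_right _ a2)⟩)).1 (((h1 1).2 _).2 ⟨ht', a1⟩)).1
  refine ⟨s 0, s 1, h3, fun t ht => (Finset.mem_union.1 ht).elim ((hf _).1 t) ((hf _).1 t),
    fun t ht t' ht' e => ?_⟩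
  rcases Finset.mem_union.1 ht with a | a <;> rcases Finset.mem_union.1 ht' with b | b
  · exact (hf _).2 t a t' b e
  · exact (hf _).2 t a t' (key t a t' b e) e
  · exact (hf _).2 t (key t' b t a e.symm) t' b e
  · exact (hf _).2 t a t' b e

theorem poset : ∃ (c : Rl) (V : U → Wd), Good c ∧ (∀ u v, c u v → Gd (V u) ∧ V v ⊆ V u) ∧
    ∀ u w, c u u → Gd w → V u ⊆ w → ∃ r, c r u ∧ V r = w := by
  have g0 : Good fun p q : U => p = t0 ∧ q = t0 := ⟨fun h => ⟨h.1, h.1⟩, fun h => ⟨h.2, h.2⟩,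
    fun h h' => ⟨h.1, h'.2⟩, ⟨rfl, rfl⟩, fun h => ⟨h.1, rfl⟩,
    ⟨fun _ => t0, fun p h => ⟨0, h.1.symm⟩⟩,
    fun f hf => ⟨0, 1, zero_lt_one, t0, ⟨rfl, (hf 0).1⟩, rfl, (hf 1).1⟩⟩
  have ge : Gd ∅ := ⟨fun _ h => absurd h (Finset.notMem_empty _),
    fun _ h => absurd h (Finset.notMem_empty _)⟩
  obtain ⟨e, he⟩ := exists_surj Wd (by
    simp [Cardinal.mul_eq_self Cardinal.aleph0_lt_univ.le,
      Cardinal.aleph0_mul_eq Cardinal.aleph0_lt_univ.le])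
  obtain ⟨c, dec, h1, -, h3, -, h5⟩ := two_step e he ∅ g0 (fun _ w v => Gd w ∧ Gd v ∧ v ⊆ w)
    (fun _ h => h) (fun h => ⟨h.1, h.1, subset_rfl⟩)
    (fun h h' => ⟨h.1, h'.2.1, h'.2.2.trans h.2.2⟩) (fun h => ⟨h.1, ge, Finset.empty_subset _⟩)
    (fun _ => ⟨ge, ge, subset_rfl⟩) fun f hf => by
      obtain ⟨i, j, a1, a2⟩ := cc (fun i => (f i).2) fun i => (hf i).2.1.1
      exact ⟨i, j, a1, (t0, (f i).2 ∪ (f j).2),
        ⟨⟨rfl, (hf i).1.1⟩, ⟨a2, (hf i).2.1.1, Finset.subset_union_left⟩, (hf i).2.1⟩,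
        ⟨rfl, (hf j).1.1⟩, ⟨a2, (hf j).2.1.1, Finset.subset_union_right⟩, (hf j).2.1⟩
  refine ⟨c, fun u => (dec u).2, h1, fun u v h => ⟨((h3 u v).1 h).2.1.1, ((h3 u v).1 h).2.1.2.2⟩,
    fun u w hu hw e => ?_⟩
  obtain ⟨r, hr⟩ := h5 (t0, w) ⟨rfl, rfl⟩
  obtain ⟨a1, a2, -⟩ := (h3 u u).1 hu
  exact ⟨r, (h3 r u).2 (by rw [hr]; exact ⟨⟨rfl, a1.1⟩, ⟨hw, a2.1, e⟩, a2⟩), congrArg Prod.snd hr⟩

noncomputable def val (P : Od → Prop) : Od := if h : ∃ x, P x then h.choose else 0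

end LvA

open LvA in
theorem lv : S_lv := by
  obtain ⟨c, V, hc, h1, h2⟩ := poset
  have := po hc
  let e : Od → Set U → ℕ → Od := fun g G j => val fun x => ∃ u ∈ G, c u u ∧ (g, j, x) ∈ V u
  have ev : ∀ {G u g j x}, Flt c G → u ∈ G → (g, j, x) ∈ V u → e g G j = x := by
    intro G u g j x hG hu hx
    have a : ∃ x, ∃ u ∈ G, c u u ∧ (g, j, x) ∈ V u := ⟨x, u, hu, hG.dom hu, hx⟩
    obtain ⟨v, a1, -, a2⟩ := a.choose_spec
    obtain ⟨r, -, r1, r2⟩ := hG.dir _ a1 _ hu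
    exact (dif_pos a).trans
      (((h1 r v r1).1.2 _ ((h1 r v r1).2 a2) _ ((h1 r u r2).2 hx) rfl).1 rfl)
  have dv : ∀ g j q, c q q → ∃ r, c r q ∧ ∃ x, (g, j, x) ∈ V r := fun g j q hq => by
    obtain ⟨v, x, a1, a2, a3⟩ := ext_val (h1 q q hq).1 g j
    obtain ⟨r, r1, rfl⟩ := h2 q v hq a1 a2
    exact ⟨r, r1, x, a3⟩
  refine ⟨c, e, hc, fun g G j => ?_, fun g j => ⟨fun G => ?_, fun q hq => ?_⟩, fun g => ?_,
    fun g x hx => ?_⟩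
  · simp only [e, val]
    split_ifs with a
    · obtain ⟨v, -, a1, a2⟩ := a.choose_spec
      exact (h1 v v a1).1.1 _ a2
    · exact lt_max_of_lt_right Ordinal.omega0_pos
  · exact congrArg val (funext fun x => propext ⟨fun ⟨u, a1, a2⟩ => ⟨u, a1.1, a2⟩,
      fun ⟨u, a1, a2⟩ => ⟨u, ⟨a1, a2.1⟩, a2⟩⟩)
  · obtain ⟨r, r1, x, r2⟩ := dv g j q hq
    exact ⟨r, x, r1, .of_flt fun G hG hr => ev hG hr r2⟩
  · refine (Fc.all fun j => Fc.meet (D := fun r => ∃ x, (g, j, x) ∈ V r)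
      fun q hq => dv g j q (hc.l hq)).imp' fun G hG _ h i j hij => ?_
    obtain ⟨u, a1, x, a2⟩ := h i
    obtain ⟨v, b1, y, b2⟩ := h j
    rw [ev hG a1 a2, ev hG b1 b2] at hij
    obtain ⟨r, -, r1, r2⟩ := hG.dir _ a1 _ b1
    exact ((h1 r u r1).1.2 _ ((h1 r u r1).2 a2) _ ((h1 r v r2).2 b2) rfl).2 hij
  · refine (Fc.meet (D := fun r => ∃ j, (g, j, x) ∈ V r) fun q hq => ?_).imp'
      fun G hG _ ⟨u, a1, j, a2⟩ => ⟨j, ev hG a1 a2⟩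
    obtain ⟨v, j, a1, a2, a3⟩ := ext_arg (h1 q q (hc.l hq)).1 hx
    obtain ⟨r, r1, rfl⟩ := h2 q v (hc.l hq) a1 a2
    exact ⟨r, r1, j, a3⟩

theorem lvx : S_lvx := by
  intro b c e hb hc E h
  have := po hb
  have := po hc
  have loc : ∀ g G, e g (res b G) = e g G := fun g G => funext fun j => (h.no g j).loc G
  exact ⟨h.lt, fun g j => (h.no g j).ext E,
    fun g => (ext_fc E hb.top0 (h.inj g)).imp fun G hG => loc g G ▸ hG,
    fun g x hx => (ext_fc E hb.top0 (h.sur g x hx)).imp fun G hG => loc g G ▸ hG⟩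

end Pool.Agent.MP_5baa61_gt.JB
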