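import Pool.Agent.MP_5baa61_gt.JB.Spec

/-! The alternative of killing is impossible; the tasks of a name. -/

namespace Pool.Agent.MP_5baa61_gt.JB

open Set Function Pool.Agent.MP_5baa61_gt.JK
open Pool.Agent.MP_b60a07_lc.H92 (Od U Rl t0 Good Ext sup exists_bd)
open Pool.Agent.MP_5baa61_gt.JA (Cell Move Sk Pat TLp)
open scoped Classical

universe u

namespace Nok

section plain

variable {O : Type u}

theorem map_congr {x y : ℕ → O} {c : Cn ℕ} (h1 : ∀ i ∈ c.E, x i = y i)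
    (h2 : ∀ p ∈ c.s, x p.1 = y p.1) (h3 : ∀ p ∈ c.F, x p.1 = y p.1 ∧ x p.2 = y p.2) :
    Cn.map x c = Cn.map y c := by
  unfold Cn.map
  rw [Finset.image_congr (f := x) (g := y) fun i hi => h1 i hi,
    Finset.image_congr (f := fun p : ℕ × ℕ => (x p.1, p.2)) (g := fun p => (y p.1, p.2))
      fun p hp => by simp only [h2 p hp],
    Finset.image_congr (f := fun p : ℕ × ℕ => (x p.1, x p.2)) (g := fun p => (y p.1, y p.2))
      fun p hp => by simp only [(h3 p hp).1, (h3 p hp).2]]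

/-- The image of a coded condition depends on finitely many values. -/
theorem map_fin (O : Type u) (c : Cn ℕ) :
    ∃ l, ∀ x y : ℕ → O, (∀ j < l, x j = y j) → Cn.map x c = Cn.map y c := by
  obtain ⟨l, hl⟩ := (c.E ∪ c.s.image Prod.fst ∪ c.F.image Prod.fst ∪ c.F.image Prod.snd).bddAbove
  have key : ∀ i, i ∈ c.E ∪ c.s.image Prod.fst ∪ c.F.image Prod.fst ∪ c.F.image Prod.snd →
      i < l + 1 := fun i hi => Nat.lt_succ_of_le (hl hi)
  simp only [Finset.mem_union, Finset.mem_image] at key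
  exact ⟨l + 1, fun x y h => map_congr (fun i hi => h i (key i (.inl (.inl (.inl hi)))))
    (fun p hp => h _ (key _ (.inl (.inl (.inr ⟨p, hp, rfl⟩)))))
    fun p hp => ⟨h _ (key _ (.inl (.inr ⟨p, hp, rfl⟩))), h _ (key _ (.inr ⟨p, hp, rfl⟩))⟩⟩

/-- The ground condition with side index `z` at all coordinates. -/
noncomputable def gr (x : ℕ → O) (a : ℕ) (s : Move) (z : O) : Cn O :=
  ((Cn.map x (base a s)).E, (Cn.map x (base a s)).s, (Finset.range a).image fun i => (x i, z), a)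

theorem gr_wf (x : ℕ → O) {a : ℕ} {s : Move} (z : O) (hs : Stm a s) : (gr x a s z).Wf := by
  refine ⟨fun p hp => ?_, fun p hp => ?_⟩
  · obtain ⟨p1, h1, rfl⟩ := Finset.mem_image.1 hp
    obtain ⟨p2, h2, rfl⟩ := Finset.mem_image.1 h1
    exact ⟨Finset.mem_image.2 ⟨_, Finset.mem_range.2 (hs p2 h2).2, rfl⟩, (hs p2 h2).1⟩
  · obtain ⟨i, h1, rfl⟩ := Finset.mem_image.1 hp
    exact Finset.mem_image.2 ⟨i, h1, rfl⟩

theorem gr_congr {x y : ℕ → O} {a : ℕ} {s : Move} (z : O) (hs : Stm a s)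
    (h : ∀ j < a, x j = y j) : gr x a s z = gr y a s z := by
  unfold gr
  rw [map_congr (x := x) (y := y) (c := base a s) (fun i hi => h i (Finset.mem_range.1 hi))
      (fun p hp => by
        obtain ⟨p2, h2, rfl⟩ := Finset.mem_image.1 hp
        exact h _ (hs p2 h2).2) fun p hp => absurd hp (Finset.notMem_empty _),
    Finset.image_congr (f := fun i => (x i, z)) (g := fun i => (y i, z))
      fun i hi => by simp only [h i (Finset.mem_range.1 hi)]]

end plain

theorem lq_le (h : S_le.{1}) {p : U} {Pi : Set U → Cell → Prop} {A : Od → Set U → ℕ → Prop}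
    {w v : Cn Od} {G : Set U} (e : LQ p Pi A w v G) : leC (Pi G) (fun z => A z G) w v := by
  rcases e with e | ⟨rfl, rfl⟩
  · exact e.2
  · exact ((h Od _ _).1 _ ⟨fun _ hx => absurd hx (Finset.notMem_empty _),
      fun _ hx => absurd hx (Finset.notMem_empty _)⟩).1

variable {b c : Rl} [PO b] {e : Od → Set U → ℕ → Od}

theorem sur_fin (lv : Lv b e) (g : Od) (S : Finset Od) :
    Fc b t0 fun G => ∀ ξ ∈ S, ξ < g → ∃ i, e g G i = ξ :=
  (Fc.all (S := fun (ξ : S) G => ξ.1 < g → ∃ i, e g G i = ξ.1) fun ξ => by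
    by_cases h : ξ.1 < g
    · exact (lv.sur g ξ (h.trans_le (le_max_left _ _))).imp fun _ h' _ => h'
    · exact .of_all fun _ h' => absurd h' h).imp fun _ h ξ hξ => h ⟨ξ, hξ⟩

theorem nb_wit (ha : S_at) (hn : S_nbl.{0}) (lv : Lv b e) {Pi : Set U → Cell → Prop}
    (nP : NB b Pi) (dec : U → U × Cn Od) (h : Set U → ℕ → ℕ) (δ : Od) (a : ℕ) (s t : Move)
    (w : Cn ℕ) (v : ℕ) :
    NB b fun G => Wit (Pi G) (fun w => DC b c dec h G (Cn.map (e δ G) w)) a s t w v :=
  let ⟨l, hl⟩ := map_fin Od w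
  (hn ℕ b Pi (fun _ _ _ => True) nP (fun _ => nb_const _) w (base a s)).and
    (((ha b (e δ) (lv.no δ) (Cn Od) (fun x => Cn.map x w) l hl).2
      (fun u G => DC b c dec h G u a v) fun _ => nb_meet fun _ hs => hs.1).and (nb_const _))

end Nok

open Nok in
theorem nokill (h : S_le.{1}) (hk : S_kill.{1}) (ha : S_at) (hn : S_nbl.{1}) : S_nokill := by
  intro b c _ _ p e Pi A dec f δ hb _ lv nP nA ts hδ hd a s z hs
  refine .glue fun r hr => ?_
  obtain ⟨r1, x, r1r, hx⟩ := NO.vals (lv.no δ) a r (PO.l hr)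
  have r1p : b r1 p := PO.tr r1r hr
  obtain ⟨u1, hu1⟩ := ts.d1 (r1, gr x a s z) (PO.l r1r)
  have q1 : Fc b r1 (LQ p Pi A (gr x a s z) (gr x a s z)) := (Fc.of_le r1p).imp fun G hG =>
    Or.inl ⟨hG, ((h Od _ _).1 _ (gr_wf x z hs)).1⟩
  obtain ⟨u', m, v, c1, c2, c3, c4, c5⟩ := hd a u1 ((ts.le _ _).2 (by
    rw [hu1]; exact ⟨PO.l r1r, q1, q1⟩))
  obtain ⟨d1, d2, -⟩ := (ts.le _ _).1 c1
  obtain ⟨d3, d4, d5⟩ := (ts.le _ _).1 c2
  rw [hu1] at d1 d2
  have top : b (dec u').1 t0 := hb.top (PO.l d1)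
  have key : ∀ w : Cn Od, Fc b (dec u').1 fun G =>
      leC (Pi G) (fun z => A z G) w (dec m).2 → DC b c dec f G w a v := fun w =>
    (truth (hn Od b Pi A nP nA w (dec m).2).dec).imp fun G hG h1 => by
      obtain ⟨t, t1, t2, t3⟩ := hG h1
      obtain ⟨u, hu⟩ := ts.d1 (t, w) (PO.l t2)
      have t4 : c u m := (ts.le _ _).2 (by
        rw [hu]
        exact ⟨PO.tr t2 d3, ((Fc.of_le (PO.tr t2 (PO.tr d1 r1p))).and t3).imp fun _ => Or.inl, d5⟩)
      exact ⟨t, t1, PO.l t2, u, hu, PO.l t4, c3.mono t4⟩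
  have key' : Fc b (dec u').1 fun G => ∀ w : Cn ℕ,
      leC (Pi G) (fun z => A z G) (Cn.map (e δ G) w) (dec m).2 →
        DC b c dec f G (Cn.map (e δ G) w) a v := .all fun w =>
    let ⟨l, hl⟩ := map_fin Od w
    (ha b (e δ) (lv.no δ) (Cn Od) (fun x => Cn.map x w) l hl).1 _ _ key
  refine ⟨(dec u').1, PO.tr d1 r1r, (((lv.inj δ).mono top).and (((sur_fin lv δ
    ((dec u').2.E ∪ (dec u').2.F.image Prod.snd)).mono top).and ((hx.mono d1).and
      (d2.and (d4.and key'))))).imp fun G ⟨g1, g2, g3, g4, g5, g6⟩ => ?_⟩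
  rw [← gr_congr z hs g3] at g4
  exact hk Od (Pi G) (fun z => A z G) (e δ G) (· < δ) _ a v s z (dec u').2 (dec m).2 g1
    (fun i => (lv.lt δ G i).trans_eq (max_eq_left hδ))
    (fun ξ hξ => g2 ξ (Finset.mem_union_left _ hξ))
    (fun y hy => g2 _ (Finset.mem_union_right _ (Finset.mem_image_of_mem _ hy)))
    (lq_le h g4) (lq_le h g5) c4 c5 g6

open Nok in
theorem task (h1 : S_nokill) (h2 : S_delta) (h3 : S_tk) (h4 : S_fun) (ha : S_at)
    (hn : S_nbl.{0}) : S_task := by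
  intro b c _ _ p e Pi T a X V Z dec h R ts hh
  obtain ⟨δ, hδ, hd⟩ := h2 b c p Pi _ dec h ts hh
  have top : b p t0 := R.g.top R.m
  have nW := nb_wit (c := c) ha hn R.lv R.nP dec h δ
  have nX : ∀ a s t, NB b fun G =>
      XS (Pi G) (fun w => DC b c dec h G (Cn.map (e δ G) w)) a s t := fun a s t =>
    NB.ex fun w => NB.ex fun v => nW a s t w v
  choose zz z1 z2 z3 using fun y : ℕ × Move => R.tk.lX y.1
    (fun G => XS (Pi G) (fun w => DC b c dec h G (Cn.map (e δ G) w)) y.1 y.2) (nb_pi (nX y.1 y.2))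
  obtain ⟨γ, hγ⟩ := exists_bd zz
  have k1 : Fc b p fun G => ∀ y : ℕ × Move, Stm y.1 y.2 → ∀ l p', (Z (zz y) G).req l p' →
      TLp y.1 (XS (Pi G) (fun w => DC b c dec h G (Cn.map (e δ G) w)) y.1 y.2) p' :=
    .all fun y => by
      by_cases hs : Stm y.1 y.2
      · refine ((h1 b c p e Pi _ dec h δ R.g R.m R.lv R.nP
          (fun z => (R.nZ z).comp measurable_fst) ts hδ hd y.1 y.2 (zz y) hs).and
          ((R.ps2 _ (z1 y)).and ((z3 y).mono top))).imp fun G ⟨⟨t, g1, g2⟩, g3, g4⟩ _ => ?_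
        rw [z2, g4] at g3
        exact g3.resolve_right fun g5 => g5 t g1 g2
      · exact .of_all fun _ h' => absurd h' hs
  obtain ⟨f, f1, f2⟩ := h4 b p (fun n m G => (∀ a s t, a ≤ n → Stm a s →
      XS (Pi G) (fun w => DC b c dec h G (Cn.map (e δ G) w)) a s t → (∀ x ∈ t, x.1 < n) →
        ∃ w v, Wit (Pi G) (fun w => DC b c dec h G (Cn.map (e δ G) w)) a s t w v ∧ Sz w m ∧ v ≤ m) ∧
      ∀ s, Stm n s → ∃ i, i ≤ m ∧ e γ G i = zz (n, s))
    (fun n m => (NB.all fun a => NB.all fun s => NB.all fun t => (nb_const _).imp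
      ((nb_const _).imp ((nX a s t).imp ((nb_const _).imp (NB.ex fun w => NB.ex fun v =>
        (nW a s t w v).and (nb_const _)))))).and (NB.all fun s => (nb_const _).imp
          (NB.ex fun i => (nb_const _).and ((R.lv.no γ i).rel fun y => y = zz (n, s)))))
    (((Fc.all fun y => R.lv.sur γ (zz y) ((hγ y).trans_le (le_max_left _ _))).mono top).imp
      fun G hG n => by
        choose j hj using hG
        obtain ⟨m0, hm⟩ := h3 (Pi G) (fun w => DC b c dec h G (Cn.map (e δ G) w)) n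
        refine ⟨max m0 ((Finset.range n ×ˢ Finset.range n).powerset.sup fun s => j (n, s)),
          hm _ (le_max_left _ _), fun s hs => ⟨j (n, s), le_trans (Finset.le_sup
            (f := fun s => j (n, s)) (Finset.mem_powerset.2 fun x hx => Finset.mem_product.2
              ⟨Finset.mem_range.2 (hs x hx).1, Finset.mem_range.2 (hs x hx).2⟩))
            (le_max_right _ _), hj _⟩⟩)
  obtain ⟨y, hy⟩ := R.tk.lT f f1
  refine ⟨δ, γ, y, hδ, ((hy.mono top).and (f2.and (k1.and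
    (R.ps5 γ ((z1 (0, ∅)).trans (hγ _).le))))).imp fun G ⟨g1, g2, g3, g4⟩ => ?_⟩
  rw [g1]
  refine ⟨fun n => (g2 n).1, fun a s m p' hs hm hc => ?_⟩
  obtain ⟨i, i1, i2⟩ := (g2 a).2 s hs
  exact g3 (a, s) hs m p' (i2 ▸ (g4 m i (i1.trans_lt hm)).1 p' hc)

end Pool.Agent.MP_5baa61_gt.JB
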