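import Pool.Agent.MP_5baa61_gt.JB.Spec

/-! Part B: the data of the walk are forced. -/

namespace Pool.Agent.MP_5baa61_gt.JB

open Set Function Pool.Agent.MP_5baa61_gt.JK
open Pool.Agent.MP_b60a07_lc.H92 (Od U Rl t0 Good Ext sup)
open Pool.Agent.MP_5baa61_gt.JA (Cell Move Sk Pat TLp)
open scoped Classical

namespace Pre

/-- Reading a family of forced statements at a name of an ordinal. -/
theorem rd {b : Rl} [PO b] {q : U} {ε : Set U → Od} (h : NO b ε) {S : Od → Set U → Prop}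
    (hS : ∀ z, Fc b q (S z)) : Fc b q fun G => S (ε G) G :=
  .glue fun r hr => let ⟨s, z, h1, h2⟩ := h.val r (PO.l hr)
    ⟨s, h1, (((hS z).mono (PO.tr h1 hr)).and h2).imp fun _ h => h.2 ▸ h.1⟩

theorem sr {b : Rl} [PO b] {e : Od → Set U → ℕ → Od} (h : Lv b e) {g : Od} (hg : w0 ≤ g) (z : Od) :
    Fc b t0 fun G => z < g → ∃ j, e g G j = z := by
  by_cases hz : z < g
  · exact (h.sur g z (lt_max_of_lt_left hz)).imp fun _ h _ => h
  · exact .of_all fun _ h => absurd h hz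

theorem bd {O : Type*} (f : ℕ → O) {g : ℕ → O} (hg : Injective g) (n : ℕ) :
    ∃ m, ∀ i i', i < n → f i = g i' → i' ≤ m := by
  induction n with
  | zero => exact ⟨0, fun _ _ h => absurd h (Nat.not_lt_zero _)⟩
  | succ n ih =>
    obtain ⟨m, hm⟩ := ih
    by_cases h : ∃ k, f n = g k
    · obtain ⟨k, hk⟩ := h
      refine ⟨max m k, fun i i' h1 h2 => ?_⟩
      rcases (Nat.lt_succ_iff.1 h1).eq_or_lt with rfl | h1
      · exact hg (h2.symm.trans hk) ▸ le_max_right _ _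
      · exact (hm i i' h1 h2).trans (le_max_left _ _)
    · refine ⟨m, fun i i' h1 h2 => ?_⟩
      rcases (Nat.lt_succ_iff.1 h1).eq_or_lt with rfl | h1
      · exact absurd ⟨i', h2⟩ h
      · exact hm i i' h1 h2

theorem fb {ι : Type*} (F : Finset ι) {R : ι → ℕ → Prop} (h : ∀ x ∈ F, ∃ j, R x j) :
    ∃ l, ∀ x ∈ F, ∃ j < l, R x j := by
  choose! f hf using h
  exact ⟨F.sup f + 1, fun x hx => ⟨f x, Nat.lt_succ_of_le (Finset.le_sup hx), hf x hx⟩⟩

end Pre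

open Pre

theorem pre (h1 : S_task) (h2 : S_fun) (_ha : S_at) : S_pre := by
  intro b c _ _ p e Pi T a X V Z dec h R hT hh
  obtain ⟨δ, z1, z2, hδ, hk⟩ := h1 b c p e Pi T a X V Z dec h R hT hh
  have lv := R.lv
  have top : b p t0 := R.g.top R.m
  have hc : ∀ z, ∃ y, Fc b t0 fun G => ∀ n i i', i < n → e z G i = e δ G i' → i' ≤ T y G n := by
    intro z
    obtain ⟨f, f1, f2⟩ := h2 b t0 (fun n m G => ∀ i i', i < n → e z G i = e δ G i' → i' ≤ m)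
      (fun n m => NB.all fun i => NB.all fun i' => (nb_const _).imp
        (((lv.no z i).sel (F := fun x G => x = e δ G i') fun x =>
          (lv.no δ i').rel fun y => x = y).imp (nb_const _)))
      ((lv.inj δ).imp fun G hG => bd _ hG)
    obtain ⟨y, hy⟩ := R.tk.lT f f1
    exact ⟨y, (f2.and hy).imp fun G hG => by rw [hG.2]; exact hG.1⟩
  choose cz hcz using hc
  refine ⟨δ, ((((club_gt δ).and ((club_gt z1).and (club_gt z2))).and (club_cl cz)).and R.ps3).mono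
    fun g ⟨⟨⟨g0, g1, g2⟩, g3⟩, g4⟩ q hq => ?_⟩
  have hg : w0 ≤ g := hδ.trans g0.le
  obtain ⟨γ, c1, c2, c3⟩ : ∃ γ : Od, g < γ ∧ (∀ ξ ∈ q.E, ξ < γ) ∧ ∀ x ∈ q.F, x.2 < γ :=
    ⟨Order.succ (max g (max (q.E.sup id) (q.F.sup Prod.snd))),
      Order.lt_succ_of_le (le_max_left _ _),
      fun ξ hξ => Order.lt_succ_of_le (le_max_of_le_right (le_max_of_le_left
        (Finset.le_sup (f := id) hξ))),
      fun x hx => Order.lt_succ_of_le (le_max_of_le_right (le_max_of_le_right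
        (Finset.le_sup (f := Prod.snd) hx)))⟩
  have hγ : w0 ≤ γ := hg.trans c1.le
  have l1 : ∀ G j, e g G j < g := fun G j => (lv.lt g G j).trans_eq (max_eq_left hg)
  have l2 : ∀ G j, e δ G j < g := fun G j => ((lv.lt δ G j).trans_eq (max_eq_left hδ)).trans g0
  have a1 := Fc.all fun j => rd (lv.no g j) lv.inj
  have a2 := Fc.all fun ξ : q.E => sr lv hγ ξ.1
  have a3 := Fc.all fun x : q.F => sr lv hγ x.1.2
  have a4 := Fc.all fun j => rd (lv.no g j) (sr lv hγ)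
  have a5 := Fc.all fun j => rd (lv.no δ j) (sr lv hγ)
  have a6 := Fc.all fun j => Fc.all fun i =>
    rd ((lv.no g j).comp (F := fun z G => e z G i) fun z => lv.no z i) (sr lv hγ)
  have a7 := Fc.all fun j => rd (lv.no g j) fun z => (sr lv hg (cz z)).and (hcz z)
  have a8 := Fc.all fun j => rd (lv.no δ j) (sr lv hg)
  have a9 := ((sr lv hg δ).and (sr lv hγ g)).and ((sr lv hg z1).and (sr lv hg z2))
  have a0 := ((((lv.inj δ).and a1).and (a2.and a3)).and ((a4.and a5).and (a6.and a7))).and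
    (a8.and a9)
  refine ⟨γ, (((a0.mono top).and hk).and ((g4.and (R.ps1 γ hγ)).and
    ((R.ps4 g hg).and (R.ps5 δ hδ)))).imp fun G hG => ?_⟩
  obtain ⟨⟨⟨⟨⟨⟨b0, b1⟩, b2, b3⟩, ⟨b4, b5⟩, b6, b7⟩, b8, ⟨d1, d2⟩, d3, d4⟩, k1, k2⟩, ⟨p3, p1⟩,
    p4, p5⟩ := hG
  have oF : ∀ x ∈ q.F, ∃ j, e γ G j = x.2 := fun x hx => b3 ⟨x, hx⟩ (c3 x hx)
  refine ⟨R.fm g G, hq, b0, b1, fun ξ hξ => b2 ⟨ξ, hξ⟩ (c2 ξ hξ), oF,
    fun j => b4 j ((l1 G j).trans c1), fun i => b5 i ((l2 G i).trans c1),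
    fun j i => b6 j i (((lv.lt _ G i).trans_le (max_le (l1 G j).le hg)).trans c1),
    fun j => ?_, ?_, ?_, fun l0 => ?_, fun m l0 l n => ?_⟩
  · obtain ⟨j', e1⟩ := (b7 j).1 (g3 _ (l1 G j))
    refine ⟨j', ?_⟩
    simp only [hs, e1]
    exact (b7 j).2
  · obtain ⟨j, e1⟩ := d1 g0
    refine ⟨j, fun m i hi => ?_⟩
    simp only [hs, e1]
    exact (p5 m i hi).2
  · obtain ⟨j1, e1⟩ := d3 g1
    obtain ⟨j2, e2⟩ := d4 g2
    refine ⟨j1, j2, ?_⟩
    simp only [hs, e1, e2]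
    exact ⟨k1, fun a s m p => k2 a s m p⟩
  · obtain ⟨j, e1⟩ := d2 c1
    obtain ⟨l, hl⟩ := fb q.F oF
    obtain ⟨p', -, q1, q2⟩ := p1 (max l0 (max l (j + 1)))
    have q3 := q2 j (lt_max_of_lt_right (lt_max_of_lt_right (Nat.lt_succ_self j)))
    simp only [hs, e1] at q3
    refine ⟨_, le_max_left _ _, p', p3 _ _ q3, fun C hC => ⟨(q1 C hC).1, (q1 C hC).2.2.1,
      fun k h3 h4 x hx => ?_⟩⟩
    obtain ⟨i, i1, i2⟩ := hl x hx
    exact i2 ▸ (q1 C hC).2.2.2 k h3 h4 i (lt_max_of_lt_right (lt_max_of_lt_left i1))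
  · obtain ⟨L, hL⟩ := fb (Finset.range n) fun i _ => b8 i (l2 G i)
    obtain ⟨s, s1, ⟨σ, s2, s3⟩, s4⟩ := p4 m l0 (max l L)
    refine ⟨s, s1, ⟨σ, fun k hk => ⟨(s2 k hk).1, (s2 k hk).2.1,
      (le_max_left _ _).trans (s2 k hk).2.2⟩, s3⟩, fun k hk i hi => ?_⟩
    obtain ⟨j, j1, j2⟩ := hL i (Finset.mem_range.2 hi)
    exact j2 ▸ s4 k hk j (lt_max_of_lt_right j1)

end Pool.Agent.MP_5baa61_gt.JB
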