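import Pool.Agent.MP_5baa61_gt.JB.Spec

/-! The diagonal intersection of directed promises is kept. -/

namespace Pool.Agent.MP_5baa61_gt.JB

open Set Function Pool.Agent.MP_5baa61_gt.JK
open Pool.Agent.MP_b60a07_lc.H92 (Od U Rl t0 Good Ext sup)
open Pool.Agent.MP_5baa61_gt.JA (Cell Move Sk Pat TLp)
open scoped Classical

theorem r2 : S_r2 := by
  intro b e f hb hL hk hd _
  refine ⟨fun g => nb_pi fun l => nb_pi fun c => NB.all fun j => NB.imp (nb_const _)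
    ((hL.no g j).sel (F := fun z G => f z g G l c) fun z => (((hk z).1 g).ap l).ap c),
    fun g G => ⟨fun l l' c h1 h2 j hj => ((hk _).2.1 g G).1 l l' c h1 (h2 j (hj.trans_le h1)),
      fun l c c' h1 h2 j hj => ((hk _).2.1 g G).2 l c c' h1 (h2 j hj)⟩, fun h hh => ?_⟩
  have low : ∀ Z : Finset Od, ∃ y, ∀ z ∈ Z, ∀ g G l c, f y g G l c → f z g G l c := fun Z => by
    induction Z using Finset.induction_on with
    | empty => exact ⟨0, fun _ hz => absurd hz (Finset.notMem_empty _)⟩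
    | insert x Z _ ih =>
      obtain ⟨y, hy⟩ := ih
      obtain ⟨w, hw⟩ := hd x y
      refine ⟨w, fun z hz g G l c h1 => ?_⟩
      rcases Finset.mem_insert.1 hz with rfl | hz
      · exact (hw g G l c h1).1
      · exact hy z hz g G l c (hw g G l c h1).2
  choose y hy using low
  refine ((Club.diagF fun Z => (hk (y Z)).2.2 h hh).and (club_gt w0)).mono fun g hg =>
    Fc.all fun l => .glue fun r hr => ?_
  obtain ⟨s, z, s1, s2⟩ := NO.vals (hL.no g) l r (PO.l hr)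
  have lt : ∀ j < l, z j < g := fun j hj => Fc.const (PO.l s1) (s2.imp fun G hG => by
    have := hL.lt g G j
    rwa [max_eq_left hg.2.le, hG j hj] at this)
  refine ⟨s, s1, (s2.and ((hg.1 ((Finset.range l).image z) fun x hx => ?_).mono
    (PO.tr s1 hr))).imp fun G hG => ?_⟩
  · obtain ⟨j, hj, rfl⟩ := Finset.mem_image.1 hx
    exact lt j (Finset.mem_range.1 hj)
  · obtain ⟨t, ⟨t1, t2, t3, t4⟩, t5⟩ := hG.2 l
    refine ⟨t, ⟨t1, t2, t3, fun c hc => ⟨(t4 c hc).1, fun j hj => ?_⟩⟩, t5⟩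
    rw [hG.1 j hj]
    exact hy _ _ (Finset.mem_image_of_mem z (Finset.mem_range.2 hj)) g G l c (t4 c hc).2

theorem pool (h1 : S_lvx) (h2 : S_tasks) (h3 : S_r2) (hk : S_keep) : S_pool hk := by
  intro b0 g0 e hL s
  have hs : Lv s.b e := h1 b0 s.b e g0 s.g s.e0 hL
  obtain ⟨E, hE⟩ := s.sz
  have ex : ∀ z, ∃ π ∈ s.pr, ∀ π' ∈ s.pr, E z = some π' → π = π' := fun z => by
    by_cases h : ∃ π ∈ s.pr, E z = some π
    · obtain ⟨π, a1, a2⟩ := h
      exact ⟨π, a1, fun π' _ a3 => Option.some.inj (a2.symm.trans a3)⟩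
    · exact ⟨_, s.tp, fun π' a1 a2 => absurd ⟨π', a1, a2⟩ h⟩
  choose f f1 f2 using ex
  have sur : ∀ π ∈ s.pr, ∃ z, f z = π := fun π hπ =>
    let ⟨z, hz⟩ := hE π hπ; ⟨z, f2 z π hπ hz⟩
  refine ⟨hs, h2 s.b s.g, f, sur, h3 s.b e f s.g hs (fun z => s.k _ (f1 z)) fun z z' => ?_⟩
  obtain ⟨ρ, a1, a2, a3⟩ := s.dir _ (f1 z) _ (f1 z')
  obtain ⟨y, rfl⟩ := sur ρ a1
  exact ⟨y, fun g G l c h => ⟨a2 g G l c h, a3 g G l c h⟩⟩

end Pool.Agent.MP_5baa61_gt.JB
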