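import Pool.Agent.MP_5baa61_gt.JB.Spec

/-! Part B: the order of the iterand is a name, and the two step iteration exists. -/

namespace Pool.Agent.MP_5baa61_gt.JB

open Set Function Pool.Agent.MP_5baa61_gt.JK
open Pool.Agent.MP_b60a07_lc.H92 (Od U Rl t0 Good Ext sup CC Ub exists_surj fodor mk_W0)
open Pool.Agent.MP_5baa61_gt.JA (Cell Move Sk Pat TLp inC)
open scoped Classical

universe u

theorem ts_leC_iff {O : Type u} (Pi : Cell → Prop) (A : O → ℕ → Prop) (w v : Cn O) :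
    leC Pi A w v ↔ (w.Wf ∧ v.Wf ∧ v.E ⊆ w.E ∧ v.s ⊆ w.s ∧ v.F ⊆ w.F ∧ v.n ≤ w.n) ∧
      ∃ σ : w.s → Cell, (∀ x : w.s, (x.1.1 ∈ v.E ∧ x.1 ∉ v.s) → Pi (σ x) ∧
        (inC (σ x) x.1.2 ∧ v.n ≤ (σ x).1) ∧ ∀ z : v.F, z.1.1 = x.1.1 → A z.1.2 x.1.2) ∧
        ∀ x x' : w.s, x.1.1 ∈ v.E → x.1 ∉ v.s → x'.1.1 ∈ v.E → x'.1 ∉ v.s → σ x = σ x' →
          x = x' := by
  constructor
  · rintro ⟨h1, h2, h3, h4, h5, h6, σ, h7, h8⟩
    refine ⟨⟨h1, h2, h3, h4, h5, h6⟩, fun x => σ x.1, fun x hx => ?_,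
      fun x x' a b c d e => Subtype.ext (h8 _ x.2 _ x'.2 a b c d e)⟩
    obtain ⟨a, b, c, d⟩ := h7 _ x.2 hx.1 hx.2
    exact ⟨a, ⟨b, c⟩, fun z hz => d _ (hz ▸ z.2)⟩
  · rintro ⟨⟨h1, h2, h3, h4, h5, h6⟩, σ, h7, h8⟩
    refine ⟨h1, h2, h3, h4, h5, h6, fun x => if h : x ∈ w.s then σ ⟨x, h⟩ else (0, 0),
      fun x hx a b => ?_, fun x hx x' hx' a b c d e => ?_⟩
    · obtain ⟨c, d, e⟩ := h7 ⟨x, hx⟩ ⟨a, b⟩
      simp only [dif_pos hx]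
      exact ⟨c, d.1, d.2, fun z hz => e ⟨_, hz⟩ rfl⟩
    · simp only [dif_pos hx, dif_pos hx'] at e
      exact congrArg Subtype.val (h8 ⟨x, hx⟩ ⟨x', hx'⟩ a b c d e)

theorem nbl : S_nbl.{u} := by
  intro O b _ Pi A hP hA w v
  simp only [ts_leC_iff]
  exact (nb_const _).and (NB.ex fun σ => NB.and (NB.all fun x => (nb_const _).imp
    ((hP.ap _).and ((nb_const _).and (NB.all fun z => (nb_const _).imp ((hA _).ap _)))))
    (nb_const _))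

theorem ts_leC_bot {O : Type u} {Pi : Cell → Prop} {A : O → ℕ → Prop} {w v : Cn O}
    (h : leC (fun _ => False) (fun _ _ => False) w v) : leC Pi A w v := by
  obtain ⟨h1, h2, h3, h4, h5, h6, σ, h7, h8⟩ := h
  exact ⟨h1, h2, h3, h4, h5, h6, σ, fun x hx a b => (h7 x hx a b).1.elim, h8⟩

theorem ts_surj : ∃ e : Od → Cn Od, Surjective e := by
  have i : Cardinal.aleph0 ≤ Cardinal.mk Od := Cardinal.aleph0_le_mk _
  have e2 : Cardinal.mk (Od × Od) = Cardinal.mk Od := by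
    rw [Cardinal.mk_prod, Cardinal.lift_id, Cardinal.mul_eq_self i]
  refine exists_surj _ ?_
  have e3 : Cardinal.mk (Finset (Od × Od) × ℕ) = Cardinal.mk Od := by
    rw [← mk_W0, Cardinal.mk_prod, Cardinal.mk_prod, Cardinal.mk_finset_of_infinite, e2]
  rw [Cardinal.mk_prod, Cardinal.mk_prod, e3, Cardinal.mk_finset_of_infinite,
    Cardinal.mk_finset_of_infinite, mk_W0]
  simp only [Cardinal.lift_id, Cardinal.mul_eq_self i, le_refl]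

theorem ts (h : S_le.{1}) : S_ts := by
  intro b p Pi A hb
  have := po hb
  obtain ⟨e, he⟩ := ts_surj
  have wt : (Cn.top : Cn Od).Wf := ⟨fun x hx => absurd hx (Finset.notMem_empty x),
    fun x hx => absurd hx (Finset.notMem_empty x)⟩
  have L0 : ∀ {q w}, Fc b q (LQ p Pi A w w) → Fc b q (LQ p Pi A w Cn.top) := fun h1 =>
    h1.imp fun G h2 => h2.imp (fun h3 => ⟨h3.1, ((h _ _ _).1 _ h3.2.1).2⟩) fun h3 => ⟨h3.1, rfl⟩
  have cc : CC fun u v : U × Cn Od => b u.1 v.1 ∧ Fc b u.1 (LQ p Pi A u.2 v.2) ∧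
      Fc b v.1 (LQ p Pi A v.2 v.2) := by
    intro f hf
    have wf : ∀ i, (f i).2.Wf := fun i => Fc.const (hf i).1
      ((hf i).2.1.imp fun G h2 => h2.elim (fun h3 => h3.2.1) fun h3 => h3.1 ▸ wt)
    obtain ⟨η, hη⟩ := fodor (fun i => ((f i).2.E.filter (· < i)).sup id) fun i hi =>
      (Finset.sup_lt_iff hi).2 fun x hx => (Finset.mem_filter.1 hx).2
    obtain ⟨k, hk⟩ := hη.fiber (K := ℕ × Set (Iic η × ℕ))
      (fun i k => (f i).2.n = k.1 ∧ ∀ x : Iic η × ℕ, (x.1.1, x.2) ∈ (f i).2.s ↔ x ∈ k.2)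
      fun i _ => ⟨((f i).2.n, {x | (x.1.1, x.2) ∈ (f i).2.s}), rfl, fun _ => Iff.rfl⟩
    obtain ⟨i, j, ⟨-, i1, i2⟩, ⟨j0, j1, j2⟩, hij, hlt, r, r1, r2⟩ :=
      hb.cc.pair hk (fun i => (f i).2.E.sup id) (fun i => (f i).1) fun i _ => (hf i).1
    refine ⟨i, j, hij, ?_⟩
    by_cases ti : (f i).2 = Cn.top
    · exact ⟨(r, (f j).2), ⟨r1, by rw [ti]; exact L0 ((hf j).2.1.mono r2), (hf i).2.1⟩,
        r2, (hf j).2.1.mono r2, (hf j).2.1⟩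
    by_cases tj : (f j).2 = Cn.top
    · exact ⟨(r, (f i).2), ⟨r1, (hf i).2.1.mono r1, (hf i).2.1⟩,
        r2, by rw [tj]; exact L0 ((hf i).2.1.mono r1), (hf j).2.1⟩
    obtain ⟨u, u1, u2⟩ := (h Od (fun _ => False) fun _ _ => False).2.2.1 _ _ (wf i) (wf j)
      (i1.trans j1.symm) fun ξ h1 h2 m => by
        have h3 : ξ < j := (Finset.le_sup (f := id) h1).trans_lt hlt
        have h4 : ξ ≤ η := le_trans (Finset.le_sup (f := id) (by simp [h2, h3])) j0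
        exact (i2 (⟨ξ, h4⟩, m)).trans (j2 (⟨ξ, h4⟩, m)).symm
    exact ⟨(r, u), ⟨r1, ((hf i).2.1.mono r1).imp fun G h2 => h2.elim
        (fun h3 => .inl ⟨h3.1, ts_leC_bot u1⟩) fun h3 => absurd h3.1 ti, (hf i).2.1⟩,
      r2, ((hf j).2.1.mono r2).imp fun G h2 => h2.elim
        (fun h3 => .inl ⟨h3.1, ts_leC_bot u2⟩) fun h3 => absurd h3.1 tj, (hf j).2.1⟩
  obtain ⟨c, dec, c1, c2, c3, c4, c5⟩ := two_step e he Cn.top hb
    (fun q w v => Fc b q (LQ p Pi A w v)) (fun h1 h2 => h2.mono h1)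
    (fun h1 => h1.imp fun G h2 => h2.imp (fun h3 => ⟨h3.1, ((h _ _ _).1 _ h3.2.1).1⟩)
      fun h3 => ⟨h3.1, h3.1⟩)
    (fun h1 h2 => (h1.and h2).imp fun G h3 => by
      rcases h3 with ⟨h3 | ⟨rfl, rfl⟩, h4 | ⟨h4, rfl⟩⟩
      exacts [.inl ⟨h3.1, (h _ _ _).2.1 _ _ _ h3.2 h4.2⟩, .inl (h4 ▸ h3), .inl h4,
        .inr ⟨rfl, rfl⟩])
    L0 (fun _ => .of_all fun _ => .inr ⟨rfl, rfl⟩) cc
  exact ⟨c, dec, c1, c2, c3, c4, c5⟩

end Pool.Agent.MP_5baa61_gt.JB
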