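import Pool.Agent.MP_5baa61_gt.JB.At
import Pool.Agent.MP_5baa61_gt.JB.Dens
import Pool.Agent.MP_5baa61_gt.JB.Fit
import Pool.Agent.MP_5baa61_gt.JB.Gen
import Pool.Agent.MP_5baa61_gt.JB.Keep
import Pool.Agent.MP_5baa61_gt.JB.Kill
import Pool.Agent.MP_5baa61_gt.JB.Le
import Pool.Agent.MP_5baa61_gt.JB.Lv
import Pool.Agent.MP_5baa61_gt.JB.Nok
import Pool.Agent.MP_5baa61_gt.JB.Pre
import Pool.Agent.MP_5baa61_gt.JB.R2
import Pool.Agent.MP_5baa61_gt.JB.Ts
import Pool.Agent.MP_5baa61_gt.JB.Walk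

/-! Part B without hypotheses. -/

namespace Pool.Agent.MP_5baa61_gt.JB

theorem all_keep : S_keep := keep loc

theorem all_lv : S_lv := lv

theorem all_pool : S_pool all_keep := pool lvx tasks r2 all_keep

theorem all_dens : S_dens :=
  dens le_ok (walk le_ok) (pre (task (nokill le_ok kill_ok at_ok nbl) delta tk_ok fun_ok at_ok nbl)
    fun_ok at_ok) at_ok nbl (fit le_ok) vn_ok

theorem all_gen : S_gen all_keep :=
  gen all_keep le_ok vn_ok loc (ts le_ok) (fit le_ok) (g01 le_ok nbl) all_dens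

end Pool.Agent.MP_5baa61_gt.JB
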