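import Pool.Agent.MP_5baa61_gt.JB.Spec

/-! Part B, names: reading at names of ordinals, tasks, choice functions. -/

namespace Pool.Agent.MP_5baa61_gt.JB

open Set Function Pool.Agent.MP_5baa61_gt.JK
open Pool.Agent.MP_b60a07_lc.H92 (Od U Rl t0 Good Ext sup surj_W0)
open Pool.Agent.MP_5baa61_gt.JA (Cell Move Sk Pat TLp)
open scoped Classical

theorem at_ok : S_at := by
  intro b _ ε hε α φ l hφ
  refine ⟨fun q S hS => .glue fun r hr => ?_, fun S hS => nb_iff.2 ⟨dec_local fun q hq => ?_,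
    fun G => ?_⟩⟩
  · obtain ⟨s, z, s1, s2⟩ := NO.vals hε l r (PO.l hr)
    exact ⟨s, s1, (s2.and ((hS (φ z)).mono (PO.tr s1 hr))).imp fun G h => hφ _ _ h.1 ▸ h.2⟩
  · obtain ⟨s, z, s1, s2⟩ := NO.vals hε l q hq
    exact ⟨s, S (φ z), s1, (hS _).dec, s2.imp fun G h => by rw [hφ _ _ h]⟩
  · rw [hφ (ε (res b G)) (ε G) fun j _ => (hε j).loc G]
    exact (nb_iff.1 (hS _)).2 G

theorem tasks : S_tasks := by
  intro b _ hb
  obtain ⟨T, t1, t2⟩ := list_names hb (ℕ → ℕ)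
  obtain ⟨X, x1, x2⟩ := list_names hb (Move → Prop)
  obtain ⟨k, hk⟩ := surj_W0
  refine ⟨T, fun z => (k (z - w0)).2, fun z => X (k (z - w0)).1, t1, fun _ => x1 _,
    fun f hf => let ⟨z, hz⟩ := t2 f hf; ⟨z, hz.imp fun _ => Eq.symm⟩, fun a0 f hf => ?_⟩
  obtain ⟨i, hi⟩ := x2 f hf
  obtain ⟨j, hj⟩ := hk (i, a0)
  refine ⟨w0 + j, le_self_add, ?_, ?_⟩ <;> rw [Ordinal.add_sub_cancel, hj]
  exact hi.imp fun _ => Eq.symm

theorem fun_ok : S_fun := by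
  intro b _ q R hR h
  have key : ∀ n, ∃ f : Set U → ℕ, NB b f ∧ Fc b q fun G => R n (f G) G := fun n =>
    nb_mix (P := fun m G => R n m G) (((h.imp fun _ h => h n).ex fun m => (hR n m).dec).imp
      fun _ ⟨m, hm⟩ => ⟨fun _ => m, nb_const m, hm⟩)
  choose f f1 f2 using key
  exact ⟨fun G n => f n G, nb_pi f1, .all f2⟩

end Pool.Agent.MP_5baa61_gt.JB
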