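import Pool.Agent.MP_5baa61_gt.JB.Pl

/-! Part B, plain layer: the last step of the walk. -/

namespace Pool.Agent.MP_5baa61_gt.JB

open Set Function
open Pool.Agent.MP_5baa61_gt.JA (Cell Move Sk Pat inC)
open scoped Classical

universe u v

variable {O : Type u} {Pi : Cell → Prop} {A : O → ℕ → Prop}

theorem leC.new_ge {q' q : Cn O} (h : leC Pi A q' q) {ξ : O} {k : ℕ} (h1 : (ξ, k) ∈ q'.s)
    (h2 : ξ ∈ q.E) (h3 : (ξ, k) ∉ q.s) : q.n ≤ k :=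
  let ⟨_, _, _, _, _, _, _, h4, _⟩ := h
  (h4 _ h1 h2 h3).2.2.1.trans (h4 _ h1 h2 h3).2.1.1

/-- A stronger condition excludes more pairs. -/
theorem leC.N {q' q : Cn O} (h : leC Pi A q' q) {ξ : O} {k : ℕ} (h1 : q'.N ξ k) : q.N ξ k :=
  fun h2 h3 => by
    by_contra hn
    exact absurd (h.new_ge (h1 (h.2.2.1 h2) (h3.trans_le h.2.2.2.2.2.1)) h2 hn) (not_le.2 h3)

theorem leC.P {q' q : Cn O} (h : leC Pi A q' q) {ξ : O} {k : ℕ} (h1 : q.P ξ k) : q'.P ξ k :=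
  h.2.2.2.1 h1

/-- One selector is added to the stem of one coordinate. -/
theorem fill_one {q : Cn O} (wf : q.Wf) {ξ : O} (hξ : ξ ∈ q.E) {c : Finset ℕ}
    (hc : Sel Pi q.n c) (hA : ∀ z, (ξ, z) ∈ q.F → ∀ k ∈ c, A z k) :
    ∃ q', leC Pi A q' q ∧ q'.E = q.E ∧ q'.F = q.F ∧ ∀ k ∈ c, (ξ, k) ∈ q'.s := by
  obtain ⟨σ, h1, h2⟩ := hc
  have key : ∀ x ∈ q.s ∪ c.image fun k => (ξ, k), x ∉ q.s → x.1 = ξ ∧ x.2 ∈ c := fun x hx hn => by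
    obtain ⟨k, hk, rfl⟩ := Finset.mem_image.1 ((Finset.mem_union.1 hx).resolve_left hn)
    exact ⟨rfl, hk⟩
  refine ⟨(q.E, q.s ∪ c.image fun k => (ξ, k), q.F, max q.n (c.sup id + 1)),
    ⟨⟨fun x hx => ?_, wf.2⟩, wf, subset_rfl, Finset.subset_union_left, subset_rfl,
      le_max_left _ _, fun x => σ x.2, fun x hx _ hn => ?_, fun x hx x' hx' _ hn _ hn' e => ?_⟩,
    rfl, rfl, fun k hk => Finset.mem_union_right _ (Finset.mem_image_of_mem _ hk)⟩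
  · by_cases hn : x ∈ q.s
    · exact ⟨(wf.1 x hn).1, (wf.1 x hn).2.trans_le (le_max_left _ _)⟩
    · obtain ⟨e, hk⟩ := key x hx hn
      exact ⟨e ▸ hξ, (Nat.lt_succ_of_le (Finset.le_sup (f := id) hk)).trans_le (le_max_right _ _)⟩
  · obtain ⟨e, hk⟩ := key x hx hn
    exact ⟨(h1 _ hk).1, (h1 _ hk).2.1, (h1 _ hk).2.2, fun z hz => hA z (e ▸ hz) _ hk⟩
  · obtain ⟨e1, hk⟩ := key x hx hn
    obtain ⟨e2, hk'⟩ := key x' hx' hn'
    exact Prod.ext (e1.trans e2.symm) (h2 _ hk _ hk' e)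

/-- Finitely many coordinates get finite sets of prescribed kinds. -/
theorem fill (h : S_le.{u}) {I : Type v} (T : Finset (O × I)) (R : I → Finset ℕ → Prop)
    (S : ℕ → Prop) (hl : ∀ t l, ∃ c, R t c ∧ Sel Pi l c ∧ ∀ k ∈ c, S k) (q : Cn O) (wf : q.Wf)
    (hT : ∀ x ∈ T, x.1 ∈ q.E ∧ ∀ z, (x.1, z) ∈ q.F → ∀ k, S k → A z k) :
    ∃ q', leC Pi A q' q ∧ q'.E = q.E ∧ q'.F = q.F ∧
      ∀ x ∈ T, ∃ c, R x.2 c ∧ ∀ k ∈ c, (x.1, k) ∈ q'.s := by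
  induction T using Finset.induction_on with
  | empty => exact ⟨q, ((h O Pi A).1 q wf).1, rfl, rfl, fun x hx => absurd hx (Finset.notMem_empty x)⟩
  | insert x T _ ih =>
    obtain ⟨r, r1, r2, r3, r4⟩ := ih fun y hy => hT y (Finset.mem_insert_of_mem hy)
    obtain ⟨c, c1, c2, c3⟩ := hl x.2 r.n
    obtain ⟨x1, x2⟩ := hT x (Finset.mem_insert_self _ _)
    obtain ⟨q', h1, h2, h3, h4⟩ := fill_one (A := A) r1.1 (r2 ▸ x1) c2
      fun z hz k hk => x2 z (r3 ▸ hz) k (c3 k hk)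
    refine ⟨q', (h O Pi A).2.1 _ _ _ h1 r1, h2.trans r2, h3.trans r3, fun y hy => ?_⟩
    rcases Finset.mem_insert.1 hy with rfl | hy
    · exact ⟨c, c1, h4⟩
    · exact let ⟨d, d1, d2⟩ := r4 y hy; ⟨d, d1, fun k hk => h1.2.2.2.1 (d2 k hk)⟩

end Pool.Agent.MP_5baa61_gt.JB
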