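import Pool.Agent.MP_5baa61_gt.JA.Spec

/-! Part B, plain layer: records, sequents, finite conditions, the walk. -/

namespace Pool.Agent.MP_5baa61_gt.JB

open Set Function
open Pool.Agent.MP_5baa61_gt.JA (Cell Move Sk Pat inC Disj SkWf Un TLp Legal)
open scoped Classical

universe u

/-- The record of one step: `A`, `req`, `cum`, `cumA`, `K`, `Y`, `Lu`. -/
abbrev Zt : Type := (ℕ → Prop) × (ℕ → Pat → Prop) × (ℕ → Pat → Prop) × (ℕ → ℕ → Prop) ×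
  (ℕ → Prop) × (ℕ → Pat → Prop) × (ℕ → ℕ → Finset ℕ → Prop)

abbrev Zt.A (z : Zt) : ℕ → Prop := z.1
abbrev Zt.req (z : Zt) : ℕ → Pat → Prop := z.2.1
abbrev Zt.cum (z : Zt) : ℕ → Pat → Prop := z.2.2.1
abbrev Zt.cumA (z : Zt) : ℕ → ℕ → Prop := z.2.2.2.1
abbrev Zt.K (z : Zt) : ℕ → Prop := z.2.2.2.2.1
abbrev Zt.Y (z : Zt) : ℕ → Pat → Prop := z.2.2.2.2.2.1
abbrev Zt.Lu (z : Zt) : ℕ → ℕ → Finset ℕ → Prop := z.2.2.2.2.2.2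

/-- A history: the functions and records of the earlier steps, listed by naturals. -/
abbrev Hs : Type := ℕ → (ℕ → ℕ) × Zt
/-- A family of finite sets of cells, with levels. -/
abbrev Vf : Type := ℕ → Finset Cell → Prop

def Bd (H : Hs) (l a m : ℕ) : Prop := a < m ∧ ∀ j < l, ∀ b ≤ a, (H j).1 b < m
def BB (H : Hs) (l m k : ℕ) : Prop := ∀ j < l, (H j).2.A k ∧ (H j).2.cumA m k
def RQ (H : Hs) (l a m : ℕ) (p : Pat) : Prop := ∀ j < l, (H j).2.req a p ∧ (H j).2.cum m p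

/-- Every cell of `c'` contains a cell of `c`. -/
def Cov (c c' : Finset Cell) : Prop := ∀ J ∈ c', ∃ C ∈ c, J.1 ≤ C.1 ∧ C.2 ≤ J.2

/-- The family decreases with the level and is closed under covering. -/
def Fm (V : Vf) : Prop :=
  (∀ l l' c, l' ≤ l → V l c → V l' c) ∧ ∀ l c c', Cov c c' → V l c' → V l c

/-- A skeleton of level `l` whose offers lie in the family. -/
def SkV (V : Vf) (l : ℕ) (s : Sk) : Prop :=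
  SkWf s ∧ Un l l s ∧ (∀ J ∈ s.1, l ≤ J.1) ∧ ∀ c ∈ s.2, 2 ≤ c.card ∧ V l c

/-- Long skeletons of all levels inside the family. -/
def Lng (h : ℕ → ℕ) (V : Vf) : Prop := ∀ l, ∃ s, SkV V l s ∧ ∀ J ∈ s.1, h J.1 < J.2

/-- The clause of the promise at one cell `J`. -/
def PrJ (H : Hs) (K : ℕ → Prop) (l : ℕ) (p : Pat) (y : Finset ℕ) (J : Cell) : Prop :=
  ∃ (m0 b1 b2 : ℕ) (w : Pat), Bd H l J.1 m0 ∧ J.1 ≤ b1 ∧ Bd H l b1 b2 ∧ Bd H l b2 J.2 ∧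
    w.1 ⊆ p.1 ∧ RQ H l J.1 m0 w ∧ ∀ C ∈ w.1, J.1 ≤ C.1 ∧ C.2 ≤ b1 ∧
      (∀ k ∈ p.2, inC C k → k ∈ w.2 ∧ k ∈ y) ∧ (∀ k ∈ w.2, inC C k → BB H l m0 k) ∧
        ∃ k ∈ w.2, inC C k ∧ K k

def Prom (H : Hs) (V : Vf) (K : ℕ → Prop) (Y : ℕ → Pat → Prop) (l : ℕ) (p : Pat) : Prop :=
  ∃ (s : Sk) (y : Finset ℕ), SkV V l s ∧ (∀ c ∈ s.2, ∀ l' ≤ l, Y l' (c, y)) ∧
    ∀ J ∈ s.1, PrJ H K l p y J

/-- The elements of `c` lie in different cells of `Pi` that start at `l` or later. -/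
def Sel (Pi : Cell → Prop) (l : ℕ) (c : Finset ℕ) : Prop :=
  ∃ σ : ℕ →₀ Cell, (∀ k ∈ c, Pi (σ k) ∧ inC (σ k) k ∧ l ≤ (σ k).1) ∧
    ∀ k ∈ c, ∀ k' ∈ c, σ k = σ k' → k = k'

def Ps1 (Pi : Cell → Prop) (H : Hs) : Prop := ∀ l, ∃ p : Pat, p.1.Nonempty ∧
  (∀ C ∈ p.1, Pi C ∧ l ≤ C.1 ∧ (∃ k ∈ p.2, inC C k) ∧
    ∀ k ∈ p.2, inC C k → ∀ j < l, (H j).2.A k) ∧ ∀ j < l, (H j).2.req l p

def Ps2 (Pi : Cell → Prop) (a : ℕ) (X : Move → Prop) (z : Zt) : Prop :=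
  (∀ l p, z.req l p → TLp a X p) ∨ ∀ t, X t → ¬ Legal Pi a z.A t

def Ps3 (H : Hs) (V : Vf) (z : Zt) : Prop := ∀ l p, z.req l p → Prom H V z.K z.Y l p

def Ps4 (Pi : Cell → Prop) (H : Hs) (z : Zt) : Prop := ∀ m l0 l, ∃ c : Finset ℕ,
  (∀ l' ≤ l0, z.Lu m l' c) ∧ Sel Pi l c ∧ ∀ k ∈ c, ∀ j < l, (H j).2.A k

def Ps5 (H : Hs) (z : Zt) : Prop := ∀ m, ∀ i < m,
  (∀ p, z.cum m p → (H i).2.req m p) ∧ ∀ k, z.cumA m k → (H i).2.A k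

/-- The witness of the new family: cells `L0`, a set `y`, new right ends `φ`. `N1 j` bounds the
set with index `e g j` from above, `N2 j i` and `P2 j i` bound the set with index `e (e g j) i`
from above and from below. -/
def G2w (N1 : ℕ → ℕ → Prop) (N2 P2 : ℕ → ℕ → ℕ → Prop) (z : Zt) (l : ℕ) (L0 : Finset Cell)
    (y : Finset ℕ) (φ : Cell → ℕ) : Prop :=
  Disj L0 ∧ 2 ≤ L0.card ∧ (∀ l' ≤ l, z.Y l' (L0, y)) ∧ ∀ J ∈ L0, l ≤ J.1 ∧ J.1 < φ J ∧ φ J ≤ J.2 ∧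
    (∀ j < l, ∀ k, inC (J.1, φ J) k → N1 j k → k ∈ y) ∧ ∀ j < l, ∀ i, inC (J.1, φ J) i →
      (∀ J' ∈ L0, J.2 ≤ J'.1 → ∀ k, inC (J'.1, φ J') k → N2 j i k → z.K k) ∧
        ∀ m < l, ∃ c : Finset ℕ, (∀ l' ≤ φ J, z.Lu m l' c) ∧ ∀ k ∈ c, P2 j i k

/-- The new family. -/
def Vn (N1 : ℕ → ℕ → Prop) (N2 P2 : ℕ → ℕ → ℕ → Prop) (z : Zt) : Vf := fun l c =>
  ∃ (L0 : Finset Cell) (y : Finset ℕ) (φ : Cell →₀ ℕ), G2w N1 N2 P2 z l L0 y φ ∧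
    ∀ J ∈ L0, ∃ C ∈ c, J.1 ≤ C.1 ∧ C.2 ≤ φ J

/-- What the generic family does at a good step. -/
def G2 (D1 : ℕ → ℕ → Prop) (D2 : ℕ → ℕ → ℕ → Prop) (z : Zt) (h : ℕ → ℕ) : Prop :=
  ∀ l, ∃ (L0 : Finset Cell) (y : Finset ℕ) (φ : Cell →₀ ℕ), G2w D1 D2 D2 z l L0 y φ ∧
    ∀ J ∈ L0, h J.1 < φ J

/-- Finite conditions: support, stems, side conditions, height. -/
abbrev Cn (O : Type u) : Type u := Finset O × Finset (O × ℕ) × Finset (O × O) × ℕ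

variable {O : Type u}

abbrev Cn.E (q : Cn O) : Finset O := q.1
abbrev Cn.s (q : Cn O) : Finset (O × ℕ) := q.2.1
abbrev Cn.F (q : Cn O) : Finset (O × O) := q.2.2.1
abbrev Cn.n (q : Cn O) : ℕ := q.2.2.2

def Cn.top : Cn O := (∅, ∅, ∅, 0)

def Cn.Wf (q : Cn O) : Prop := (∀ x ∈ q.s, x.1 ∈ q.E ∧ x.2 < q.n) ∧ ∀ x ∈ q.F, x.1 ∈ q.E

/-- The condition `q'` extends `q`. -/
def leC (Pi : Cell → Prop) (A : O → ℕ → Prop) (q' q : Cn O) : Prop :=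
  q'.Wf ∧ q.Wf ∧ q.E ⊆ q'.E ∧ q.s ⊆ q'.s ∧ q.F ⊆ q'.F ∧ q.n ≤ q'.n ∧ ∃ σ : O × ℕ → Cell,
    (∀ x ∈ q'.s, x.1 ∈ q.E → x ∉ q.s → Pi (σ x) ∧ inC (σ x) x.2 ∧ q.n ≤ (σ x).1 ∧
      ∀ z, (x.1, z) ∈ q.F → A z x.2) ∧
    ∀ x ∈ q'.s, ∀ x' ∈ q'.s, x.1 ∈ q.E → x ∉ q.s → x'.1 ∈ q.E → x' ∉ q.s → σ x = σ x' → x = x'

noncomputable def Cn.map (e : ℕ → O) (c : Cn ℕ) : Cn O :=
  (c.E.image e, c.s.image fun x => (e x.1, x.2), c.F.image fun x => (e x.1, e x.2), c.n)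

/-- The part of a condition with support and side indices in `d`. -/
noncomputable def Cn.cut (d : O → Prop) (q : Cn O) : Cn O :=
  (q.E.filter d, q.s.filter fun x => d x.1, q.F.filter fun x => d x.1 ∧ d x.2, q.n)

/-- The coded condition with support `range a`, stems `s` (pairs (element, role)), height `a`. -/
noncomputable def base (a : ℕ) (s : Move) : Cn ℕ := (Finset.range a, s.image Prod.swap, ∅, a)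

def Stm (a : ℕ) (s : Move) : Prop := ∀ x ∈ s, x.1 < a ∧ x.2 < a

/-- `c` extends the base, decides the value `v` at `a`, and `t` is its new part. -/
def Wit (Pi : Cell → Prop) (dc : Cn ℕ → ℕ → ℕ → Prop) (a : ℕ) (s t : Move) (c : Cn ℕ) (v : ℕ) :
    Prop := leC Pi (fun _ _ => True) c (base a s) ∧ dc c a v ∧
  ∀ x : ℕ × ℕ, x ∈ t ↔ x.swap ∈ c.s ∧ x.2 < a ∧ x ∉ s

def XS (Pi : Cell → Prop) (dc : Cn ℕ → ℕ → ℕ → Prop) (a : ℕ) (s t : Move) : Prop :=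
  ∃ c v, Wit Pi dc a s t c v

def Sz (c : Cn ℕ) (m : ℕ) : Prop := (∀ i ∈ c.E, i ≤ m) ∧ (∀ x ∈ c.F, x.2 ≤ m) ∧ c.n ≤ m

/-- The function `f` bounds one witness for every move. -/
def Tk (Pi : Cell → Prop) (dc : Cn ℕ → ℕ → ℕ → Prop) (f : ℕ → ℕ) : Prop :=
  ∀ b a s t, a ≤ b → Stm a s → XS Pi dc a s t → (∀ x ∈ t, x.1 < b) →
    ∃ c v, Wit Pi dc a s t c v ∧ Sz c (f b) ∧ v ≤ f b

/-- The pair is not excluded by the condition. -/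
def Cn.N (q : Cn O) (ξ : O) (k : ℕ) : Prop := ξ ∈ q.E → k < q.n → (ξ, k) ∈ q.s
def Cn.P (q : Cn O) (ξ : O) (k : ℕ) : Prop := (ξ, k) ∈ q.s

/-- The data of the walk at a step `g`: `eg = e g`, `ed = e δ`, `ez j = e (e g j)`. -/
structure Walk (Pi : Cell → Prop) (A : O → ℕ → Prop) (o : O → Prop) (eg ed : ℕ → O)
    (ez : ℕ → ℕ → O) (H : Hs) (V : Vf) (z : Zt) (dc : Cn ℕ → ℕ → ℕ → Prop) (q : Cn O) : Prop where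
  fm : Fm V
  wf : q.Wf
  ied : Injective ed
  iez : ∀ j, Injective (ez j)
  oE : ∀ ξ ∈ q.E, o ξ
  oF : ∀ x ∈ q.F, o x.2
  og : ∀ j, o (eg j)
  od : ∀ i, o (ed i)
  oz : ∀ j i, o (ez j i)
  hc : ∀ j, ∃ j', ∀ b i i', i < b → ez j i = ed i' → i' ≤ (H j').1 b
  hd : ∃ j, ∀ m, ∀ i < m, ∀ k, (H j).2.cumA m k → A (ed i) k
  ht : ∃ j1 j2, Tk Pi dc (H j2).1 ∧ ∀ a s m p, Stm a s → (H j2).1 a < m → (H j1).2.cum m p →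
    TLp a (XS Pi dc a s) p
  hp : ∀ l0, ∃ l, l0 ≤ l ∧ ∃ p : Pat, Prom H V z.K z.Y l p ∧ ∀ C ∈ p.1, Pi C ∧
    (∃ k ∈ p.2, inC C k) ∧ ∀ k ∈ p.2, inC C k → ∀ x ∈ q.F, A x.2 k
  hl : ∀ m l0 l n, ∃ c : Finset ℕ, (∀ l' ≤ l0, z.Lu m l' c) ∧ Sel Pi l c ∧
    ∀ k ∈ c, ∀ i < n, A (ed i) k

/-- The result of the walk. -/
def Out (Pi : Cell → Prop) (A : O → ℕ → Prop) (eg ed : ℕ → O) (ez : ℕ → ℕ → O) (V : Vf) (z : Zt)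
    (dc : Cn ℕ → ℕ → ℕ → Prop) (q : Cn O) (l : ℕ) (q' : Cn O) (s : Sk) : Prop :=
  leC Pi A q' q ∧ SkV (fun l c => V l c ∧ Vn (fun j => q'.N (eg j)) (fun j i => q'.N (ez j i))
    (fun j i => q'.P (ez j i)) z l c) l s ∧
    ∀ J ∈ s.1, ∃ c v, leC Pi A q' (Cn.map ed c) ∧ dc c J.1 v ∧ v < J.2

/-! Statements -/

def S_le : Prop := ∀ (O : Type u) (Pi : Cell → Prop) (A : O → ℕ → Prop),
  (∀ q : Cn O, q.Wf → leC Pi A q q ∧ leC Pi A q Cn.top) ∧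
  (∀ q r s, leC Pi A q r → leC Pi A r s → leC Pi A q s) ∧
  (∀ q r : Cn O, q.Wf → r.Wf → q.n = r.n →
    (∀ ξ ∈ q.E, ξ ∈ r.E → ∀ k, (ξ, k) ∈ q.s ↔ (ξ, k) ∈ r.s) →
      ∃ u, leC Pi A u q ∧ leC Pi A u r) ∧
  ∀ (q : Cn O) (E : Finset O) (F : Finset (O × O)) (n : ℕ), q.Wf → (∀ x ∈ F, x.1 ∈ E) → q.n ≤ n →
    leC Pi A (q.E ∪ E, q.s, q.F ∪ F, n) q

/-- A move that is legal inside the set with index `z`. -/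
def S_kill : Prop := ∀ (O : Type u) (Pi : Cell → Prop) (A : O → ℕ → Prop) (ed : ℕ → O)
  (d : O → Prop) (dc : Cn ℕ → ℕ → ℕ → Prop) (a v : ℕ) (s : Move) (z : O) (q m : Cn O),
  Injective ed → (∀ i, d (ed i)) → (∀ ξ ∈ q.E, d ξ → ∃ i, ed i = ξ) →
  (∀ x ∈ q.F, d x.2 → ∃ i, ed i = x.2) →
  leC Pi A q ((Cn.map ed (base a s)).E, (Cn.map ed (base a s)).s,
    (Finset.range a).image fun i => (ed i, z), a) →
  leC Pi A q m → (∀ ξ ∈ m.E, d ξ) → (∀ x ∈ m.F, d x.2) →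
  (∀ c, leC Pi A (Cn.map ed c) m → dc c a v) → ∃ t, XS Pi dc a s t ∧ Legal Pi a (A z) t

/-- Some function bounds witnesses. -/
def S_tk : Prop := ∀ (Pi : Cell → Prop) (dc : Cn ℕ → ℕ → ℕ → Prop) (b : ℕ), ∃ m0, ∀ m, m0 ≤ m →
  ∀ a s t, a ≤ b → Stm a s → XS Pi dc a s t → (∀ x ∈ t, x.1 < b) →
    ∃ c v, Wit Pi dc a s t c v ∧ Sz c m ∧ v ≤ m

def S_walk : Prop := ∀ (O : Type u) (Pi : Cell → Prop) (A : O → ℕ → Prop) (o : O → Prop)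
  (eg ed : ℕ → O) (ez : ℕ → ℕ → O) (H : Hs) (V : Vf) (z : Zt) (dc : Cn ℕ → ℕ → ℕ → Prop)
  (q : Cn O), Walk Pi A o eg ed ez H V z dc q → ∀ l, ∃ q' s, (∀ ξ ∈ q'.E, o ξ) ∧
    (∀ x ∈ q'.F, o x.2) ∧ Out Pi A eg ed ez V z dc q l q' s

def S_vn : Prop := ∀ (N1 N1' : ℕ → ℕ → Prop) (N2 P2 N2' P2' : ℕ → ℕ → ℕ → Prop) (z : Zt),
  Fm (Vn N1 N2 P2 z) ∧
  ((∀ j k, N1' j k → N1 j k) → (∀ j i k, N2' j i k → N2 j i k) → (∀ j i k, P2 j i k → P2' j i k) →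
    ∀ l c, Vn N1 N2 P2 z l c → Vn N1' N2' P2' z l c) ∧
  ∀ h h' : ℕ → ℕ, (∀ a b, a ≤ b → h a ≤ h' b) → Lng h' (Vn N1 N2 N2 z) → G2 N1 N2 z h

end Pool.Agent.MP_5baa61_gt.JB
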