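import Pool.Agent.MP_5baa61_gt.JB.Spec

/-! Recursion on names along the ordinals. -/

namespace Pool.Agent.MP_5baa61_gt.JB

open Set Function Pool.Agent.MP_5baa61_gt.JK
open Pool.Agent.MP_b60a07_lc.H92 (Od U Rl t0 Good Ext sup)
open scoped Classical

/-- Names `Z g` are chosen from the sequence of the earlier names. -/
theorem rec_names {Y : Type} [MeasurableSpace Y] {b : Rl} [PO b] {e : Od → Set U → ℕ → Od}
    (lv : Lv b e) (z0 : Y) (P : Od → (Set U → ℕ → Y) → (Set U → Y) → Prop)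
    (h : ∀ g, w0 ≤ g → ∀ u, NB b u → ∃ y, NB b y ∧ P g u y) :
    ∃ Z : Od → Set U → Y, (∀ z, NB b (Z z)) ∧ (∀ z < w0, Z z = fun _ => z0) ∧
      ∀ g, w0 ≤ g → P g (fun G j => Z (e g G j) G) (Z g) := by
  choose F f1 f2 using h
  let Z : Od → Set U → Y := (wellFounded_lt (α := Od)).fix fun g r =>
    if hg : w0 ≤ g ∧ NB b fun G j => if hz : e g G j < g then r (e g G j) hz G else z0 then
      F g hg.1 _ hg.2 else fun _ => z0
  have hZ : ∀ g, Z g = if hg : w0 ≤ g ∧ NB b fun G j => if e g G j < g then Z (e g G j) G else z0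
      then F g hg.1 _ hg.2 else fun _ => z0 := fun g => WellFounded.fix_eq _ _ g
  have nZ : ∀ g, NB b (Z g) := fun g => by
    rw [hZ]
    split_ifs with hg
    exacts [f1 _ _ _ _, nb_const _]
  refine ⟨Z, nZ, fun z hz => (hZ z).trans (dif_neg fun h => hz.not_ge h.1), fun g hg => ?_⟩
  have e1 : (fun G j => if e g G j < g then Z (e g G j) G else z0) = fun G j => Z (e g G j) G :=
    funext₂ fun G j => if_pos ((lv.lt g G j).trans_eq (max_eq_left hg))
  have h1 : NB b fun G j => if e g G j < g then Z (e g G j) G else z0 := by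
    rw [e1]
    exact nb_pi fun j => (lv.no g j).sel nZ
  rw [← e1, hZ g, dif_pos ⟨hg, h1⟩]
  exact f2 _ _ _ _

/-- A statement forced for every ordinal is forced at a name of an ordinal. -/
theorem fc_sel {b : Rl} [PO b] {q : U} {ε : Set U → Od} (h : NO b ε) {S : Od → Set U → Prop}
    (e : ∀ z, Fc b q (S z)) : Fc b q fun G => S (ε G) G :=
  .glue fun r hr => let ⟨s, z, h1, h2⟩ := h.val r (PO.l hr)
    ⟨s, h1, (((e z).mono (PO.tr h1 hr)).and h2).imp fun _ h => h.2 ▸ h.1⟩

end Pool.Agent.MP_5baa61_gt.JB
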