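import Pool.Agent.MP_5baa61_gt.JB.Pl
import Pool.Agent.MP_5baa61_gt.JF.All

/-! Part B, plain layer: the walk through the cells of the promise. -/

namespace Pool.Agent.MP_5baa61_gt.JB

open Set Function
open Pool.Agent.MP_5baa61_gt.JA (Cell Move Sk Pat inC Disj SkWf Un TLp Legal)
open scoped Classical

universe u

variable {O : Type u} {Pi : Cell → Prop} {A : O → ℕ → Prop}

/-- Below the height, an extension does not change the stems. -/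
theorem leC.frz {q' q : Cn O} (h : leC Pi A q' q) {ξ : O} {k : ℕ} (h1 : ξ ∈ q.E) (h2 : k < q.n)
    (h3 : (ξ, k) ∈ q'.s) : (ξ, k) ∈ q.s := by
  obtain ⟨-, -, -, -, -, -, σ, h4, -⟩ := h
  by_contra hn
  obtain ⟨-, h5, h6, -⟩ := h4 _ h3 h1 hn
  exact absurd (h6.trans h5.1) (not_le.2 h2)

theorem walk_bound {e : ℕ → O} (he : Injective e) (E : Finset O) :
    ∃ n, ∀ i, e i ∈ E → i < n := by
  obtain ⟨n, hn⟩ := ((E.finite_toSet).preimage he.injOn).bddAbove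
  exact ⟨n + 1, fun i hi => Nat.lt_succ_of_le (hn hi)⟩

/-- One set of `Lu` is put into the stem of `ξ`. -/
theorem walk_lu1 {ed : ℕ → O} (he : Injective ed) {Lu : Finset ℕ → Prop}
    (hl : ∀ l n, ∃ c : Finset ℕ, Lu c ∧ Sel Pi l c ∧ ∀ k ∈ c, ∀ i < n, A (ed i) k)
    {r : Cn O} (hr : r.Wf) {ξ : O} (h1 : ξ ∈ r.E) (h2 : ∀ x, (ξ, x) ∈ r.F → ∃ i, x = ed i) :
    ∃ r' : Cn O, leC Pi A r' r ∧ r'.E = r.E ∧ r'.F = r.F ∧ ∃ c, Lu c ∧ ∀ k ∈ c, (ξ, k) ∈ r'.s := by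
  obtain ⟨n, hn⟩ := walk_bound he (r.F.image Prod.snd)
  obtain ⟨c, c1, ⟨σ, c2, c3⟩, c4⟩ := hl r.n n
  have key : ∀ x ∈ r.s ∪ c.image (fun k => (ξ, k)), x ∉ r.s → x.1 = ξ ∧ x.2 ∈ c := by
    intro x hx hx'
    obtain ⟨k, hk, rfl⟩ := Finset.mem_image.1 ((Finset.mem_union.1 hx).resolve_left hx')
    exact ⟨rfl, hk⟩
  refine ⟨(r.E, r.s ∪ c.image (fun k => (ξ, k)), r.F, max r.n (c.sup id + 1)),
    ⟨⟨fun x hx => ?_, hr.2⟩, hr, Finset.Subset.refl _, Finset.subset_union_left,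
      Finset.Subset.refl _, le_max_left _ _, fun x => σ x.2, fun x hx _ hx' => ?_,
      fun x hx x' hx' _ g1 _ g2 e => ?_⟩, rfl, rfl, c, c1, fun k hk =>
      Finset.mem_union_right _ (Finset.mem_image_of_mem _ hk)⟩
  · by_cases g : x ∈ r.s
    · exact ⟨(hr.1 x g).1, lt_max_of_lt_left (hr.1 x g).2⟩
    · obtain ⟨g1, g2⟩ := key x hx g
      exact ⟨g1 ▸ h1, lt_max_of_lt_right (Nat.lt_succ_of_le (Finset.le_sup (f := id) g2))⟩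
  · obtain ⟨g1, g2⟩ := key x hx hx'
    obtain ⟨g3, g4, g5⟩ := c2 _ g2
    refine ⟨g3, g4, g5, fun y hy => ?_⟩
    obtain ⟨i, rfl⟩ := h2 y (g1 ▸ hy)
    exact c4 _ g2 i (hn i (Finset.mem_image.2 ⟨_, hy, rfl⟩))
  · obtain ⟨g3, g4⟩ := key x hx g1
    obtain ⟨g5, g6⟩ := key x' hx' g2
    exact Prod.ext (g3.trans g5.symm) (c3 _ g4 _ g6 e)

theorem walk_lu (hle : S_le.{u}) {ed : ℕ → O} (he : Injective ed) {Lu : ℕ → Finset ℕ → Prop}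
    (hl : ∀ m l n, ∃ c : Finset ℕ, Lu m c ∧ Sel Pi l c ∧ ∀ k ∈ c, ∀ i < n, A (ed i) k)
    {r : Cn O} (hr : r.Wf) (T : Finset (O × ℕ))
    (hT : ∀ t ∈ T, t.1 ∈ r.E ∧ ∀ x, (t.1, x) ∈ r.F → ∃ i, x = ed i) :
    ∃ r' : Cn O, leC Pi A r' r ∧ r'.E = r.E ∧ r'.F = r.F ∧
      ∀ t ∈ T, ∃ c, Lu t.2 c ∧ ∀ k ∈ c, (t.1, k) ∈ r'.s := by
  induction T using Finset.induction_on with
  | empty => exact ⟨r, ((hle O Pi A).1 r hr).1, rfl, rfl, fun t ht => absurd ht (by simp)⟩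
  | insert t T _ ih =>
    obtain ⟨r1, a1, a2, a3, a4⟩ := ih fun t ht => hT t (Finset.mem_insert_of_mem ht)
    obtain ⟨b1, b2⟩ := hT t (Finset.mem_insert_self _ _)
    obtain ⟨r2, c1, c2, c3, c4⟩ := walk_lu1 he (hl t.2) a1.1 (a2 ▸ b1) (a3 ▸ b2)
    refine ⟨r2, (hle O Pi A).2.1 _ _ _ c1 a1, c2.trans a2, c3.trans a3, fun t' ht' => ?_⟩
    rcases Finset.mem_insert.1 ht' with rfl | ht'
    · exact c4
    · obtain ⟨c, d1, d2⟩ := a4 t' ht'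
      exact ⟨c, d1, fun k hk => c1.2.2.2.1 (d2 k hk)⟩

/-- The condition `r` is ready for a cell that starts at `a`. -/
def WInv (ed : ℕ → O) (T : ℕ → ℕ) (q r : Cn O) (a : ℕ) : Prop :=
  r.n ≤ a ∧ (∀ i, ed i ∈ r.E → i < a) ∧
    ∀ x ∈ r.F, x ∈ q.F ∨ ∃ i b, x.2 = ed i ∧ b ≤ a ∧ i ≤ T b

theorem WInv.mono {ed : ℕ → O} {T : ℕ → ℕ} {q r : Cn O} {a a' : ℕ} (h : WInv ed T q r a)
    (e : a ≤ a') : WInv ed T q r a' :=
  ⟨h.1.trans e, fun i hi => (h.2.1 i hi).trans_le e, fun x hx => (h.2.2 x hx).imp id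
    fun ⟨i, b, h1, h2, h3⟩ => ⟨i, b, h1, h2.trans e, h3⟩⟩

/-- The step at one cell. -/
theorem walk_step {ed : ℕ → O} (he : Injective ed) {dc : Cn ℕ → ℕ → ℕ → Prop} {T : ℕ → ℕ}
    (hT : Tk Pi dc T) {q r : Cn O} (hq : q.Wf) (hr : r.Wf) {E0 : Finset O} (hE : q.E ⊆ E0)
    {a b1 b2 : ℕ} (hI : WInv ed T q r a) (h1 : a ≤ b1) (h2 : b1 < b2) (h3 : T b1 < b2)
    {K Y : ℕ → Prop} {w : Pat} (hw : ∀ s, Stm a s → TLp a (XS Pi dc a s) w)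
    (hC : ∀ C ∈ w.1, Pi C ∧ a ≤ C.1 ∧ C.2 ≤ b1 ∧
      (∃ k ∈ w.2, inC C k ∧ Y k ∧ ∀ x ∈ q.F, A x.2 k) ∧ (∃ k ∈ w.2, inC C k ∧ K k) ∧
        ∀ k ∈ w.2, inC C k → ∀ i b, b ≤ a → i ≤ T b → A (ed i) k) (Z : Finset O) :
    ∃ r' : Cn O, leC Pi A r' r ∧ r'.n = b2 ∧ Z ⊆ r'.E ∧
      (∀ ξ ∈ r'.E, ξ ∈ r.E ∨ ξ ∈ Z ∨ ∃ i, i ≤ T b1 ∧ ξ = ed i) ∧
      (∀ x ∈ r'.F, x ∈ r.F ∨ ∃ i, i ≤ T b1 ∧ x.2 = ed i) ∧
      (∃ c v, leC Pi A r' (Cn.map ed c) ∧ dc c a v ∧ v < b2) ∧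
      ∀ ξ ∈ r.E, ∀ k, a ≤ k → (ξ, k) ∈ r'.s → (ξ ∈ E0 → Y k) ∧ (ξ ∉ E0 → K k) := by
  let s : Move := (Finset.range a ×ˢ Finset.range a).filter fun x => (ed x.2, x.1) ∈ r.s
  have ms : ∀ x, x ∈ s ↔ (x.1 < a ∧ x.2 < a) ∧ (ed x.2, x.1) ∈ r.s := fun x => by
    simp only [s, Finset.mem_filter, Finset.mem_product, Finset.mem_range]
  have hs : Stm a s := fun x hx => ((ms x).1 hx).1
  have ex : ∀ u : Cell × ℕ, ∃ k, u.1 ∈ w.1 → k ∈ w.2 ∧ inC u.1 k ∧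
      (ed u.2 ∈ E0 → Y k ∧ ∀ x ∈ q.F, A x.2 k) ∧ (ed u.2 ∉ E0 → K k) := by
    intro u
    by_cases g : u.1 ∈ w.1
    · obtain ⟨-, -, -, ⟨k, k1, k2, k3⟩, ⟨k', k4, k5, k6⟩, -⟩ := hC _ g
      by_cases g' : ed u.2 ∈ E0
      · exact ⟨k, fun _ => ⟨k1, k2, fun _ => k3, fun h => absurd g' h⟩⟩
      · exact ⟨k', fun _ => ⟨k4, k5, fun h => absurd h g', fun _ => k6⟩⟩
    · exact ⟨0, fun h => absurd h g⟩
  choose f0 hf0 using ex
  let f : Cell × ℕ →₀ ℕ := Finsupp.onFinset (w.1 ×ˢ Finset.range a)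
    (fun u => if u ∈ w.1 ×ˢ Finset.range a then f0 u else 0) fun u hu => by
      by_contra g; exact hu (if_neg g)
  have hf : ∀ C ∈ w.1, ∀ ρ < a, f (C, ρ) = f0 (C, ρ) := fun C g1 ρ g2 =>
    if_pos (Finset.mem_product.2 ⟨g1, Finset.mem_range.2 g2⟩)
  obtain ⟨t, t1, g, g1, g2⟩ := hw s hs f fun C g1 ρ g2 => by
    rw [hf C g1 ρ g2]; exact ⟨(hf0 (C, ρ) g1).1, (hf0 (C, ρ) g1).2.1⟩
  have ht : ∀ x ∈ t, g x ∈ w.1 ∧ x.1 ∈ w.2 ∧ inC (g x) x.1 ∧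
      (ed x.2 ∈ E0 → Y x.1 ∧ ∀ y ∈ q.F, A y.2 x.1) ∧ (ed x.2 ∉ E0 → K x.1) := fun x hx => by
    obtain ⟨e1, e2, e3⟩ := g1 x hx
    rw [hf _ e1 _ e2] at e3
    have := hf0 (g x, x.2) e1
    rw [← e3] at this
    exact ⟨e1, this⟩
  obtain ⟨c, v, ⟨⟨cw, -, -, cs, -, -, -⟩, c2, c3⟩, ⟨z1, z2, z3⟩, c4⟩ :=
    hT b1 a s t h1 hs t1 fun x hx => (ht x hx).2.2.1.2.trans_le (hC _ (ht x hx).1).2.2.1
  have mw : (Cn.map ed c).Wf := by
    refine ⟨fun x hx => ?_, fun x hx => ?_⟩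
    · obtain ⟨y, hy, rfl⟩ := Finset.mem_image.1 hx
      exact ⟨Finset.mem_image_of_mem _ (cw.1 y hy).1, (cw.1 y hy).2⟩
    · obtain ⟨y, hy, rfl⟩ := Finset.mem_image.1 hx
      exact Finset.mem_image_of_mem _ (cw.2 y hy)
  let r' : Cn O := (r.E ∪ ((Cn.map ed c).E ∪ Z), r.s ∪ (Cn.map ed c).s, r.F ∪ (Cn.map ed c).F, b2)
  have rw' : r'.Wf := by
    refine ⟨fun x hx => ?_, fun x hx => ?_⟩
    · rcases Finset.mem_union.1 hx with hx | hx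
      · exact ⟨Finset.mem_union_left _ (hr.1 x hx).1,
          (hr.1 x hx).2.trans_le (hI.1.trans (h1.trans h2.le))⟩
      · exact ⟨Finset.mem_union_right _ (Finset.mem_union_left _ (mw.1 x hx).1),
          (mw.1 x hx).2.trans_le (z3.trans h3.le)⟩
    · rcases Finset.mem_union.1 hx with hx | hx
      · exact Finset.mem_union_left _ (hr.2 x hx)
      · exact Finset.mem_union_right _ (Finset.mem_union_left _ (mw.2 x hx))
  have new : ∀ x ∈ r'.s, x.1 ∈ r.E → x ∉ r.s →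
      x.1 = ed (invFun ed x.1) ∧ (x.2, invFun ed x.1) ∈ t := by
    intro x hx e1 e2
    obtain ⟨y, hy, rfl⟩ := Finset.mem_image.1 ((Finset.mem_union.1 hx).resolve_left e2)
    rw [leftInverse_invFun he]
    exact ⟨rfl, (c3 _).2 ⟨hy, hI.2.1 _ e1, fun h => e2 ((ms _).1 h).2⟩⟩
  refine ⟨r', ⟨rw', hr, Finset.subset_union_left, Finset.subset_union_left,
    Finset.subset_union_left, hI.1.trans (h1.trans h2.le), fun x => g (x.2, invFun ed x.1),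
    fun x hx e1 e2 => ?_, fun x hx x' hx' e1 e2 e3 e4 e => ?_⟩, rfl,
    Finset.subset_union_right.trans Finset.subset_union_right, fun ξ hξ => ?_, fun x hx => ?_,
    ⟨c, v, ⟨rw', mw, Finset.subset_union_left.trans Finset.subset_union_right,
      Finset.subset_union_right, Finset.subset_union_right, z3.trans h3.le, ?_⟩, c2,
      c4.trans_lt h3⟩, fun ξ hξ k hk hx => ?_⟩
  · obtain ⟨n1, n2⟩ := new x hx e1 e2
    obtain ⟨u1, u2, u3, u4, -⟩ := ht _ n2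
    obtain ⟨p1, p2, -, -, -, p3⟩ := hC _ u1
    refine ⟨p1, u3, hI.1.trans p2, fun y hy => ?_⟩
    rcases hI.2.2 _ hy with hy | ⟨i, b, e3, e4, e5⟩
    · exact (u4 (n1 ▸ hE (hq.2 _ hy))).2 _ hy
    · exact (show y = ed i from e3) ▸ p3 _ u2 u3 i b e4 e5
  · obtain ⟨n1, n2⟩ := new x hx e1 e2
    obtain ⟨n3, n4⟩ := new x' hx' e3 e4
    have := Prod.ext_iff.1 (g2 _ n2 _ n4 e)
    exact Prod.ext (n1.trans ((congrArg ed this.2).trans n3.symm)) this.1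
  · rcases Finset.mem_union.1 hξ with hξ | hξ
    · exact Or.inl hξ
    · rcases Finset.mem_union.1 hξ with hξ | hξ
      · obtain ⟨i, hi, rfl⟩ := Finset.mem_image.1 hξ
        exact Or.inr (Or.inr ⟨i, z1 i hi, rfl⟩)
      · exact Or.inr (Or.inl hξ)
  · refine (Finset.mem_union.1 hx).imp id fun hx => ?_
    obtain ⟨y, hy, rfl⟩ := Finset.mem_image.1 hx
    exact ⟨y.2, z2 y hy, rfl⟩
  · have no : ∀ x ∈ r'.s, x.1 ∈ (Cn.map ed c).E → x ∈ (Cn.map ed c).s := by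
      intro x hx e1
      rcases Finset.mem_union.1 hx with hx | hx
      · obtain ⟨i, -, hi⟩ := Finset.mem_image.1 e1
        have e2 : (x.2, i) ∈ s := (ms _).2 ⟨⟨(hr.1 x hx).2.trans_le hI.1,
          hI.2.1 i (hi ▸ (hr.1 x hx).1)⟩, by rw [hi]; exact hx⟩
        exact Finset.mem_image.2 ⟨(i, x.2), cs (Finset.mem_image.2 ⟨_, e2, rfl⟩), by rw [hi]⟩
      · exact hx
    exact ⟨fun _ => (0, 0), fun x hx e1 e2 => absurd (no x hx e1) e2,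
      fun x hx _ _ e1 e2 => absurd (no x hx e1) e2⟩
  · obtain ⟨n1, n2⟩ := new _ hx hξ fun h => absurd ((hr.1 _ h).2.trans_le hI.1) (not_lt.2 hk)
    obtain ⟨-, -, -, u4, u5⟩ := ht _ n2
    exact ⟨fun h => (u4 (n1 ▸ h)).1, fun h => u5 (n1 ▸ h)⟩

/-- What the condition `r` records about the cell `J`. -/
def WRec (Pi : Cell → Prop) (A : O → ℕ → Prop) (ed : ℕ → O) (ez : ℕ → ℕ → O) (K : ℕ → Prop)
    (dc : Cn ℕ → ℕ → ℕ → Prop) (E0 : Finset O) (l0 : ℕ) (L : Finset Cell) (y : Finset ℕ)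
    (φ : Cell → ℕ) (r : Cn O) (J : Cell) : Prop :=
  φ J ≤ r.n ∧ (∃ c v, leC Pi A r (Cn.map ed c) ∧ dc c J.1 v ∧ v < φ J) ∧
    (∀ ξ ∈ E0, ∀ k, inC (J.1, φ J) k → (ξ, k) ∈ r.s → k ∈ y) ∧
    (∀ j < l0, ∀ i, inC (J.1, φ J) i → ez j i ∈ r.E) ∧
    ∀ J0 ∈ L, J0.2 ≤ J.1 → ∀ j < l0, ∀ i, inC (J0.1, φ J0) i → ez j i ∈ r.E ∧
      ∀ k, inC (J.1, φ J) k → (ez j i, k) ∈ r.s → K k

theorem WRec.up (hle : S_le.{u}) {ed : ℕ → O} {ez : ℕ → ℕ → O} {K : ℕ → Prop}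
    {dc : Cn ℕ → ℕ → ℕ → Prop} {E0 : Finset O} {l0 : ℕ} {L : Finset Cell} {y : Finset ℕ}
    {φ : Cell → ℕ} {r r' : Cn O} {J : Cell} (h : WRec Pi A ed ez K dc E0 l0 L y φ r J)
    (hE : E0 ⊆ r.E) (e : leC Pi A r' r) : WRec Pi A ed ez K dc E0 l0 L y φ r' J := by
  obtain ⟨h1, ⟨c, v, h2, h3⟩, h4, h5, h6⟩ := h
  refine ⟨h1.trans e.2.2.2.2.2.1, ⟨c, v, (hle O Pi A).2.1 _ _ _ e h2, h3⟩,
    fun ξ hξ k hk hx => h4 ξ hξ k hk (e.frz (hE hξ) (hk.2.trans_le h1) hx),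
    fun j hj i hi => e.2.2.1 (h5 j hj i hi), fun J0 g1 g2 j hj i hi => ?_⟩
  obtain ⟨g3, g4⟩ := h6 J0 g1 g2 j hj i hi
  exact ⟨e.2.2.1 g3, fun k hk hx => g4 k hk (e.frz g3 (hk.2.trans_le h1) hx)⟩

theorem walk (hle : S_le.{u}) : S_walk.{u} := by
  intro O Pi A o eg ed ez H V z dc q W l0
  obtain ⟨jd, hd⟩ := W.hd
  obtain ⟨j1, j2, hT, ht⟩ := W.ht
  choose jc hc using W.hc
  let E0 : Finset O := q.E ∪ (Finset.range l0).image eg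
  obtain ⟨n1, hn1⟩ := walk_bound W.ied E0
  choose n2 hn2 using fun j => walk_bound (W.iez j) E0
  obtain ⟨l, hl, p, ⟨s, y, ⟨sw, su, sl, sv⟩, sy, sp⟩, hp⟩ := W.hp (l0 + q.n + (jd + 1) + (j1 + 1) +
    (j2 + 1) + n1 + (Finset.range l0).sup fun j => jc j + 1 + n2 j)
  have lj : ∀ j < l0, jc j < l ∧ n2 j ≤ l := fun j hj => by
    have := Finset.le_sup (f := fun j => jc j + 1 + n2 j) (Finset.mem_range.2 hj)
    beta_reduce at this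
    omega
  have ex : ∀ J, ∃ b2, J ∈ s.1 → ∃ (m0 b1 : ℕ) (w : Pat), Bd H l J.1 m0 ∧ J.1 ≤ b1 ∧
      Bd H l b1 b2 ∧ Bd H l b2 J.2 ∧ w.1 ⊆ p.1 ∧ RQ H l J.1 m0 w ∧ ∀ C ∈ w.1, J.1 ≤ C.1 ∧
        C.2 ≤ b1 ∧ (∀ k ∈ p.2, inC C k → k ∈ w.2 ∧ k ∈ y) ∧
          (∀ k ∈ w.2, inC C k → BB H l m0 k) ∧ ∃ k ∈ w.2, inC C k ∧ z.K k := fun J => by
    by_cases g : J ∈ s.1
    · obtain ⟨m0, b1, b2, w, h⟩ := sp J g
      exact ⟨b2, fun _ => ⟨m0, b1, w, h⟩⟩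
    · exact ⟨0, fun h => absurd h g⟩
  choose φ0 hφ0 using ex
  let φ : Cell →₀ ℕ := Finsupp.onFinset s.1 (fun J => if J ∈ s.1 then φ0 J else 0) fun J hJ => by
    by_contra g; exact hJ (if_neg g)
  have eφ : ∀ J ∈ s.1, φ J = φ0 J := fun J g => if_pos g
  have bφ : ∀ J ∈ s.1, J.1 < φ J ∧ φ J < J.2 := fun J g => by
    obtain ⟨m0, b1, w, -, g1, g2, g3, -⟩ := hφ0 J g
    rw [eφ J g]; exact ⟨g1.trans_lt g2.1, g3.1⟩
  have inj : ∀ J ∈ s.1, ∀ J' ∈ s.1, J.1 = J'.1 → J = J' := fun J g J' g' e =>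
    sw.1.eq g g' (e := J.1) ⟨le_rfl, sw.1.1 J g⟩ ⟨e.ge, e ▸ sw.1.1 J' g'⟩
  have main : ∀ N, ∃ r : Cn O, leC Pi A r q ∧ E0 ⊆ r.E ∧ (∀ ξ ∈ r.E, o ξ) ∧
      (∀ x ∈ r.F, x ∈ q.F ∨ ∃ i, x.2 = ed i) ∧
      (∀ J ∈ s.1, J.1 < N → WRec Pi A ed ez z.K dc E0 l0 s.1 y φ r J) ∧
      ∀ J ∈ s.1, N ≤ J.1 → WInv ed (H j2).1 q r J.1 := by
    intro N
    induction N with
    | zero =>
      refine ⟨(E0, q.s, q.F ∪ ∅, q.n), (hle O Pi A).2.2.2 q _ ∅ q.n W.wf (by simp) le_rfl,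
        Finset.Subset.refl _, fun ξ hξ => ?_, fun x hx => Or.inl (by simpa using hx),
        fun J _ h => absurd h (Nat.not_lt_zero _), fun J hJ _ => ⟨?_, fun i hi => ?_,
          fun x hx => Or.inl (by simpa using hx)⟩⟩
      · rcases Finset.mem_union.1 hξ with hξ | hξ
        · exact W.oE ξ hξ
        · obtain ⟨j, -, rfl⟩ := Finset.mem_image.1 hξ
          exact W.og j
      · have := sl J hJ
        show q.n ≤ J.1
        omega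
      · have := sl J hJ
        have := hn1 i hi
        omega
    | succ N ih =>
      obtain ⟨r, r1, r2, r3, r4, r5, r6⟩ := ih
      by_cases g : ∃ J ∈ s.1, J.1 = N
      swap
      · exact ⟨r, r1, r2, r3, r4, fun J hJ h => r5 J hJ (lt_of_le_of_ne (Nat.le_of_lt_succ h)
          fun e => g ⟨J, hJ, e⟩), fun J hJ h => r6 J hJ (Nat.le_of_succ_le h)⟩
      obtain ⟨J, hJ, rfl⟩ := g
      obtain ⟨m0, b1, w, p1, p2, p3, p4, p5, p6, p7⟩ := hφ0 J hJ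
      rw [← eφ J hJ] at p3 p4
      have hI := r6 J hJ le_rfl
      have l2 : j2 < l := by omega
      obtain ⟨r', a1, a2, a3, a4, a5, a6, a7⟩ := walk_step (A := A) (K := z.K) (Y := (· ∈ y))
        (w := w) W.ied hT W.wf r1.1 (E0 := E0) Finset.subset_union_left hI p2 p3.1
        (p3.2 j2 l2 b1 le_rfl)
        (fun s' hs' => ht J.1 s' m0 w hs' (p1.2 j2 l2 _ le_rfl) (p6 j1 (by omega)).2)
        (fun C hC => by
          obtain ⟨c1, c2, c3, c4, c5⟩ := p7 C hC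
          obtain ⟨d1, ⟨k, d2, d3⟩, d4⟩ := hp C (p5 hC)
          exact ⟨d1, c1, c2, ⟨k, (c3 k d2 d3).1, d3, (c3 k d2 d3).2, d4 k d2 d3⟩, c5,
            fun k e1 e2 i b e3 e4 => hd m0 i (e4.trans_lt (p1.2 j2 l2 b e3)) k
              (c4 k e1 e2 jd (by omega)).2⟩)
        ((Finset.range l0 ×ˢ Finset.range (φ J)).image fun u => ez u.1 u.2)
      have tb : (H j2).1 b1 < J.2 := p4.2 j2 l2 b1 p3.1.le
      refine ⟨r', (hle O Pi A).2.1 _ _ _ a1 r1, r2.trans a1.2.2.1, fun ξ hξ => ?_,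
        fun x hx => (a5 x hx).elim (r4 x) fun ⟨i, _, e⟩ => Or.inr ⟨i, e⟩, fun J' hJ' h => ?_,
        fun J' hJ' h => WInv.mono (a := J.2) ⟨a2 ▸ p4.1.le, fun i hi => ?_, fun x hx => ?_⟩ ?_⟩
      · rcases a4 ξ hξ with e | e | ⟨i, -, rfl⟩
        · exact r3 ξ e
        · obtain ⟨u, -, rfl⟩ := Finset.mem_image.1 e
          exact W.oz _ _
        · exact W.od i
      · rcases Nat.lt_succ_iff_lt_or_eq.1 h with h | h
        · exact (r5 J' hJ' h).up hle r2 a1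
        obtain rfl := inj J' hJ' J hJ h
        refine ⟨a2.ge, a6, fun ξ hξ k hk hx => (a7 ξ (r2 hξ) k hk.1 hx).1 hξ,
          fun j hj i hi => a3 (Finset.mem_image.2 ⟨(j, i), Finset.mem_product.2
            ⟨Finset.mem_range.2 hj, Finset.mem_range.2 hi.2⟩, rfl⟩), fun J0 g1 g2 j hj i hi => ?_⟩
        have e := (r5 J0 g1 ((sw.1.1 J0 g1).trans_le g2)).2.2.2.1 j hj i hi
        refine ⟨a1.2.2.1 e, fun k hk hx => (a7 _ e k hk.1 hx).2 fun h => ?_⟩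
        have := hn2 j i h
        have := (lj j hj).2
        have := sl J0 g1
        have : J0.1 ≤ i := hi.1
        omega
      · rcases a4 _ hi with e | e | ⟨i', e1, e2⟩
        · exact (hI.2.1 i e).trans (sw.1.1 J hJ)
        · obtain ⟨u, hu, e⟩ := Finset.mem_image.1 e
          obtain ⟨u1, u2⟩ := Finset.mem_product.1 hu
          exact (hc u.1 (φ J) u.2 i (Finset.mem_range.1 u2) e).trans_lt
            (p4.2 _ (lj _ (Finset.mem_range.1 u1)).1 _ le_rfl)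
        · exact W.ied e2 ▸ e1.trans_lt tb
      · rcases a5 x hx with e | ⟨i, e1, e2⟩
        · exact (hI.mono (sw.1.1 J hJ).le).2.2 x e
        · exact Or.inr ⟨i, b1, e2, p3.1.le.trans p4.1.le, e1⟩
      · have := sw.1.1 J' hJ'
        rcases sw.1.2 J hJ J' hJ' (fun e => by rw [e] at h; omega) with e | e <;> omega
  obtain ⟨r, r1, r2, r3, r4, r5, -⟩ := main (s.1.sup Prod.fst + 1)
  have r6 := fun J hJ => r5 J hJ (Nat.lt_succ_of_le (Finset.le_sup (f := Prod.fst) hJ))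
  obtain ⟨r', a1, a2, a3, a4⟩ := walk_lu hle W.ied (Lu := fun m c => ∀ l' ≤ s.1.sup φ, z.Lu m l' c)
    (fun m => W.hl m _) r1.1 ((r.E.filter (· ∉ E0)) ×ˢ Finset.range l0) fun t ht => by
      obtain ⟨e1, e2⟩ := Finset.mem_filter.1 (Finset.mem_product.1 ht).1
      exact ⟨e1, fun x hx => (r4 _ hx).resolve_left fun h =>
        e2 (Finset.mem_union_left _ (W.wf.2 _ h))⟩
  have r7 := fun J hJ => (r6 J hJ).up hle r2 a1
  obtain ⟨u1, u2⟩ := JF.all_u7 l l s (fun J => (J.1, φ J)) sw su fun J hJ =>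
    ⟨sl J hJ, le_rfl, (bφ J hJ).1, (bφ J hJ).2.le⟩
  have ll : l0 ≤ l := by omega
  refine ⟨r', _, a2 ▸ r3, fun x hx => ?_, (hle O Pi A).2.1 _ _ _ a1 r1,
    ⟨u1, u2.both ll ll, fun C hC => ?_, fun c' hc' => ?_⟩, fun C hC => ?_⟩
  · rcases r4 x (a3 ▸ hx) with e | ⟨i, e⟩
    · exact W.oF x e
    · exact e ▸ W.od i
  · obtain ⟨J, hJ, rfl⟩ := Finset.mem_image.1 hC
    exact ll.trans (sl J hJ)
  · obtain ⟨c, hc, rfl⟩ := Finset.mem_image.1 hc'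
    have cs := (sw.2 c hc).1
    refine ⟨?_, W.fm.2 _ _ c (fun J hJ => ⟨_, Finset.mem_image_of_mem _ hJ, le_rfl,
      (bφ J (cs hJ)).2.le⟩) (W.fm.1 _ _ _ ll (sv c hc).2), c, y, φ, ⟨sw.1.subset cs, (sv c hc).1,
        fun l' h => sy c hc l' (h.trans ll), fun J hJ => ?_⟩,
      fun J hJ => ⟨_, Finset.mem_image_of_mem _ hJ, le_rfl, le_rfl⟩⟩
    · rw [Finset.card_image_of_injOn (f := fun J : Cell => (J.1, φ J)) fun J hJ J' hJ' e =>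
        inj J (cs hJ) J' (cs hJ') (Prod.mk.inj e).1]
      exact (sv c hc).1
    · obtain ⟨b1, -, b3, -, -⟩ := r7 J (cs hJ)
      refine ⟨ll.trans (sl J (cs hJ)), (bφ J (cs hJ)).1, (bφ J (cs hJ)).2.le,
        fun j hj k hk h => ?_, fun j hj i hi => ⟨fun J' hJ' e k hk h => ?_, fun m hm => ?_⟩⟩
      · have e : eg j ∈ E0 :=
          Finset.mem_union_right _ (Finset.mem_image_of_mem _ (Finset.mem_range.2 hj))
        exact b3 _ e k hk (h (a1.2.2.1 (r2 e)) (hk.2.trans_le b1))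
      · obtain ⟨d1, -, -, -, d2⟩ := r7 J' (cs hJ')
        obtain ⟨d3, d4⟩ := d2 J (cs hJ) e j hj i hi
        exact d4 k hk (h d3 (hk.2.trans_le d1))
      · obtain ⟨c0, d1, d2⟩ := a4 (ez j i, m) (Finset.mem_product.2 ⟨Finset.mem_filter.2
          ⟨(r6 J (cs hJ)).2.2.2.1 j hj i hi, fun h => by
            have := hn2 j i h
            have := (lj j hj).2
            have := sl J (cs hJ)
            have : J.1 ≤ i := hi.1
            omega⟩, Finset.mem_range.2 hm⟩)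
        exact ⟨c0, fun l' h => d1 l' (h.trans (Finset.le_sup (f := φ) (cs hJ))), d2⟩
  · obtain ⟨J, hJ, rfl⟩ := Finset.mem_image.1 hC
    exact (r7 J hJ).2.1

end Pool.Agent.MP_5baa61_gt.JB
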