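import Pool.Agent.MP_5baa61_gt.JB.Fill
import Pool.Agent.MP_5baa61_gt.JF.All

/-! Part B, plain layer: from the records of the walk to its result. -/

namespace Pool.Agent.MP_5baa61_gt.JB

open Set Function
open Pool.Agent.MP_5baa61_gt.JA (Cell Move Sk Pat inC)
open scoped Classical

universe u

variable {O : Type u} {Pi : Cell → Prop} {A : O → ℕ → Prop}

theorem out_of_rec {eg ed : ℕ → O} {ez : ℕ → ℕ → O} {V : Vf} {z : Zt}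
    {dc : Cn ℕ → ℕ → ℕ → Prop} {q q' : Cn O} {l0 l : ℕ} {s : Sk} {y : Finset ℕ} {φ : Cell → ℕ}
    (fm : Fm V) (hl : l0 ≤ l) (hs : SkV V l s) (hY : ∀ c ∈ s.2, ∀ l' ≤ l, z.Y l' (c, y))
    (hφ : ∀ J ∈ s.1, J.1 < φ J ∧ φ J ≤ J.2) (hq : leC Pi A q' q)
    (r1 : ∀ J ∈ s.1, ∃ c v, leC Pi A q' (Cn.map ed c) ∧ dc c J.1 v ∧ v < φ J)
    (r2 : ∀ J ∈ s.1, ∀ j < l0, ∀ k, inC (J.1, φ J) k → q'.N (eg j) k → k ∈ y)
    (r3 : ∀ J ∈ s.1, ∀ J' ∈ s.1, J.2 ≤ J'.1 → ∀ j < l0, ∀ i, inC (J.1, φ J) i →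
      ∀ k, inC (J'.1, φ J') k → q'.N (ez j i) k → z.K k)
    (r4 : ∀ J ∈ s.1, ∀ j < l0, ∀ i, inC (J.1, φ J) i → ∀ m < l0,
      ∃ c : Finset ℕ, (∀ l' ≤ φ J, z.Lu m l' c) ∧ ∀ k ∈ c, q'.P (ez j i) k) :
    ∃ s', Out Pi A eg ed ez V z dc q l0 q' s' := by
  obtain ⟨s1, s2, s3, s4⟩ := hs
  obtain ⟨u1, u2⟩ := JF.all_u7 l0 l0 s (fun J => (J.1, φ J)) s1 (s2.both hl hl)
    fun J hJ => ⟨hl.trans (s3 J hJ), le_rfl, (hφ J hJ).1, (hφ J hJ).2⟩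
  refine ⟨_, hq, ⟨u1, u2, fun J hJ => ?_, fun c hc => ?_⟩, fun J hJ => ?_⟩
  · obtain ⟨J, h1, rfl⟩ := Finset.mem_image.1 hJ
    exact hl.trans (s3 J h1)
  · obtain ⟨c, h1, rfl⟩ := Finset.mem_image.1 hc
    have h2 := (s1.2 c h1).1
    let ψ : Cell →₀ ℕ := Finsupp.onFinset s.1 (fun J => if J ∈ s.1 then φ J else 0)
      fun J hJ => by by_contra hn; exact hJ (if_neg hn)
    have e : ∀ J ∈ c, ψ J = φ J := fun J hJ => if_pos (h2 hJ)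
    refine ⟨?_, fm.2 _ _ _ (fun J hJ => ⟨_, Finset.mem_image_of_mem _ hJ, le_rfl,
      (hφ J (h2 hJ)).2⟩) (fm.1 _ _ _ hl (s4 c h1).2), c, y, ψ, ⟨s1.1.subset h2, (s4 c h1).1,
        fun l' h => hY c h1 l' (h.trans hl), fun J hJ => ?_⟩,
      fun J hJ => ⟨_, Finset.mem_image_of_mem _ hJ, le_rfl, (e J hJ).ge⟩⟩
    · rw [Finset.card_image_of_injOn (f := fun J : Cell => (J.1, φ J)) fun J hJ J' hJ' e =>
        s1.1.eq (h2 hJ) (h2 hJ') (e := J.1) ⟨le_rfl, s1.1.1 J (h2 hJ)⟩ (by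
          rw [show J.1 = J'.1 from (Prod.ext_iff.1 e).1]
          exact ⟨le_rfl, s1.1.1 J' (h2 hJ')⟩)]
      exact (s4 c h1).1
    · rw [e J hJ]
      exact ⟨hl.trans (s3 J (h2 hJ)), (hφ J (h2 hJ)).1, (hφ J (h2 hJ)).2, r2 J (h2 hJ),
        fun j hj i hi => ⟨fun J' hJ' h => e J' hJ' ▸ r3 J (h2 hJ) J' (h2 hJ') h j hj i hi,
          r4 J (h2 hJ) j hj i hi⟩⟩
  · obtain ⟨J, h1, rfl⟩ := Finset.mem_image.1 hJ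
    exact r1 J h1

/-- The end of the walk: the moving coordinates get their finite sets. -/
theorem walk_end (h : S_le.{u}) {o : O → Prop} {eg ed : ℕ → O} {ez : ℕ → ℕ → O} {H : Hs} {V : Vf}
    {z : Zt} {dc : Cn ℕ → ℕ → ℕ → Prop} {q r : Cn O} {l0 l : ℕ} {s : Sk} {y : Finset ℕ}
    {φ : Cell → ℕ} (W : Walk Pi A o eg ed ez H V z dc q) (hl : l0 ≤ l) (hs : SkV V l s)
    (hY : ∀ c ∈ s.2, ∀ l' ≤ l, z.Y l' (c, y)) (hφ : ∀ J ∈ s.1, J.1 < φ J ∧ φ J ≤ J.2)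
    (hq : leC Pi A r q) (oE : ∀ ξ ∈ r.E, o ξ) (oF : ∀ x ∈ r.F, o x.2)
    (r1 : ∀ J ∈ s.1, ∃ c v, leC Pi A r (Cn.map ed c) ∧ dc c J.1 v ∧ v < φ J)
    (r2 : ∀ J ∈ s.1, ∀ j < l0, ∀ k, inC (J.1, φ J) k → r.N (eg j) k → k ∈ y)
    (r3 : ∀ J ∈ s.1, ∀ J' ∈ s.1, J.2 ≤ J'.1 → ∀ j < l0, ∀ i, inC (J.1, φ J) i →
      ∀ k, inC (J'.1, φ J') k → r.N (ez j i) k → z.K k)
    (r4 : ∀ J ∈ s.1, ∀ j < l0, ∀ i, inC (J.1, φ J) i →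
      ez j i ∈ r.E ∧ ∀ w, (ez j i, w) ∈ r.F → ∃ i', w = ed i') :
    ∃ q' s', (∀ ξ ∈ q'.E, o ξ) ∧ (∀ x ∈ q'.F, o x.2) ∧ Out Pi A eg ed ez V z dc q l0 q' s' := by
  obtain ⟨n, hn⟩ : ∃ n, ∀ i, (∃ ξ, (ξ, ed i) ∈ r.F) → i < n := by
    obtain ⟨n, hn⟩ := (((r.F.image Prod.snd).finite_toSet).preimage W.ied.injOn).bddAbove
    exact ⟨n + 1, fun i ⟨ξ, hi⟩ => Nat.lt_succ_of_le
      (hn (Finset.mem_coe.2 (Finset.mem_image_of_mem Prod.snd hi)))⟩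
  let T : Finset (O × ℕ × ℕ) := s.1.biUnion fun J =>
    (Finset.range l0 ×ˢ Finset.Ico J.1 (φ J) ×ˢ Finset.range l0).image
      fun x => (ez x.1 x.2.1, x.2.2, φ J)
  obtain ⟨q', q1, q2, q3, q4⟩ := fill (A := A) h T (fun t c => ∀ l' ≤ t.2, z.Lu t.1 l' c)
    (fun k => ∀ i < n, A (ed i) k) (fun t l => W.hl t.1 t.2 l n) r hq.1 fun x hx => by
      obtain ⟨J, hJ, hx⟩ := Finset.mem_biUnion.1 hx
      obtain ⟨w, hw, rfl⟩ := Finset.mem_image.1 hx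
      simp only [Finset.mem_product, Finset.mem_range, Finset.mem_Ico] at hw
      obtain ⟨h1, h2⟩ := r4 J hJ w.1 hw.1 w.2.1 hw.2.1
      refine ⟨h1, fun v hv k hk => ?_⟩
      obtain ⟨i, rfl⟩ := h2 v hv
      exact hk i (hn i ⟨_, hv⟩)
  have tr := (h O Pi A).2.1
  obtain ⟨s', h'⟩ := out_of_rec (eg := eg) (ed := ed) (ez := ez) (dc := dc) W.fm hl hs hY hφ
    (tr _ _ _ q1 hq)
    (fun J hJ => let ⟨c, v, h1, h2⟩ := r1 J hJ; ⟨c, v, tr _ _ _ q1 h1, h2⟩)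
    (fun J hJ j hj k hk h1 => r2 J hJ j hj k hk (q1.N h1))
    (fun J hJ J' hJ' e j hj i hi k hk h1 => r3 J hJ J' hJ' e j hj i hi k hk (q1.N h1))
    fun J hJ j hj i hi m hm => q4 (ez j i, m, φ J) (Finset.mem_biUnion.2 ⟨J, hJ,
      Finset.mem_image.2 ⟨(j, i, m), by
        simpa only [Finset.mem_product, Finset.mem_range, Finset.mem_Ico] using ⟨hj, hi, hm⟩, rfl⟩⟩)
  exact ⟨q', s', q2 ▸ oE, q3 ▸ oF, h'⟩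

end Pool.Agent.MP_5baa61_gt.JB
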